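import Pool.Agent.PFC.Defs

/-!
# PFC-KDer: derivations
-/

set_option autoImplicit false

open CategoryTheory
open scoped commutatorElement

namespace PFC

private theorem el_one' {Q : Type} [Group Q] : (el (1 : Q) : GR Q) = 1 := map_one _

private theorem el_mul' {Q : Type} [Group Q] (a b : Q) : (el (a * b) : GR Q) = el a * el b :=
  map_mul _ _ _

theorem der_one {G Q : Type} [Group G] [Group Q] (θ : G →* Q) {M : Type} [AddCommGroup M]
    [Module (GR Q) M] {D : G → M} (hD : IsDer θ D) : D 1 = 0 := by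
  have h := hD 1 1
  rw [mul_one, map_one, el_one', one_smul] at h
  exact (add_eq_left.1 h.symm)

theorem der_inv {G Q : Type} [Group G] [Group Q] (θ : G →* Q) {M : Type} [AddCommGroup M]
    [Module (GR Q) M] {D : G → M} (hD : IsDer θ D) (g : G) : D g⁻¹ = - (el (θ g)⁻¹ • D g) := by
  have h := hD g⁻¹ g
  rw [inv_mul_cancel, der_one θ hD, map_inv] at h
  exact eq_neg_of_add_eq_zero_left h.symm

theorem der_ext_free {Z Q : Type} [Group Q] (θ : FreeGroup Z →* Q) {M : Type} [AddCommGroup M]
    [Module (GR Q) M] {D D' : FreeGroup Z → M} (hD : IsDer θ D) (hD' : IsDer θ D')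
    (h : ∀ z, D (FreeGroup.of z) = D' (FreeGroup.of z)) (w : FreeGroup Z) : D w = D' w := by
  induction w using FreeGroup.induction_on with
  | C1 => rw [der_one θ hD, der_one θ hD']
  | of z => exact h z
  | inv_of z hz =>
    rw [der_inv θ hD, der_inv θ hD', h]
  | mul x y hx hy => rw [hD, hD', hx, hy]

private structure SD (Q M : Type) where
  m : M
  q : Q

private theorem SD.ext' {Q M : Type} {a b : SD Q M} (h1 : a.m = b.m) (h2 : a.q = b.q) : a = b := by
  cases a; cases b; cases h1; cases h2; rfl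

@[instance_reducible]
private noncomputable def sdGroup (Q M : Type) [Group Q] [AddCommGroup M] [Module (GR Q) M] :
    Group (SD Q M) where
  mul a b := ⟨a.m + (el a.q : GR Q) • b.m, a.q * b.q⟩
  one := ⟨0, 1⟩
  inv a := ⟨-((el a.q⁻¹ : GR Q) • a.m), a.q⁻¹⟩
  mul_assoc a b c := by
    refine SD.ext' ?_ (mul_assoc _ _ _)
    show a.m + (el a.q : GR Q) • b.m + (el (a.q * b.q) : GR Q) • c.m =
      a.m + (el a.q : GR Q) • (b.m + (el b.q : GR Q) • c.m)
    rw [smul_add, el_mul', mul_smul, add_assoc]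
  one_mul a := by
    refine SD.ext' ?_ (one_mul _)
    show (0 : M) + (el (1 : Q) : GR Q) • a.m = a.m
    rw [el_one', one_smul, zero_add]
  mul_one a := by
    refine SD.ext' ?_ (mul_one _)
    show a.m + (el a.q : GR Q) • (0 : M) = a.m
    rw [smul_zero, add_zero]
  inv_mul_cancel a := by
    refine SD.ext' ?_ (inv_mul_cancel _)
    show -((el a.q⁻¹ : GR Q) • a.m) + (el a.q⁻¹ : GR Q) • a.m = 0
    exact neg_add_cancel _

theorem exists_der {Z Q : Type} [Group Q] (θ : FreeGroup Z →* Q) {M : Type} [AddCommGroup M]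
    [Module (GR Q) M] (m : Z → M) :
    ∃ D : FreeGroup Z → M, IsDer θ D ∧ ∀ z, D (FreeGroup.of z) = m z := by
  let _ := sdGroup Q M
  let f : FreeGroup Z →* SD Q M := FreeGroup.lift fun z => ⟨m z, θ (FreeGroup.of z)⟩
  let p : SD Q M →* Q :=
    { toFun := fun a => a.q
      map_one' := rfl
      map_mul' := fun _ _ => rfl }
  have hp : p.comp f = θ := by
    apply FreeGroup.ext_hom
    intro z
    show (f (FreeGroup.of z)).q = θ (FreeGroup.of z)
    have h : f (FreeGroup.of z) = ⟨m z, θ (FreeGroup.of z)⟩ := FreeGroup.lift_apply_of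
    rw [h]
  refine ⟨fun g => (f g).m, ?_, ?_⟩
  · intro g h
    show (f (g * h)).m = (f g).m + (el (θ g) : GR Q) • (f h).m
    rw [map_mul]
    show (f g).m + (el (f g).q : GR Q) • (f h).m = _
    have h1 : (f g).q = θ g := DFunLike.congr_fun hp g
    rw [h1]
  · intro z
    have h : f (FreeGroup.of z) = ⟨m z, θ (FreeGroup.of z)⟩ := FreeGroup.lift_apply_of
    show (f (FreeGroup.of z)).m = m z
    rw [h]

end PFC
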