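import Pool.Agent.PFC.HDefs

/-!
# PFC-HShort: wrappers of Mathlib's projective dimension for modules over `GR G`
-/

set_option autoImplicit false

open CategoryTheory
open scoped commutatorElement

namespace PFC

section

variable {G : Type} [Group G] {M₁ M₂ M₃ : Type} [AddCommGroup M₁] [Module (GR G) M₁]
  [AddCommGroup M₂] [Module (GR G) M₂] [AddCommGroup M₃] [Module (GR G) M₃]

private theorem se_comp (f : M₁ →ₗ[GR G] M₂) (g : M₂ →ₗ[GR G] M₃)
    (hfg : Function.Exact f g) : ModuleCat.ofHom f ≫ ModuleCat.ofHom g = 0 := by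
  have h0 : g.comp f = 0 := by
    ext x
    exact hfg.apply_apply_eq_zero x
  rw [← ModuleCat.ofHom_comp, h0]
  rfl

private theorem se (f : M₁ →ₗ[GR G] M₂) (g : M₂ →ₗ[GR G] M₃) (hf : Function.Injective f)
    (hg : Function.Surjective g) (hfg : Function.Exact f g) :
    (ShortComplex.mk (ModuleCat.ofHom f) (ModuleCat.ofHom g) (se_comp f g hfg)).ShortExact := by
  have h1 : Mono (ModuleCat.ofHom f) := (ModuleCat.mono_iff_injective _).2 hf
  have h2 : Epi (ModuleCat.ofHom g) := (ModuleCat.epi_iff_surjective _).2 hg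
  refine ShortComplex.ShortExact.mk ?_
  rw [ShortComplex.ShortExact.moduleCat_exact_iff_function_exact]
  exact hfg

theorem pd_one (f : M₁ →ₗ[GR G] M₂) (g : M₂ →ₗ[GR G] M₃) (hf : Function.Injective f)
    (hg : Function.Surjective g) (hfg : Function.Exact f g) (n : ℕ) (h₂ : PdLT G M₂ n)
    (h₃ : PdLT G M₃ (n + 1)) : PdLT G M₁ n :=
  (se f g hf hg hfg).hasProjectiveDimensionLT_X₁ n h₂ h₃

theorem pd_two (f : M₁ →ₗ[GR G] M₂) (g : M₂ →ₗ[GR G] M₃) (hf : Function.Injective f)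
    (hg : Function.Surjective g) (hfg : Function.Exact f g) (n : ℕ) (h₁ : PdLT G M₁ n)
    (h₃ : PdLT G M₃ n) : PdLT G M₂ n :=
  (se f g hf hg hfg).hasProjectiveDimensionLT_X₂ n h₁ h₃

theorem pd_three (f : M₁ →ₗ[GR G] M₂) (g : M₂ →ₗ[GR G] M₃) (hf : Function.Injective f)
    (hg : Function.Surjective g) (hfg : Function.Exact f g) (n : ℕ) (h₁ : PdLT G M₁ n)
    (h₂ : PdLT G M₂ (n + 1)) : PdLT G M₃ (n + 1) :=
  (se f g hf hg hfg).hasProjectiveDimensionLT_X₃ n h₁ h₂

theorem pd_equiv (e : M₁ ≃ₗ[GR G] M₂) (n : ℕ) (h : PdLT G M₁ n) : PdLT G M₂ n :=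
  hasProjectiveDimensionLT_of_iso (e.toModuleIso) n

theorem pd_fst (n : ℕ) (h : PdLT G (M₁ × M₂) n) : PdLT G M₁ n := by
  have r : Retract (ModuleCat.of (GR G) M₁) (ModuleCat.of (GR G) (M₁ × M₂)) :=
    { i := ModuleCat.ofHom (LinearMap.inl (GR G) M₁ M₂)
      r := ModuleCat.ofHom (LinearMap.fst (GR G) M₁ M₂)
      retract := by
        rw [← ModuleCat.ofHom_comp, LinearMap.fst_comp_inl]
        rfl }
  exact r.hasProjectiveDimensionLT n

theorem pd_proj (h : Module.Projective (GR G) M₁) : PdLT G M₁ 1 := by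
  show HasProjectiveDimensionLT (ModuleCat.of (GR G) M₁) 1
  rw [← projective_iff_hasProjectiveDimensionLT_one]
  exact (IsProjective.iff_projective (R := GR G) M₁).1 h

theorem proj_of_pd (h : PdLT G M₁ 1) : Module.Projective (GR G) M₁ := by
  have h' : HasProjectiveDimensionLT (ModuleCat.of (GR G) M₁) 1 := h
  rw [← projective_iff_hasProjectiveDimensionLT_one] at h'
  exact (IsProjective.iff_projective (R := GR G) M₁).2 h'

theorem pd_mono (m n : ℕ) (hmn : m ≤ n) (h : PdLT G M₁ m) : PdLT G M₁ n :=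
  hasProjectiveDimensionLT_of_ge _ m n hmn

theorem pd_zero_iff : PdLT G M₁ 0 ↔ Subsingleton M₁ := by
  show HasProjectiveDimensionLT (ModuleCat.of (GR G) M₁) 0 ↔ _
  rw [hasProjectiveDimensionLT_zero_iff_isZero, ModuleCat.isZero_iff_subsingleton]

end

end PFC
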