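import Pool.Agent.PFC.HShort

/-!
# PFC-HTr: `0 → augId G → GR G → Tr G → 0`
-/

set_option autoImplicit false

open CategoryTheory
open scoped commutatorElement

namespace PFC

private theorem tr_smul (G : Type) [Group G] (a : GR G) (z : Tr G) : a • z = (eps G a) • z := by
  induction a using MonoidAlgebra.induction_linear with
  | zero => rw [map_zero, zero_smul, zero_smul]
  | add a b ha hb => rw [map_add, add_smul, add_smul, ha, hb]
  | single g n =>
    have h1 : (MonoidAlgebra.single g n : GR G) = n • el g := by
      show _ = n • MonoidAlgebra.single g (1 : ℤ)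
      rw [MonoidAlgebra.smul_single, smul_eq_mul, mul_one]
    rw [h1, map_zsmul, eps_el, smul_assoc]
    have h2 : (el g : GR G) • z = z := by
      apply (Representation.trivial ℤ G ℤ).asModuleEquiv.injective
      rw [Representation.asModuleEquiv_map_smul]
      show (Representation.trivial ℤ G ℤ).asAlgebraHom (MonoidAlgebra.of ℤ G g) _ = _
      rw [Representation.asAlgebraHom_of]
      rfl
    rw [h2, smul_eq_mul, mul_one]

private theorem tr_exact (G : Type) [Group G] :
    ∃ p : GR G →ₗ[GR G] Tr G, Function.Surjective p ∧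
      Function.Exact (augId G).subtype p := by
  refine ⟨LinearMap.toSpanSingleton (GR G) (Tr G)
    ((Representation.trivial ℤ G ℤ).asModuleEquiv.symm 1), ?_, ?_⟩
  · intro z
    refine ⟨((Representation.trivial ℤ G ℤ).asModuleEquiv z) • (1 : GR G), ?_⟩
    rw [LinearMap.toSpanSingleton_apply, tr_smul, map_zsmul, map_one]
    apply (Representation.trivial ℤ G ℤ).asModuleEquiv.injective
    rw [map_smul, LinearEquiv.apply_symm_apply]
    simp
  · intro a
    rw [LinearMap.toSpanSingleton_apply, tr_smul]
    constructor
    · intro h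
      have h1 := congrArg (Representation.trivial ℤ G ℤ).asModuleEquiv h
      rw [map_smul, LinearEquiv.apply_symm_apply, map_zero] at h1
      refine ⟨⟨a, ?_⟩, rfl⟩
      rw [mem_augId]
      simpa using h1
    · rintro ⟨⟨b, hb⟩, rfl⟩
      rw [Submodule.subtype_apply, (mem_augId b).1 hb, zero_smul]

theorem pd_tr (G : Type) [Group G] (m : ℕ) (h : PdLT G (augId G) m) : PdLT G (Tr G) (m + 1) := by
  obtain ⟨p, hp, he⟩ := tr_exact G
  refine pd_three (augId G).subtype p (augId G).injective_subtype hp he m h ?_
  exact pd_mono 1 (m + 1) (by omega) (pd_proj inferInstance)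

theorem pd_of_tr (G : Type) [Group G] (m : ℕ) (hm : 1 ≤ m) (h : PdLT G (Tr G) (m + 1)) :
    PdLT G (augId G) m := by
  obtain ⟨p, hp, he⟩ := tr_exact G
  refine pd_one (augId G).subtype p (augId G).injective_subtype hp he m ?_ h
  exact pd_mono 1 m hm (pd_proj inferInstance)

end PFC
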