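import Pool.Agent.PFC.Defs

/-!
# PFC-KAug: the augmentation ideal
-/

set_option autoImplicit false

open CategoryTheory
open scoped commutatorElement

namespace PFC

private theorem single_eq {Q : Type} [Group Q] (q : Q) (n : ℤ) :
    (MonoidAlgebra.single q n : GR Q) = n • el q := by
  show _ = n • MonoidAlgebra.single q (1 : ℤ)
  rw [MonoidAlgebra.smul_single, smul_eq_mul, mul_one]

private theorem smul_sub_mem {Q : Type} [Group Q] {M : Type} [AddCommGroup M] [Module (GR Q) M]
    (a : GR Q) (L : Submodule (GR Q) M) (m : M) (hm : m ∈ L) :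
    a • m - (eps Q a) • m ∈ PF.aug (Q := Q) (M := M) L := by
  induction a using MonoidAlgebra.induction_linear with
  | zero =>
    rw [map_zero, zero_smul, zero_smul, sub_zero]
    exact Submodule.zero_mem _
  | add a b ha hb =>
    rw [map_add, add_smul, add_smul, add_sub_add_comm]
    exact Submodule.add_mem _ ha hb
  | single q n =>
    rw [single_eq, map_zsmul, eps_el, smul_assoc, smul_eq_mul, mul_one, ← smul_sub]
    have h : (el q : GR Q) • m - m ∈ PF.aug (Q := Q) (M := M) L :=
      Submodule.subset_span ⟨q, m, hm, rfl⟩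
    exact zsmul_mem h n

theorem smul_mem_aug {Q : Type} [Group Q] {M : Type} [AddCommGroup M] [Module (GR Q) M]
    (a : GR Q) (ha : eps Q a = 0) (L : Submodule (GR Q) M) (m : M) (hm : m ∈ L) :
    a • m ∈ PF.aug (Q := Q) (M := M) L := by
  have h := smul_sub_mem a L m hm
  rw [ha, zero_smul, sub_zero] at h
  exact h

theorem exists_of_mem_aug_span {Q : Type} [Group Q] {M : Type} [AddCommGroup M] [Module (GR Q) M]
    (p x : M) (hx : x ∈ PF.aug (Q := Q) (M := M) (Submodule.span (GR Q) {p})) :
    ∃ a : GR Q, eps Q a = 0 ∧ x = a • p := by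
  refine Submodule.span_induction (p := fun x _ => ∃ a : GR Q, eps Q a = 0 ∧ x = a • p)
    ?_ ?_ ?_ ?_ hx
  · rintro _ ⟨q, m, hm, rfl⟩
    obtain ⟨b, rfl⟩ := Submodule.mem_span_singleton.1 hm
    refine ⟨(el q - 1) * b, ?_, ?_⟩
    · rw [map_mul, map_sub, eps_el, map_one, sub_self, zero_mul]
    · rw [mul_smul, sub_smul, one_smul]
  · exact ⟨0, map_zero _, (zero_smul _ _).symm⟩
  · rintro x y _ _ ⟨a, ha, rfl⟩ ⟨b, hb, rfl⟩
    exact ⟨a + b, by rw [map_add, ha, hb, add_zero], (add_smul _ _ _).symm⟩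
  · rintro c x _ ⟨a, ha, rfl⟩
    exact ⟨c * a, by rw [map_mul, ha, mul_zero], (mul_smul _ _ _).symm⟩

theorem aug_gen {Q : Type} [Group Q] {ι : Type} [Fintype ι] (x : ι → Q)
    (hx : Subgroup.closure (Set.range x) = ⊤) (a : GR Q) (ha : eps Q a = 0) :
    ∃ c : ι → GR Q, a = ∑ i, c i * (el (x i) - 1) := by
  have hel1 : (el (1 : Q) : GR Q) = 1 := map_one _
  have helm : ∀ p q : Q, (el (p * q) : GR Q) = el p * el q := fun p q => map_mul _ _ _
  set J : Submodule (GR Q) (GR Q) := Submodule.span (GR Q) (Set.range fun i => el (x i) - 1) with hJ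
  have h1 : ∀ q : Q, (el q : GR Q) - 1 ∈ J := by
    intro q
    have hq : q ∈ Subgroup.closure (Set.range x) := by
      rw [hx]; exact Subgroup.mem_top q
    refine Subgroup.closure_induction (p := fun q _ => (el q : GR Q) - 1 ∈ J) ?_ ?_ ?_ ?_ hq
    · rintro _ ⟨i, rfl⟩
      exact Submodule.subset_span ⟨i, rfl⟩
    · rw [hel1, sub_self]
      exact Submodule.zero_mem _
    · intro p q _ _ hp hq
      have e : (el (p * q) : GR Q) - 1 = el p • (el q - 1) + (el p - 1) := by
        rw [helm, smul_eq_mul, mul_sub, mul_one]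
        abel
      rw [e]
      exact J.add_mem (J.smul_mem _ hq) hp
    · intro p _ hp
      have e : (el p⁻¹ : GR Q) - 1 = (-el p⁻¹ : GR Q) • (el p - 1) := by
        rw [smul_eq_mul, neg_mul, mul_sub, mul_one, ← helm, inv_mul_cancel, hel1]
        abel
      rw [e]
      exact J.smul_mem _ hp
  have h2 : ∀ b : GR Q, b - (eps Q b) • (1 : GR Q) ∈ J := by
    intro b
    induction b using MonoidAlgebra.induction_linear with
    | zero =>
      rw [map_zero, zero_smul, sub_zero]
      exact Submodule.zero_mem _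
    | add a b ha hb =>
      rw [map_add, add_smul, add_sub_add_comm]
      exact J.add_mem ha hb
    | single q n =>
      rw [single_eq, map_zsmul, eps_el, smul_eq_mul, mul_one, ← smul_sub]
      exact zsmul_mem (h1 q) n
  have h3 := h2 a
  rw [ha, zero_smul, sub_zero, hJ, Submodule.mem_span_range_iff_exists_fun] at h3
  obtain ⟨c, hc⟩ := h3
  exact ⟨c, hc.symm⟩

end PFC
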