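import Pool.Agent.PFC.MDeep

/-!
# PFC-MFin: final step of Magnus-Witt
All letters have weight at least `n`: modulo `gam F n` the letters are central, every element of `gam F (n-1)` is an
integral combination of the letters of weight `n`, and its coefficient `mu n` is the same combination of the leading
terms, which are linearly independent.
-/

set_option autoImplicit false

open CategoryTheory
open scoped commutatorElement IsMulCommutative

namespace PFC

private theorem gam_step {G : Type} [Group G] (n : ℕ) (hn : 0 < n) {v : G}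
    (hv : v ∈ PF.gam G (n - 1)) (y : G) : ⁅v, y⁆ ∈ PF.gam G n := by
  obtain ⟨m, rfl⟩ : ∃ m, n = m + 1 := ⟨n - 1, by omega⟩
  have hv' : v ∈ PF.gam G m := by simpa using hv
  have h0 : y ∈ PF.gam G 0 := by
    show y ∈ (⊤ : Subgroup G).lowerCentralSeries 0
    simp
  have := gam_comm G m 0 (Subgroup.commutator_mem_commutator hv' h0)
  simpa using this

private theorem gam_anti {G : Type} [Group G] {i j : ℕ} (h : i ≤ j) : PF.gam G j ≤ PF.gam G i := by
  have := (nser_gam G).anti (i + 1) (j + 1) (by omega)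
  simpa using this

/-- elements of `gam G (n-1)` are central modulo `gam G n` -/
private theorem mk_center {G : Type} [Group G] (n : ℕ) (hn : 0 < n) {v : G}
    (hv : v ∈ PF.gam G (n - 1)) :
    (v : G ⧸ PF.gam G n) ∈ Subgroup.center (G ⧸ PF.gam G n) := by
  rw [Subgroup.mem_center_iff]
  intro g
  obtain ⟨y, rfl⟩ := QuotientGroup.mk_surjective g
  have h1 : ((⁅v, y⁆ : G) : G ⧸ PF.gam G n) = 1 := (QuotientGroup.eq_one_iff _).2 (gam_step n hn hv y)
  have h2 : ⁅(v : G ⧸ PF.gam G n), (y : G ⧸ PF.gam G n)⁆ = 1 := h1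
  exact ((commutatorElement_eq_one_iff_mul_comm).1 h2).symm

/-- the free generators are linearly independent -/
private theorem iota_indep {A : Type} (c : A →₀ ℤ)
    (h : Finsupp.liftAddHom (fun a => zmultiplesHom (FreeAlgebra ℤ A) (FreeAlgebra.ι ℤ a)) c = 0) :
    c = 0 := by
  classical
  ext a1
  let L : FreeAlgebra ℤ A →ₐ[ℤ] Polynomial ℤ :=
    FreeAlgebra.lift ℤ (fun a => if a = a1 then Polynomial.X else 0)
  have h1 : L.toRingHom.toAddMonoidHom.comp
      (Finsupp.liftAddHom (fun a => zmultiplesHom (FreeAlgebra ℤ A) (FreeAlgebra.ι ℤ a))) =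
      (zmultiplesHom (Polynomial ℤ) Polynomial.X).comp (Finsupp.applyAddHom a1) := by
    apply Finsupp.addHom_ext
    intro a k
    have e1 : (L.toRingHom.toAddMonoidHom.comp
      (Finsupp.liftAddHom (fun a => zmultiplesHom (FreeAlgebra ℤ A) (FreeAlgebra.ι ℤ a))))
        (Finsupp.single a k) = L (k • FreeAlgebra.ι ℤ a) := by
      rw [AddMonoidHom.comp_apply, Finsupp.liftAddHom_apply_single, zmultiplesHom_apply]
      rfl
    rw [e1, map_zsmul, FreeAlgebra.lift_ι_apply, AddMonoidHom.comp_apply,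
      Finsupp.applyAddHom_apply, zmultiplesHom_apply]
    by_cases ha : a = a1
    · subst ha
      rw [if_pos rfl, Finsupp.single_eq_same]
    · rw [if_neg ha, Finsupp.single_apply, if_neg ha, smul_zero, zero_smul]
  have h2 := DFunLike.congr_fun h1 c
  rw [AddMonoidHom.comp_apply, h, map_zero, AddMonoidHom.comp_apply, Finsupp.applyAddHom_apply,
    zmultiplesHom_apply] at h2
  have h3 := congrArg (fun p => Polynomial.coeff p 1) h2
  simpa using h3.symm

/-- integral combinations in a commutative group -/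
private noncomputable def lc {A C : Type} [CommGroup C] (g : A → C) (c : A →₀ ℤ) : C :=
  Additive.toMul (Finsupp.liftAddHom
    (fun a => zmultiplesHom (Additive C) (Additive.ofMul (g a))) c)

private theorem lc_zero {A C : Type} [CommGroup C] (g : A → C) : lc g 0 = 1 := by
  unfold lc; rw [map_zero]; rfl

private theorem lc_add {A C : Type} [CommGroup C] (g : A → C) (c d : A →₀ ℤ) :
    lc g (c + d) = lc g c * lc g d := by
  unfold lc; rw [map_add]; rfl

private theorem lc_neg {A C : Type} [CommGroup C] (g : A → C) (c : A →₀ ℤ) :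
    lc g (-c) = (lc g c)⁻¹ := by
  unfold lc; rw [map_neg]; rfl

private theorem lc_single {A C : Type} [CommGroup C] (g : A → C) (a : A) :
    lc g (Finsupp.single a 1) = g a := by
  unfold lc
  rw [Finsupp.liftAddHom_apply_single, zmultiplesHom_apply, one_zsmul]; rfl

theorem good_final (X : Type) (n : ℕ) (hn : 0 < n) (A : Type) (wt : A → ℕ) (f : A → FreeGroup X)
    (h : Good X n n A wt f) (w : FreeGroup X) (hw : w ∈ PF.gam (FreeGroup X) (n - 1))
    (h0 : mu n w = 0) : w ∈ PF.gam (FreeGroup X) n := by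
  classical
  obtain ⟨h1, _, h3, h4, h5⟩ := h
  have hf1 : ∀ a, f a ∈ PF.gam (FreeGroup X) (n - 1) := fun a =>
    gam_anti (by have := h1 a; omega) (h3 a)
  have hdeep : ∀ v ∈ PF.gam (FreeGroup X) (n - 1), MuDeep n v := by
    intro v hv
    have := muDeep_of_gam (n - 1) v hv
    rwa [show n - 1 + 1 = n by omega] at this
  -- the central combination
  let z : A → Subgroup.center (FreeGroup X ⧸ PF.gam (FreeGroup X) n) := fun a =>
    ⟨(f a : FreeGroup X ⧸ PF.gam (FreeGroup X) n), mk_center n hn (hf1 a)⟩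
  let M : (A →₀ ℤ) →+ FreeAlgebra ℤ X :=
    Finsupp.liftAddHom (fun a => zmultiplesHom _ (mu (wt a) (f a)))
  let T : (A →₀ ℤ) → FreeGroup X ⧸ PF.gam (FreeGroup X) n := fun c => (lc z c).1
  have T0 : T 0 = 1 := by
    show (lc z 0).1 = 1
    rw [lc_zero]; rfl
  have Tadd : ∀ c d, T (c + d) = T c * T d := by
    intro c d
    show (lc z (c + d)).1 = _
    rw [lc_add]; rfl
  have Tneg : ∀ c, T (-c) = (T c)⁻¹ := by
    intro c
    show (lc z (-c)).1 = _
    rw [lc_neg]; rfl
  have Tsingle : ∀ a, T (Finsupp.single a 1) = (f a : FreeGroup X ⧸ PF.gam (FreeGroup X) n) := by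
    intro a
    show (lc z (Finsupp.single a 1)).1 = _
    rw [lc_single]
  have Msingle : ∀ a, M (Finsupp.single a 1) = mu (wt a) (f a) := by
    intro a
    rw [Finsupp.liftAddHom_apply_single, zmultiplesHom_apply, one_zsmul]
  -- the subgroup of the combinations of letters of weight `n`
  let K : Subgroup (FreeGroup X) :=
    { carrier := {v | v ∈ PF.gam (FreeGroup X) (n - 1) ∧ ∃ c : A →₀ ℤ, (∀ a, c a ≠ 0 → wt a = n) ∧
        T c = (v : FreeGroup X ⧸ PF.gam (FreeGroup X) n) ∧ mu n v = M c}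
      mul_mem' := by
        rintro u v ⟨hu, c, hc, hc1, hc2⟩ ⟨hv, d, hd, hd1, hd2⟩
        refine ⟨mul_mem hu hv, c + d, ?_, ?_, ?_⟩
        · intro a ha
          by_cases h6 : c a = 0
          · apply hd a
            intro h7
            apply ha
            rw [Finsupp.add_apply, h6, h7, add_zero]
          · exact hc a h6
        · rw [Tadd, hc1, hd1]; rfl
        · rw [mu_mul_deep n hn u v (hdeep u hu) (hdeep v hv), hc2, hd2, map_add]
      one_mem' := by
        refine ⟨one_mem _, 0, fun a ha => absurd rfl ha, T0, ?_⟩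
        rw [map_zero]
        exact mu_one n hn.ne'
      inv_mem' := by
        rintro u ⟨hu, c, hc, hc1, hc2⟩
        refine ⟨inv_mem hu, -c, ?_, ?_, ?_⟩
        · intro a ha
          apply hc a
          intro h6
          apply ha
          rw [Finsupp.neg_apply, h6, neg_zero]
        · rw [Tneg, hc1]; rfl
        · rw [(mu_inv_deep n hn u (hdeep u hu)).2, hc2, map_neg] }
  have hK : ∀ v, v ∈ K ↔ v ∈ PF.gam (FreeGroup X) (n - 1) ∧ ∃ c : A →₀ ℤ,
      (∀ a, c a ≠ 0 → wt a = n) ∧
        T c = (v : FreeGroup X ⧸ PF.gam (FreeGroup X) n) ∧ mu n v = M c := fun v => Iff.rfl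
  have hgK : PF.gam (FreeGroup X) n ≤ K := by
    intro v hv
    rw [hK]
    refine ⟨gam_anti (by omega) hv, 0, fun a ha => absurd rfl ha, ?_, ?_⟩
    · rw [T0]; exact ((QuotientGroup.eq_one_iff v).2 hv).symm
    · rw [map_zero]
      exact muDeep_of_gam n v hv n hn (Nat.lt_succ_self n)
  have hfK : ∀ a, wt a = n → f a ∈ K := by
    intro a ha
    rw [hK]
    refine ⟨hf1 a, Finsupp.single a 1, ?_, Tsingle a, ?_⟩
    · intro b hb
      by_cases hab : a = b
      · rw [← hab]; exact ha
      · exact absurd (by rw [Finsupp.single_apply, if_neg hab]) hb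
    · rw [Msingle, ha]
  -- the series
  let E : Subgroup (FreeGroup X ⧸ PF.gam (FreeGroup X) n) :=
    K.map (QuotientGroup.mk' (PF.gam (FreeGroup X) n))
  have hEc : ∀ x ∈ E, x ∈ Subgroup.center (FreeGroup X ⧸ PF.gam (FreeGroup X) n) := by
    rintro x ⟨v, hv, rfl⟩
    exact mk_center n hn ((hK v).1 hv).1
  let N : ℕ → Subgroup (FreeGroup X ⧸ PF.gam (FreeGroup X) n) := fun k => if k ≤ n then E else ⊥
  have hNE : ∀ k, N k ≤ E := by
    intro k
    show (if k ≤ n then E else ⊥) ≤ E
    split_ifs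
    · exact le_rfl
    · exact bot_le
  have hNs : NSer N := by
    refine ⟨?_, ?_⟩
    · intro i j hij
      show (if j ≤ n then E else ⊥) ≤ (if i ≤ n then E else ⊥)
      by_cases hj : j ≤ n
      · rw [if_pos hj, if_pos (hij.trans hj)]
      · rw [if_neg hj]; exact bot_le
    · intro i j
      rw [Subgroup.commutator_le]
      intro x hx y _
      have hxc := Subgroup.mem_center_iff.1 (hEc x (hNE i hx)) y
      have : ⁅x, y⁆ = 1 := commutatorElement_eq_one_iff_mul_comm.2 hxc.symm
      rw [this]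
      exact one_mem _
  have hNf : ∀ a, ((f a : FreeGroup X) : FreeGroup X ⧸ PF.gam (FreeGroup X) n) ∈ N (wt a) := by
    intro a
    show ((f a : FreeGroup X) : FreeGroup X ⧸ PF.gam (FreeGroup X) n) ∈
      (if wt a ≤ n then E else ⊥)
    by_cases ha : wt a ≤ n
    · rw [if_pos ha]
      exact ⟨f a, hfK a (le_antisymm ha (h1 a)), rfl⟩
    · rw [if_neg ha, Subgroup.mem_bot]
      exact (QuotientGroup.eq_one_iff (f a)).2 (gam_anti (by omega) (h3 a))
  have hwE : (w : FreeGroup X ⧸ PF.gam (FreeGroup X) n) ∈ N n :=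
    WSer_le wt _ N hNs hNf n (h5 w hw)
  have hwE' : (w : FreeGroup X ⧸ PF.gam (FreeGroup X) n) ∈ E := hNE n hwE
  obtain ⟨v, hv, hvw⟩ := hwE'
  have hwK : w ∈ K := by
    have e1 : v⁻¹ * w ∈ PF.gam (FreeGroup X) n := QuotientGroup.eq.1 hvw
    have e2 : v * (v⁻¹ * w) ∈ K := K.mul_mem hv (hgK e1)
    rwa [mul_inv_cancel_left] at e2
  obtain ⟨_, c, _, hc1, hc2⟩ := (hK w).1 hwK
  have hMc : M c = 0 := by rw [← hc2]; exact h0
  have hLM : M c = FreeAlgebra.lift ℤ (fun a => mu (wt a) (f a))
      (Finsupp.liftAddHom (fun a => zmultiplesHom (FreeAlgebra ℤ A) (FreeAlgebra.ι ℤ a)) c) := by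
    have e : M = (FreeAlgebra.lift ℤ (fun a => mu (wt a) (f a))).toRingHom.toAddMonoidHom.comp
        (Finsupp.liftAddHom (fun a => zmultiplesHom (FreeAlgebra ℤ A) (FreeAlgebra.ι ℤ a))) := by
      apply Finsupp.addHom_ext
      intro a k
      rw [AddMonoidHom.comp_apply, Finsupp.liftAddHom_apply_single, zmultiplesHom_apply,
        Finsupp.liftAddHom_apply_single, zmultiplesHom_apply]
      show _ = FreeAlgebra.lift ℤ (fun a => mu (wt a) (f a)) (k • FreeAlgebra.ι ℤ a)
      rw [map_zsmul, FreeAlgebra.lift_ι_apply]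
    exact DFunLike.congr_fun e c
  have hc0 : c = 0 := by
    apply iota_indep
    apply h4
    rw [← hLM, hMc, map_zero]
  rw [hc0, T0] at hc1
  exact (QuotientGroup.eq_one_iff w).1 hc1.symm

end PFC
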