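import Pool.Agent.PFC.MStC
import Pool.Agent.PFC.MFin

/-!
# PFC-MWitt
The Magnus-Witt theorem: an element of a finitely generated free group whose Magnus coefficients
of the degrees `1, .., n` vanish is in the `n`-th term of the lower central series.
-/

set_option autoImplicit false

open CategoryTheory
open scoped commutatorElement

namespace PFC

theorem magnus_witt (X : Type) [Finite X] (n : ℕ) (w : FreeGroup X) (h : MuDeep (n + 1) w) :
    w ∈ PF.gam (FreeGroup X) n := by
  induction n with
  | zero =>
    show w ∈ (⊤ : Subgroup (FreeGroup X)).lowerCentralSeries 0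
    simp
  | succ n ih =>
    have h1 : MuDeep (n + 1) w := fun j hj hj' => h j hj (by omega)
    have h2 : w ∈ PF.gam (FreeGroup X) (n + 1 - 1) := ih h1
    obtain ⟨A, wt, f, hg⟩ := good_exists X (n + 1) (n + 1) (Nat.succ_pos n) le_rfl
    exact good_final X (n + 1) (Nat.succ_pos n) A wt f hg w h2 (h (n + 1) (Nat.succ_pos n) (by omega))

end PFC
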