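import Pool.Agent.PF.Defs
import Pool.Agent.PF.AR

/-!
# Cohomological dimension of parafree groups: definitions

`GR Q` is the integral group ring, `el q` the element of `GR Q` given by `q`, `eps Q` the augmentation.
`PF.aug L` is the submodule generated by all `(q-1)m`, `q ∈ Q`, `m ∈ L` (`I L` for the augmentation
ideal `I`). `PF.gam G n` is the lower central series with `gam G 0 = ⊤`.
-/

set_option autoImplicit false

open CategoryTheory
open scoped commutatorElement

namespace PFC

/-- the integral group ring -/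
abbrev GR (Q : Type) [Group Q] : Type := MonoidAlgebra ℤ Q

/-- the element of the group ring given by `q` -/
noncomputable abbrev el {Q : Type} [Group Q] (q : Q) : GR Q := MonoidAlgebra.of ℤ Q q

/-- the augmentation `GR Q → ℤ` -/
noncomputable def eps (Q : Type) [Group Q] : GR Q →+* ℤ :=
  (MonoidAlgebra.lift ℤ ℤ Q (1 : Q →* ℤ)).toRingHom

theorem eps_el {Q : Type} [Group Q] (q : Q) : eps Q (el q) = 1 := by
  show MonoidAlgebra.lift ℤ ℤ Q (1 : Q →* ℤ) (MonoidAlgebra.of ℤ Q q) = 1
  rw [MonoidAlgebra.lift_of]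
  rfl

/-- the augmentation ideal of the group ring, as a left submodule -/
noncomputable def augId (Q : Type) [Group Q] : Submodule (GR Q) (GR Q) where
  carrier := {x | eps Q x = 0}
  add_mem' := by
    intro a b ha hb
    show eps Q (a + b) = 0
    rw [map_add, show eps Q a = 0 from ha, show eps Q b = 0 from hb, add_zero]
  zero_mem' := map_zero _
  smul_mem' := by
    intro c x hx
    show eps Q (c * x) = 0
    rw [map_mul, show eps Q x = 0 from hx, mul_zero]

theorem mem_augId {Q : Type} [Group Q] (x : GR Q) : x ∈ augId Q ↔ eps Q x = 0 := Iff.rfl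

/-- `D : G → M` is a derivation over `θ : G → Q`, where `M` is a module over the group ring of `Q` -/
def IsDer {G Q : Type} [Group G] [Group Q] (θ : G →* Q) {M : Type} [AddCommGroup M]
    [Module (GR Q) M] (D : G → M) : Prop :=
  ∀ g h : G, D (g * h) = D g + el (θ g) • D h

/-- the intersection of the powers of the augmentation ideal is zero -/
def Sep (Q : Type) [Group Q] : Prop :=
  ∀ x : GR Q, (∀ j : ℕ, x ∈ (PF.aug (Q := Q) (M := GR Q))^[j] ⊤) → x = 0

/-- polynomial functions of degree at most `d` on a group -/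
def PolyF {N : Type} [Group N] : ℕ → (N → ℤ) → Prop
  | 0, f => ∀ q x : N, f (q * x) = f x
  | d + 1, f => ∀ q : N, PolyF d (fun x => f (q * x) - f x)

/-- an `N`-series of subgroups -/
structure NSer {H : Type} [Group H] (N : ℕ → Subgroup H) : Prop where
  anti : ∀ i j : ℕ, i ≤ j → N j ≤ N i
  comm : ∀ i j : ℕ, ⁅N i, N j⁆ ≤ N (i + j)

/-- the smallest `N`-series in which `f a` has weight at least `wt a` for every `a` -/
def WSer {H A : Type} [Group H] (wt : A → ℕ) (f : A → H) (k : ℕ) : Subgroup H :=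
  ⨅ N : {N : ℕ → Subgroup H // NSer N ∧ ∀ a, f a ∈ N (wt a)}, N.1 k

theorem mem_WSer {H A : Type} [Group H] (wt : A → ℕ) (f : A → H) (k : ℕ) (x : H) :
    x ∈ WSer wt f k ↔ ∀ N : ℕ → Subgroup H, NSer N → (∀ a, f a ∈ N (wt a)) → x ∈ N k := by
  rw [WSer, Subgroup.mem_iInf]
  exact ⟨fun h N h1 h2 => h ⟨N, h1, h2⟩, fun h N => h N.1 N.2.1 N.2.2⟩

theorem WSer_nser {H A : Type} [Group H] (wt : A → ℕ) (f : A → H) : NSer (WSer wt f) := by
  refine ⟨fun i j hij x hx => ?_, fun i j => ?_⟩
  · rw [mem_WSer] at hx ⊢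
    exact fun N h1 h2 => h1.anti i j hij (hx N h1 h2)
  · rw [Subgroup.commutator_le]
    intro x hx y hy
    rw [mem_WSer] at hx hy ⊢
    exact fun N h1 h2 => h1.comm i j
      (Subgroup.commutator_mem_commutator (hx N h1 h2) (hy N h1 h2))

theorem WSer_mem {H A : Type} [Group H] (wt : A → ℕ) (f : A → H) (a : A) :
    f a ∈ WSer wt f (wt a) := by
  rw [mem_WSer]
  exact fun N _ h2 => h2 a

theorem WSer_le {H A : Type} [Group H] (wt : A → ℕ) (f : A → H) (N : ℕ → Subgroup H)
    (h1 : NSer N) (h2 : ∀ a, f a ∈ N (wt a)) (k : ℕ) : WSer wt f k ≤ N k := by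
  intro x hx
  exact (mem_WSer wt f k x).1 hx N h1 h2

/-- new letters `[f a0, [f a0, ..., [f a0, f b]]]` (`j` times) -/
def newF {H A : Type} [Group H] (f : A → H) (a0 : A) (z : {b : A // b ≠ a0} × ℕ) : H :=
  (fun y => ⁅f a0, y⁆)^[z.2] (f z.1.1)

/-- the weights of the new letters -/
def newW {A : Type} (wt : A → ℕ) (a0 : A) (z : {b : A // b ≠ a0} × ℕ) : ℕ :=
  wt z.1.1 + z.2 * wt a0

/-- the unit `1 + x t` of the power series ring in `t` over the free ring -/
noncomputable def magOf {X : Type} (x : X) : (PowerSeries (FreeAlgebra ℤ X))ˣ where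
  val := 1 + PowerSeries.C (FreeAlgebra.ι ℤ x) * PowerSeries.X
  inv := PowerSeries.mk fun k => (-FreeAlgebra.ι ℤ x) ^ k
  val_inv := by
    ext k
    rw [add_mul, one_mul, map_add, mul_assoc, PowerSeries.coeff_C_mul, PowerSeries.coeff_mk]
    cases k with
    | zero => simp
    | succ k =>
      rw [PowerSeries.coeff_succ_X_mul, PowerSeries.coeff_mk, pow_succ', neg_mul,
        neg_add_cancel, PowerSeries.coeff_one, if_neg (Nat.succ_ne_zero k)]
  inv_val := by
    ext k
    rw [mul_add, mul_one, map_add, ← mul_assoc, PowerSeries.coeff_mk]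
    cases k with
    | zero => simp
    | succ k =>
      rw [PowerSeries.coeff_succ_mul_X, PowerSeries.coeff_mul_C, PowerSeries.coeff_mk, pow_succ,
        mul_neg, neg_add_cancel, PowerSeries.coeff_one, if_neg (Nat.succ_ne_zero k)]

/-- the Magnus homomorphism: `x ↦ 1 + x t` -/
noncomputable def mag (X : Type) : FreeGroup X →* (PowerSeries (FreeAlgebra ℤ X))ˣ :=
  FreeGroup.lift magOf

/-- the coefficient of `t ^ k` in the Magnus expansion, an element of the free ring -/
noncomputable def mu {X : Type} (k : ℕ) (g : FreeGroup X) : FreeAlgebra ℤ X :=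
  PowerSeries.coeff k (mag X g).1

theorem mu_zero {X : Type} (g : FreeGroup X) : mu 0 g = 1 := by
  let f : FreeGroup X →* (FreeAlgebra ℤ X)ˣ :=
    (Units.map (PowerSeries.constantCoeff (R := FreeAlgebra ℤ X)).toMonoidHom).comp (mag X)
  have h : f = 1 := by
    apply FreeGroup.ext_hom
    intro x
    apply Units.ext
    show PowerSeries.constantCoeff (mag X (FreeGroup.of x)).1 = 1
    rw [mag, FreeGroup.lift_apply_of]
    show PowerSeries.constantCoeff (1 + PowerSeries.C (FreeAlgebra.ι ℤ x) * PowerSeries.X) = 1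
    simp
  have h1 := congrArg Units.val (DFunLike.congr_fun h g)
  show PowerSeries.coeff 0 (mag X g).1 = 1
  rw [PowerSeries.coeff_zero_eq_constantCoeff]
  exact h1

theorem mu_mul {X : Type} (k : ℕ) (g h : FreeGroup X) :
    mu k (g * h) = ∑ i ∈ Finset.range (k + 1), mu i g * mu (k - i) h := by
  show PowerSeries.coeff k (mag X (g * h)).1 = _
  rw [map_mul, Units.val_mul, PowerSeries.coeff_mul,
    Finset.Nat.sum_antidiagonal_eq_sum_range_succ
      (fun i j => PowerSeries.coeff i (mag X g).1 * PowerSeries.coeff j (mag X h).1)]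
  rfl

theorem mu_one {X : Type} (k : ℕ) (hk : k ≠ 0) : mu k (1 : FreeGroup X) = 0 := by
  show PowerSeries.coeff k (mag X 1).1 = 0
  rw [map_one, Units.val_one, PowerSeries.coeff_one, if_neg hk]

theorem mu_of {X : Type} (x : X) : mu 1 (FreeGroup.of x) = FreeAlgebra.ι ℤ x := by
  show PowerSeries.coeff 1 (mag X (FreeGroup.of x)).1 = _
  rw [mag, FreeGroup.lift_apply_of]
  show PowerSeries.coeff 1 (1 + PowerSeries.C (FreeAlgebra.ι ℤ x) * PowerSeries.X) = _
  rw [map_add, PowerSeries.coeff_C_mul, PowerSeries.coeff_one_X, PowerSeries.coeff_one]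
  simp

/-- `g` is `1` up to terms of degree `k` -/
def MuDeep {X : Type} (k : ℕ) (g : FreeGroup X) : Prop :=
  ∀ i, 0 < i → i < k → mu i g = 0

/-- the additive extension of a function on the group to the group ring -/
noncomputable def lin {N : Type} [Group N] (f : N → ℤ) : GR N →+ ℤ :=
  (Finsupp.liftAddHom (fun g => zmultiplesHom ℤ (f g))).comp
    (MonoidAlgebra.coeffAddEquiv (R := ℤ) (M := N)).toAddMonoidHom

theorem lin_single {N : Type} [Group N] (f : N → ℤ) (g : N) (n : ℤ) :
    lin f (MonoidAlgebra.single g n) = n * f g := by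
  have h1 : lin f (MonoidAlgebra.single g n) =
      (Finsupp.liftAddHom (fun g => zmultiplesHom ℤ (f g))) (Finsupp.single g n) := rfl
  rw [h1, Finsupp.liftAddHom_apply_single, zmultiplesHom_apply, smul_eq_mul]

theorem lin_el {N : Type} [Group N] (f : N → ℤ) (g : N) : lin f (el g) = f g := by
  have h : (el g : GR N) = MonoidAlgebra.single g 1 := rfl
  rw [h, lin_single, one_mul]

/-- a system of letters of weight at least `m` for the group `F / gam F n`, `F` free on `X` -/
def Good (X : Type) (n m : ℕ) (A : Type) (wt : A → ℕ) (f : A → FreeGroup X) : Prop :=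
  (∀ a, m ≤ wt a) ∧ (∀ k, {a | wt a = k}.Finite) ∧
  (∀ a, f a ∈ PF.gam (FreeGroup X) (wt a - 1)) ∧
  Function.Injective (FreeAlgebra.lift ℤ (fun a => mu (wt a) (f a))) ∧
  ∀ w ∈ PF.gam (FreeGroup X) (n - 1),
    (w : FreeGroup X ⧸ PF.gam (FreeGroup X) n) ∈
      WSer wt (fun a => ((f a : FreeGroup X) : FreeGroup X ⧸ PF.gam (FreeGroup X) n)) n

/-- the iterated brackets `[a0, [a0, ..., [a0, b]]]` in the free ring on `A` -/
noncomputable def adIt {A : Type} (a0 : A) (z : {b : A // b ≠ a0} × ℕ) : FreeAlgebra ℤ A :=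
  (fun y => FreeAlgebra.ι ℤ a0 * y - y * FreeAlgebra.ι ℤ a0)^[z.2] (FreeAlgebra.ι ℤ z.1.1)

/-- the trivial module `ℤ` over the group ring (Mathlib) -/
abbrev Tr (G : Type) [Group G] : Type := (Representation.trivial ℤ G ℤ).asModule

/-- the projective dimension of the `GR G`-module `M` is less than `n` -/
abbrev PdLT (G : Type) [Group G] (M : Type) [AddCommGroup M] [Module (GR G) M] (n : ℕ) : Prop :=
  HasProjectiveDimensionLT (ModuleCat.of (GR G) M) n

/-- the left submodule of the group ring generated by all `k - 1`, `k ∈ K` -/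
noncomputable def LK {G : Type} [Group G] (K : Subgroup G) : Submodule (GR G) (GR G) :=
  Submodule.span (GR G) {x | ∃ k ∈ K, x = el k - 1}

/-- `M` is induced from `N` -/
def IsInd {G : Type} [Group G] (K : Subgroup G) {N M : Type} [AddCommGroup N] [Module (GR K) N]
    [AddCommGroup M] [Module (GR G) M] (i : N →+ M) : Prop :=
  (∀ (k : K) (x : N), i (el k • x) = el (k : G) • i x) ∧
  Function.Bijective (fun f : (G ⧸ K) →₀ N => f.sum fun t x => el (Quotient.out t) • i x)

end PFC
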