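import Pool.Agent.PFC.HDefs

/-!
# PFC-HIndE (1.0h)
Universal property of induced modules (see `IsInd` in Defs: every element of `M` is uniquely a finite sum `Σ_t el t̂ • i (n_t)`,
`t ∈ G ⧸ K`, `t̂ = Quotient.out t`).
-/

set_option autoImplicit false

open CategoryTheory
open scoped commutatorElement

namespace PFC

private theorem el_mul' {Q : Type} [Group Q] (a b : Q) : (el (a * b) : GR Q) = el a * el b := map_mul _ a b

private theorem el_one' {Q : Type} [Group Q] : (el (1 : Q) : GR Q) = 1 := map_one _

/-- the map `Σ_t el t̂ • f (n_t)` -/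
private noncomputable def Es {G : Type} [Group G] (K : Subgroup G) {N C : Type} [AddCommGroup N]
    [AddCommGroup C] [Module (GR G) C] (f : N →+ C) : ((G ⧸ K) →₀ N) →+ C :=
  Finsupp.liftAddHom fun t => (DistribSMul.toAddMonoidHom C (el (Quotient.out t) : GR G)).comp f

private theorem Es_single {G : Type} [Group G] (K : Subgroup G) {N C : Type} [AddCommGroup N]
    [AddCommGroup C] [Module (GR G) C] (f : N →+ C) (t : G ⧸ K) (n : N) :
    Es K f (Finsupp.single t n) = el (Quotient.out t) • f n := by
  unfold Es
  rw [Finsupp.liftAddHom_apply_single]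
  rfl

private theorem Es_bij {G : Type} [Group G] (K : Subgroup G) {N M : Type} [AddCommGroup N]
    [Module (GR K) N] [AddCommGroup M] [Module (GR G) M] (i : N →+ M) (hi : IsInd K i) :
    Function.Bijective (Es K i) := hi.2

theorem ind_ext {G : Type} [Group G] (K : Subgroup G) {N M C : Type} [AddCommGroup N]
    [Module (GR K) N] [AddCommGroup M] [Module (GR G) M] [AddCommGroup C] [Module (GR G) C]
    (i : N →+ M) (hi : IsInd K i) (f : N →+ C)
    (hf : ∀ (k : K) (x : N), f (el k • x) = el (k : G) • f x) :
    ∃ F : M →ₗ[GR G] C, ∀ x, F (i x) = f x := by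
  set e : ((G ⧸ K) →₀ N) ≃+ M := AddEquiv.ofBijective (Es K i) (Es_bij K i hi) with he
  set F : M →+ C := (Es K f).comp e.symm.toAddMonoidHom with hF
  have hFt : ∀ (t : G ⧸ K) (n : N), F (el (Quotient.out t) • i n) = el (Quotient.out t) • f n := by
    intro t n
    have h1 : e.symm (el (Quotient.out t) • i n) = Finsupp.single t n := by
      rw [AddEquiv.symm_apply_eq, he, AddEquiv.ofBijective_apply, Es_single]
    show Es K f (e.symm (el (Quotient.out t) • i n)) = _
    rw [h1, Es_single]
  have hFg : ∀ (g : G) (y : M), F (el g • y) = el g • F y := by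
    intro g y
    obtain ⟨φ, rfl⟩ := (Es_bij K i hi).2 y
    induction φ using Finsupp.induction_linear with
    | zero => rw [map_zero, smul_zero, map_zero, smul_zero]
    | add a b ha hb => rw [map_add, smul_add, map_add, ha, hb, map_add, smul_add]
    | single t n =>
      rw [Es_single, hFt]
      set u : G ⧸ K := ((g * Quotient.out t : G) : G ⧸ K) with hu
      have hk : (Quotient.out u)⁻¹ * (g * Quotient.out t) ∈ K := by
        rw [← QuotientGroup.eq, QuotientGroup.out_eq']
      have h1 : ∀ {D : Type} [AddCommGroup D] [Module (GR G) D] (d : D), el g • (el (Quotient.out t) : GR G) • d =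
          el (Quotient.out u) • el ((Quotient.out u)⁻¹ * (g * Quotient.out t)) • d := by
        intro D _ _ d
        rw [smul_smul, smul_smul, ← el_mul', ← el_mul', mul_inv_cancel_left]
      have h2 := hi.1 ⟨_, hk⟩ n
      have h3 := hf ⟨_, hk⟩ n
      rw [h1, h1, ← h2, ← h3, hFt]
  have hFa : ∀ (a : GR G) (y : M), F (a • y) = a • F y := by
    intro a y
    induction a using MonoidAlgebra.induction_on with
    | of g => exact hFg g y
    | add a b ha hb => rw [add_smul, map_add, ha, hb, add_smul]
    | smul r a ha => rw [smul_assoc, map_zsmul, ha, smul_assoc]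
  refine ⟨⟨⟨F, map_add F⟩, hFa⟩, fun x => ?_⟩
  show F (i x) = f x
  have h1 : ∀ {D : Type} [AddCommGroup D] [Module (GR G) D] (d : D),
      (el (Quotient.out ((1 : G) : G ⧸ K))⁻¹ : GR G) • (el (Quotient.out ((1 : G) : G ⧸ K)) : GR G) • d = d := by
    intro D _ _ d
    rw [smul_smul, ← el_mul', inv_mul_cancel, el_one', one_smul]
  rw [← h1 (i x), hFg, hFt, h1]

theorem ind_uniq {G : Type} [Group G] (K : Subgroup G) {N M C : Type} [AddCommGroup N]
    [Module (GR K) N] [AddCommGroup M] [Module (GR G) M] [AddCommGroup C] [Module (GR G) C]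
    (i : N →+ M) (hi : IsInd K i) (F F' : M →ₗ[GR G] C) (h : ∀ x, F (i x) = F' (i x)) :
    F = F' := by
  refine LinearMap.ext_on (s := Set.range i) ?_ ?_
  · rw [eq_top_iff]
    rintro y -
    obtain ⟨φ, rfl⟩ := (Es_bij K i hi).2 y
    induction φ using Finsupp.induction_linear with
    | zero => rw [map_zero]; exact zero_mem _
    | add a b ha hb => rw [map_add]; exact add_mem ha hb
    | single t n =>
      rw [Es_single]
      exact Submodule.smul_mem _ _ (Submodule.subset_span ⟨n, rfl⟩)
  · rintro _ ⟨x, rfl⟩
    exact h x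

theorem ind_span {G : Type} [Group G] (K : Subgroup G) {N M : Type} [AddCommGroup N]
    [Module (GR K) N] [AddCommGroup M] [Module (GR G) M] (i : N →+ M) (hi : IsInd K i) :
    Submodule.span (GR G) (Set.range i) = ⊤ := by
  rw [eq_top_iff]
  rintro y -
  obtain ⟨φ, rfl⟩ := (Es_bij K i hi).2 y
  induction φ using Finsupp.induction_linear with
  | zero => rw [map_zero]; exact zero_mem _
  | add a b ha hb => rw [map_add]; exact add_mem ha hb
  | single t n =>
    rw [Es_single]
    exact Submodule.smul_mem _ _ (Submodule.subset_span ⟨n, rfl⟩)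

end PFC
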