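import Pool.Agent.PFC.HDefs

/-!
# PFC-HIndR
The regular module and free modules are induced.
-/

set_option autoImplicit false

open CategoryTheory
open scoped commutatorElement

namespace PFC

private noncomputable def hirFwd {G : Type} [Group G] (K : Subgroup G) : ((G ⧸ K) →₀ GR K) →+ GR G :=
  Finsupp.liftAddHom fun t => (AddMonoidHom.mulLeft (el (Quotient.out t) : GR G)).comp (jK K).toAddMonoidHom

private theorem hirFwd_apply {G : Type} [Group G] (K : Subgroup G) (f : (G ⧸ K) →₀ GR K) :
    hirFwd K f = f.sum fun t x => (el (Quotient.out t) : GR G) • (jK K).toAddMonoidHom x := rfl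

private theorem hir_mem {G : Type} [Group G] (K : Subgroup G) (g : G) :
    (Quotient.out (g : G ⧸ K))⁻¹ * g ∈ K := by
  rw [← QuotientGroup.eq]
  exact Quotient.out_eq (g : G ⧸ K)

private noncomputable def hirInv {G : Type} [Group G] (K : Subgroup G) : GR G →+ ((G ⧸ K) →₀ GR K) :=
  (Finsupp.liftAddHom fun g : G => (Finsupp.singleAddHom (g : G ⧸ K)).comp
    (MonoidAlgebra.singleAddHom (⟨_, hir_mem K g⟩ : K))).comp
    (MonoidAlgebra.coeffAddEquiv (R := ℤ) (M := G)).toAddMonoidHom

private theorem hirInv_single {G : Type} [Group G] (K : Subgroup G) (g : G) (n : ℤ) :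
    hirInv K (MonoidAlgebra.single g n) =
      Finsupp.single (g : G ⧸ K) (MonoidAlgebra.single (⟨_, hir_mem K g⟩ : K) n) := by
  have h1 : hirInv K (MonoidAlgebra.single g n) =
      (Finsupp.liftAddHom fun g : G => (Finsupp.singleAddHom (g : G ⧸ K)).comp
        (MonoidAlgebra.singleAddHom (⟨_, hir_mem K g⟩ : K))) (Finsupp.single g n) := rfl
  rw [h1, Finsupp.liftAddHom_apply_single]
  rfl

private theorem hirFwd_single {G : Type} [Group G] (K : Subgroup G) (t : G ⧸ K) (k : K) (n : ℤ) :
    hirFwd K (Finsupp.single t (MonoidAlgebra.single k n)) =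
      MonoidAlgebra.single (Quotient.out t * (k : G)) n := by
  unfold hirFwd
  rw [Finsupp.liftAddHom_apply_single]
  show (MonoidAlgebra.single (Quotient.out t) 1 : GR G) *
    MonoidAlgebra.mapDomainRingHom ℤ K.subtype (MonoidAlgebra.single k n) = _
  rw [MonoidAlgebra.mapDomainRingHom_apply, MonoidAlgebra.mapDomain_single,
    MonoidAlgebra.single_mul_single, one_mul]
  rfl

private theorem hir_left {G : Type} [Group G] (K : Subgroup G) (f : (G ⧸ K) →₀ GR K) :
    hirInv K (hirFwd K f) = f := by
  have h1 : (hirInv K).comp (hirFwd K) = AddMonoidHom.id _ := by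
    refine Finsupp.addHom_ext fun t x => ?_
    show hirInv K (hirFwd K (Finsupp.single t x)) = Finsupp.single t x
    induction x using MonoidAlgebra.induction_linear with
    | zero => rw [Finsupp.single_zero, map_zero, map_zero]
    | add x y hx hy => rw [Finsupp.single_add, map_add, map_add, hx, hy]
    | single k n =>
      rw [hirFwd_single, hirInv_single]
      have e1 : ((Quotient.out t * (k : G) : G) : G ⧸ K) = t := by
        rw [QuotientGroup.mk_mul_of_mem _ k.2]
        exact Quotient.out_eq t
      have e2 : ∀ (t' : G ⧸ K) (h : t' = t) (hk : (Quotient.out t')⁻¹ * (Quotient.out t * (k : G)) ∈ K),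
          (Finsupp.single t' (MonoidAlgebra.single (⟨_, hk⟩ : K) n) : (G ⧸ K) →₀ GR K) =
            Finsupp.single t (MonoidAlgebra.single k n) := by
        rintro t' rfl hk
        congr 2
        apply Subtype.ext
        show (Quotient.out t')⁻¹ * (Quotient.out t' * (k : G)) = k
        rw [inv_mul_cancel_left]
      exact e2 _ e1 _
  exact DFunLike.congr_fun h1 f

private theorem hir_right {G : Type} [Group G] (K : Subgroup G) (x : GR G) :
    hirFwd K (hirInv K x) = x := by
  induction x using MonoidAlgebra.induction_linear with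
  | zero => rw [map_zero, map_zero]
  | add x y hx hy => rw [map_add, map_add, hx, hy]
  | single g n => rw [hirInv_single, hirFwd_single, mul_inv_cancel_left]

theorem ind_reg {G : Type} [Group G] (K : Subgroup G) :
    IsInd K (jK K).toAddMonoidHom := by
  refine ⟨fun k x => ?_, ?_⟩
  · show jK K (el k • x) = el (k : G) • jK K x
    rw [smul_eq_mul, smul_eq_mul, map_mul, jK_el]
  · exact Function.bijective_iff_has_inverse.2 ⟨hirInv K, hir_left K, hir_right K⟩

private noncomputable def hirFlip (A S N : Type) [AddCommGroup N] : (A →₀ (S →₀ N)) ≃+ (S →₀ (A →₀ N)) :=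
  Finsupp.curryAddEquiv.symm.trans
    ((Finsupp.domCongr (Equiv.prodComm A S)).trans Finsupp.curryAddEquiv)

private theorem hirFlip_single {A S N : Type} [AddCommGroup N] (a : A) (s : S) (x : N) :
    hirFlip A S N (Finsupp.single a (Finsupp.single s x)) = Finsupp.single s (Finsupp.single a x) := by
  show (Finsupp.domCongr (Equiv.prodComm A S) (Finsupp.single a (Finsupp.single s x)).uncurry).curry = _
  rw [Finsupp.uncurry_single]
  show (Finsupp.equivMapDomain (Equiv.prodComm A S) (Finsupp.single (a, s) x)).curry = _
  rw [Finsupp.equivMapDomain_single, Finsupp.curry_single]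
  rfl

private noncomputable def hirInd {G : Type} [Group G] (K : Subgroup G) {N M : Type} [AddCommGroup N]
    [AddCommGroup M] [Module (GR G) M] (i : N →+ M) : ((G ⧸ K) →₀ N) →+ M :=
  Finsupp.liftAddHom fun t => (DistribSMul.toAddMonoidHom M (el (Quotient.out t) : GR G)).comp i

theorem ind_finsupp {G : Type} [Group G] (K : Subgroup G) {N M : Type} [AddCommGroup N]
    [Module (GR K) N] [AddCommGroup M] [Module (GR G) M] (i : N →+ M) (hi : IsInd K i)
    (S : Type) : IsInd K (Finsupp.mapRange.addMonoidHom i : (S →₀ N) →+ (S →₀ M)) := by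
  obtain ⟨h1, h2⟩ := hi
  refine ⟨fun k x => ?_, ?_⟩
  · ext s
    show i ((el k • x) s) = (el (k : G) • (Finsupp.mapRange.addMonoidHom i x)) s
    rw [Finsupp.smul_apply, h1, Finsupp.smul_apply]
    rfl
  · let E : ((G ⧸ K) →₀ N) ≃+ M := AddEquiv.ofBijective (hirInd K i) h2
    have e1 : hirInd K (Finsupp.mapRange.addMonoidHom i : (S →₀ N) →+ (S →₀ M)) =
        ((hirFlip (G ⧸ K) S N).trans (Finsupp.mapRange.addEquiv E)).toAddMonoidHom := by
      refine Finsupp.addHom_ext fun t y => ?_
      induction y using Finsupp.induction_linear with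
      | zero => rw [Finsupp.single_zero, map_zero, map_zero]
      | add x y hx hy => rw [Finsupp.single_add, map_add, map_add, hx, hy]
      | single s x =>
        show hirInd K (Finsupp.mapRange.addMonoidHom i : (S →₀ N) →+ (S →₀ M))
            (Finsupp.single t (Finsupp.single s x)) =
          Finsupp.mapRange.addEquiv E (hirFlip (G ⧸ K) S N (Finsupp.single t (Finsupp.single s x)))
        rw [hirFlip_single]
        have e2 : E (Finsupp.single t x) = (el (Quotient.out t) : GR G) • i x := by
          show hirInd K i (Finsupp.single t x) = _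
          unfold hirInd
          rw [Finsupp.liftAddHom_apply_single]
          rfl
        have e3 : Finsupp.mapRange.addEquiv E (Finsupp.single s (Finsupp.single t x)) =
            Finsupp.single s (E (Finsupp.single t x)) := by
          show Finsupp.mapRange E E.map_zero (Finsupp.single s (Finsupp.single t x)) = _
          rw [Finsupp.mapRange_single]
        rw [e3, e2]
        unfold hirInd
        rw [Finsupp.liftAddHom_apply_single]
        show (el (Quotient.out t) : GR G) • Finsupp.mapRange i i.map_zero (Finsupp.single s x) = _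
        rw [Finsupp.mapRange_single, Finsupp.smul_single]
    have e4 : Function.Bijective (hirInd K (Finsupp.mapRange.addMonoidHom i : (S →₀ N) →+ (S →₀ M))) := by
      rw [e1]
      exact ((hirFlip (G ⧸ K) S N).trans (Finsupp.mapRange.addEquiv E)).bijective
    exact e4

end PFC
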