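import Pool.Agent.PFC.HDefs

/-!
# PFC-HIndS
Submodules, kernels and surjections of induced modules: the submodule generated by `i '' N'` is induced
from `N'`, the kernel of a map of induced modules is induced from the kernel, and a map of induced
modules is surjective if it is induced from a surjection.
-/

set_option autoImplicit false

open CategoryTheory
open scoped commutatorElement

namespace PFC

/-- the additive map of the definition of induced modules -/
private noncomputable def ph {G : Type} [Group G] (K : Subgroup G) {N M : Type} [AddCommGroup N]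
    [AddCommGroup M] [Module (GR G) M] (i : N →+ M) : ((G ⧸ K) →₀ N) →+ M :=
  Finsupp.liftAddHom fun t => (DistribSMul.toAddMonoidHom M (el (Quotient.out t) : GR G)).comp i

private theorem ph_apply {G : Type} [Group G] (K : Subgroup G) {N M : Type} [AddCommGroup N]
    [AddCommGroup M] [Module (GR G) M] (i : N →+ M) (f : (G ⧸ K) →₀ N) :
    ph K i f = f.sum fun t x => el (Quotient.out t) • i x := rfl

private theorem ph_single {G : Type} [Group G] (K : Subgroup G) {N M : Type} [AddCommGroup N]
    [AddCommGroup M] [Module (GR G) M] (i : N →+ M) (t : G ⧸ K) (x : N) :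
    ph K i (Finsupp.single t x) = el (Quotient.out t) • i x := by
  rw [ph, Finsupp.liftAddHom_apply_single]
  rfl

private theorem isInd_iff {G : Type} [Group G] (K : Subgroup G) {N M : Type} [AddCommGroup N]
    [Module (GR K) N] [AddCommGroup M] [Module (GR G) M] (i : N →+ M) :
    IsInd K i ↔ (∀ (k : K) (x : N), i (el k • x) = el (k : G) • i x) ∧
      Function.Bijective (ph K i) := Iff.rfl

/-- compatibility with additive maps -/
private theorem ph_map {G : Type} [Group G] (K : Subgroup G) {N M N₁ M₁ : Type} [AddCommGroup N]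
    [AddCommGroup M] [Module (GR G) M] [AddCommGroup N₁] [AddCommGroup M₁] [Module (GR G) M₁]
    (i : N →+ M) (i₁ : N₁ →+ M₁) (j : N₁ →+ N) (J : M₁ →+ M)
    (hJ : ∀ (g : G) (x : M₁), J (el g • x) = el g • J x) (h : ∀ x, J (i₁ x) = i (j x))
    (f : (G ⧸ K) →₀ N₁) : J (ph K i₁ f) = ph K i (Finsupp.mapRange.addMonoidHom j f) := by
  induction f using Finsupp.induction_linear with
  | zero => simp
  | add f g hf hg => rw [map_add, map_add, hf, hg, map_add, map_add]
  | single t x =>
    rw [ph_single, Finsupp.mapRange.addMonoidHom_apply, Finsupp.mapRange_single, ph_single, hJ, h]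

/-- lifting of functions with values in a subgroup -/
private theorem lift_sub {T A B : Type} [AddCommGroup A] [AddCommGroup B] (j : B →+ A)
    (f : T →₀ A) (h : ∀ t, ∃ b, j b = f t) :
    ∃ g : T →₀ B, Finsupp.mapRange.addMonoidHom j g = f := by
  classical
  choose b hb using h
  refine ⟨Finsupp.onFinset f.support (fun t => if f t = 0 then 0 else b t) ?_, ?_⟩
  · intro t ht
    rw [Finsupp.mem_support_iff]
    intro h0
    exact ht (if_pos h0)
  · ext t
    rw [Finsupp.mapRange.addMonoidHom_apply, Finsupp.mapRange_apply, Finsupp.onFinset_apply]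
    by_cases h0 : f t = 0
    · rw [if_pos h0, map_zero, h0]
    · rw [if_neg h0, hb]

/-- the submodule of all sums of elements coming from `N'` -/
private noncomputable def subM {G : Type} [Group G] (K : Subgroup G) {N M : Type} [AddCommGroup N]
    [Module (GR K) N] [AddCommGroup M] [Module (GR G) M] (i : N →+ M)
    (hi : ∀ (k : K) (x : N), i (el k • x) = el (k : G) • i x) (N' : Submodule (GR K) N) :
    Submodule (GR G) M where
  carrier := {m | ∃ f : (G ⧸ K) →₀ N',
    ph K i (Finsupp.mapRange.addMonoidHom N'.subtype.toAddMonoidHom f) = m}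
  add_mem' := by
    rintro _ _ ⟨f, rfl⟩ ⟨g, rfl⟩
    exact ⟨f + g, by rw [map_add, map_add]⟩
  zero_mem' := ⟨0, by rw [map_zero, map_zero]⟩
  smul_mem' := by
    intro a
    induction a using MonoidAlgebra.induction_on with
    | of g =>
      rintro _ ⟨f, rfl⟩
      change ∃ f' : (G ⧸ K) →₀ N', _ = el g • _
      induction f using Finsupp.induction_linear with
      | zero => exact ⟨0, by simp⟩
      | add f f' hf hf' =>
        obtain ⟨u, hu⟩ := hf
        obtain ⟨v, hv⟩ := hf'
        refine ⟨u + v, ?_⟩
        rw [map_add, map_add, hu, hv, map_add, map_add, smul_add]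
      | single t x =>
        obtain ⟨k, hk⟩ := QuotientGroup.mk_out_eq_mul K (g * Quotient.out t)
        refine ⟨Finsupp.single (QuotientGroup.mk (g * Quotient.out t)) (el k⁻¹ • x), ?_⟩
        rw [Finsupp.mapRange.addMonoidHom_apply, Finsupp.mapRange_single, ph_single,
          Finsupp.mapRange.addMonoidHom_apply, Finsupp.mapRange_single, ph_single]
        have e1 : (N'.subtype.toAddMonoidHom (el k⁻¹ • x) : N) = el k⁻¹ • (x : N) := rfl
        have e2 : (N'.subtype.toAddMonoidHom x : N) = (x : N) := rfl
        rw [e1, e2, hi, smul_smul, smul_smul, ← map_mul, ← map_mul, hk]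
        congr 2
        rw [Subgroup.coe_inv]
        group
    | add a b ha hb =>
      intro m hm
      obtain ⟨u, hu⟩ := ha hm
      obtain ⟨v, hv⟩ := hb hm
      refine ⟨u + v, ?_⟩
      rw [map_add, map_add, hu, hv, add_smul]
    | smul r a ha =>
      intro m hm
      obtain ⟨u, hu⟩ := ha hm
      have h1 := map_zsmul ((ph K i).comp
        (Finsupp.mapRange.addMonoidHom N'.subtype.toAddMonoidHom)) r u
      refine ⟨_, h1.trans ?_⟩
      rw [AddMonoidHom.comp_apply, hu, smul_assoc]

theorem ind_sub {G : Type} [Group G] (K : Subgroup G) {N M : Type} [AddCommGroup N]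
    [Module (GR K) N] [AddCommGroup M] [Module (GR G) M] (i : N →+ M) (hi : IsInd K i)
    (N' : Submodule (GR K) N) :
    ∃ i' : N' →+ (Submodule.span (GR G) (i '' (N' : Set N)) : Submodule (GR G) M),
      IsInd K i' ∧ ∀ x, (i' x : M) = i x := by
  let i' : N' →+ (Submodule.span (GR G) (i '' (N' : Set N)) : Submodule (GR G) M) :=
    { toFun := fun x => ⟨i x, Submodule.subset_span ⟨x, x.2, rfl⟩⟩
      map_zero' := Subtype.ext (by
        change i ((0 : N') : N) = 0
        rw [Submodule.coe_zero, map_zero])
      map_add' := fun x y => Subtype.ext (by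
        change i ((x + y : N') : N) = i x + i y
        rw [Submodule.coe_add, map_add]) }
  have hsub : ∀ f, ((ph K i' f : Submodule.span (GR G) (i '' (N' : Set N))) : M) =
      ph K i (Finsupp.mapRange.addMonoidHom N'.subtype.toAddMonoidHom f) := fun f =>
    ph_map K i i' N'.subtype.toAddMonoidHom
      (Submodule.span (GR G) (i '' (N' : Set N))).subtype.toAddMonoidHom
      (fun _ _ => rfl) (fun _ => rfl) f
  refine ⟨i', (isInd_iff K i').2 ⟨?_, ?_, ?_⟩, fun _ => rfl⟩
  · intro k x
    exact Subtype.ext (hi.1 k x)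
  · intro f g hfg
    have h1 := congrArg (Subtype.val) hfg
    rw [hsub, hsub] at h1
    have h2 := hi.2.1 h1
    have hinj : Function.Injective (Finsupp.mapRange (α := G ⧸ K)
        (N'.subtype.toAddMonoidHom) (map_zero _)) :=
      Finsupp.mapRange_injective _ _ Subtype.val_injective
    exact hinj h2
  · rintro ⟨m, hm⟩
    have h1 : Submodule.span (GR G) (i '' (N' : Set N)) ≤ subM K i hi.1 N' := by
      rw [Submodule.span_le]
      rintro _ ⟨x, hx, rfl⟩
      obtain ⟨k, hk⟩ := QuotientGroup.mk_out_eq_mul K 1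
      refine ⟨Finsupp.single (QuotientGroup.mk 1) (el k⁻¹ • ⟨x, hx⟩), ?_⟩
      rw [Finsupp.mapRange.addMonoidHom_apply, Finsupp.mapRange_single, ph_single]
      have e1 : (N'.subtype.toAddMonoidHom (el k⁻¹ • ⟨x, hx⟩) : N) = el k⁻¹ • x := rfl
      rw [e1, hi.1, smul_smul, ← map_mul, hk, one_mul, Subgroup.coe_inv, mul_inv_cancel, map_one,
        one_smul]
    obtain ⟨f, hf⟩ := h1 hm
    exact ⟨f, Subtype.ext ((hsub f).trans hf)⟩

theorem ind_ker {G : Type} [Group G] (K : Subgroup G) {P P' N M : Type} [AddCommGroup P]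
    [Module (GR K) P] [AddCommGroup P'] [Module (GR G) P'] [AddCommGroup N]
    [Module (GR K) N] [AddCommGroup M] [Module (GR G) M] (i : P →+ P') (hi : IsInd K i)
    (k : N →+ M) (hk : IsInd K k) (f : P →ₗ[GR K] N) (F : P' →ₗ[GR G] M)
    (hF : ∀ x, F (i x) = k (f x)) :
    ∃ i' : LinearMap.ker f →+ LinearMap.ker F, IsInd K i' := by
  let i' : LinearMap.ker f →+ LinearMap.ker F :=
    { toFun := fun x => ⟨i x, by
        rw [LinearMap.mem_ker, hF, LinearMap.mem_ker.1 x.2, map_zero]⟩
      map_zero' := Subtype.ext (by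
        change i ((0 : LinearMap.ker f) : P) = 0
        rw [Submodule.coe_zero, map_zero])
      map_add' := fun x y => Subtype.ext (by
        change i ((x + y : LinearMap.ker f) : P) = i x + i y
        rw [Submodule.coe_add, map_add]) }
  have hsub : ∀ g, ((ph K i' g : LinearMap.ker F) : P') =
      ph K i (Finsupp.mapRange.addMonoidHom (LinearMap.ker f).subtype.toAddMonoidHom g) := fun g =>
    ph_map K i i' (LinearMap.ker f).subtype.toAddMonoidHom
      (LinearMap.ker F).subtype.toAddMonoidHom (fun _ _ => rfl) (fun _ => rfl) g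
  refine ⟨i', (isInd_iff K i').2 ⟨?_, ?_, ?_⟩⟩
  · intro c x
    exact Subtype.ext (hi.1 c x)
  · intro g g' hgg
    have h1 := congrArg (Subtype.val) hgg
    rw [hsub, hsub] at h1
    have h2 := hi.2.1 h1
    have hinj : Function.Injective (Finsupp.mapRange (α := G ⧸ K)
        ((LinearMap.ker f).subtype.toAddMonoidHom) (map_zero _)) :=
      Finsupp.mapRange_injective _ _ Subtype.val_injective
    exact hinj h2
  · rintro ⟨m, hm⟩
    obtain ⟨g, hg⟩ := hi.2.2 m
    have hg' : ph K i g = m := hg
    have h1 : F (ph K i g) = ph K k (Finsupp.mapRange.addMonoidHom f.toAddMonoidHom g) :=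
      ph_map K k i f.toAddMonoidHom F.toAddMonoidHom (fun c x => F.map_smul (el c) x) hF g
    rw [hg', LinearMap.mem_ker.1 hm] at h1
    have h2 : Finsupp.mapRange.addMonoidHom f.toAddMonoidHom g = 0 := by
      apply hk.2.1
      change ph K k _ = ph K k 0
      rw [← h1, map_zero]
    obtain ⟨g', hg''⟩ := lift_sub (LinearMap.ker f).subtype.toAddMonoidHom g (by
      intro t
      have h3 := DFunLike.congr_fun h2 t
      rw [Finsupp.mapRange.addMonoidHom_apply, Finsupp.mapRange_apply, Finsupp.coe_zero,
        Pi.zero_apply] at h3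
      exact ⟨⟨g t, LinearMap.mem_ker.2 h3⟩, rfl⟩)
    refine ⟨g', Subtype.ext ?_⟩
    refine (hsub g').trans ?_
    rw [hg'', hg']

theorem ind_surj {G : Type} [Group G] (K : Subgroup G) {P P' N M : Type} [AddCommGroup P]
    [Module (GR K) P] [AddCommGroup P'] [Module (GR G) P'] [AddCommGroup N]
    [Module (GR K) N] [AddCommGroup M] [Module (GR G) M] (i : P →+ P')
    (k : N →+ M) (hk : IsInd K k) (f : P →ₗ[GR K] N) (F : P' →ₗ[GR G] M)
    (hF : ∀ x, F (i x) = k (f x)) (hf : Function.Surjective f) : Function.Surjective F := by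
  intro m
  obtain ⟨g, hg⟩ := hk.2.2 m
  obtain ⟨g', hg'⟩ := lift_sub f.toAddMonoidHom g (fun t => hf (g t))
  refine ⟨ph K i g', ?_⟩
  have h1 : F (ph K i g') = ph K k (Finsupp.mapRange.addMonoidHom f.toAddMonoidHom g') :=
    ph_map K k i f.toAddMonoidHom F.toAddMonoidHom (fun c x => F.map_smul (el c) x) hF g'
  rw [h1, hg']
  exact hg

end PFC
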