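import Pool.Agent.PFC.HShort
import Pool.Agent.PFC.HIndE
import Pool.Agent.PFC.HIndR
import Pool.Agent.PFC.HIndS

/-!
# PFC-HIndP: projective dimension of induced modules
-/

set_option autoImplicit false

open CategoryTheory
open scoped commutatorElement

namespace PFC

private theorem pd_free {G : Type} [Group G] (S : Type) (m : ℕ) (hm : 1 ≤ m) :
    PdLT G (S →₀ GR G) m :=
  pd_mono 1 m hm (pd_proj inferInstance)

private theorem lc_surj {G : Type} [Group G] (N : Type) [AddCommGroup N] [Module (GR G) N] :
    Function.Surjective (Finsupp.linearCombination (GR G) (id : N → N)) := by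
  intro x
  refine ⟨Finsupp.single x 1, ?_⟩
  rw [Finsupp.linearCombination_single, one_smul, id]

theorem ind_pd {G : Type} [Group G] (K : Subgroup G) (m : ℕ) :
    ∀ (N M : Type) [AddCommGroup N] [Module (GR K) N] [AddCommGroup M] [Module (GR G) M]
      (i : N →+ M), IsInd K i → PdLT K N m → PdLT G M m := by
  induction m with
  | zero =>
    intro N M _ _ _ _ i hi h
    rw [pd_zero_iff] at h ⊢
    refine ⟨fun x y => ?_⟩
    obtain ⟨f, rfl⟩ := hi.2.2 x
    obtain ⟨g, rfl⟩ := hi.2.2 y
    congr 1
    ext t
    exact Subsingleton.elim _ _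
  | succ m ih =>
    intro N M _ _ _ _ i hi h
    -- the free modules
    have hρ := ind_finsupp K (jK K).toAddMonoidHom (ind_reg K) N
    set ρ : (N →₀ GR K) →+ (N →₀ GR G) :=
      Finsupp.mapRange.addMonoidHom (jK K).toAddMonoidHom with hρdef
    let f : (N →₀ GR K) →ₗ[GR K] N := Finsupp.linearCombination (GR K) (id : N → N)
    have hf : Function.Surjective f := lc_surj N
    obtain ⟨F, hF⟩ := ind_ext K ρ hρ (i.comp f.toAddMonoidHom) (by
      intro k x
      show i (f (el k • x)) = el (k : G) • i (f x)
      rw [map_smul, hi.1])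
    have hF' : ∀ x, F (ρ x) = i (f x) := hF
    cases m with
    | zero =>
      have hp := proj_of_pd h
      obtain ⟨s, hs⟩ := Module.projective_lifting_property f (LinearMap.id : N →ₗ[GR K] N) hf
      obtain ⟨S, hS⟩ := ind_ext K i hi (ρ.comp s.toAddMonoidHom) (by
        intro k x
        show ρ (s (el k • x)) = el (k : G) • ρ (s x)
        rw [map_smul, hρ.1])
      have hS' : ∀ x, S (i x) = ρ (s x) := hS
      have hFS : F.comp S = LinearMap.id := by
        apply ind_uniq K i hi
        intro x
        rw [LinearMap.comp_apply, hS', hF', LinearMap.id_apply]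
        congr 1
        exact LinearMap.congr_fun hs x
      exact pd_proj (Module.Projective.of_split S F hFS)
    | succ m =>
      have hFs : Function.Surjective F := ind_surj K ρ i hi f F hF' hf
      obtain ⟨i', hi'⟩ := ind_ker K ρ hρ i hi f F hF'
      have hk : PdLT K (LinearMap.ker f) (m + 1) :=
        pd_one (LinearMap.ker f).subtype f (Submodule.injective_subtype _) hf
          (LinearMap.exact_subtype_ker_map f) (m + 1) (pd_free N (m + 1) (by omega)) h
      have hK := ih _ _ i' hi' hk
      exact pd_three (LinearMap.ker F).subtype F (Submodule.injective_subtype _) hFs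
        (LinearMap.exact_subtype_ker_map F) (m + 1) hK (pd_free N (m + 2) (by omega))

end PFC
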