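import Pool.Agent.PFC.HDefs

/-!
# PFC-HLK: the kernel of the map of group rings, spans
-/

set_option autoImplicit false

open CategoryTheory
open scoped commutatorElement

namespace PFC

theorem prj_surjective {G Q : Type} [Group G] [Group Q] (θ : G →* Q)
    (hθ : Function.Surjective θ) : Function.Surjective (prj θ) := by
  have h : ∀ x : GR Q, ∃ a : GR G, prj θ a = toPull θ (GR Q) x := by
    intro x
    induction x using MonoidAlgebra.induction_on with
    | of q =>
      obtain ⟨g, rfl⟩ := hθ q
      exact ⟨el g, prj_el θ g⟩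
    | add x y hx hy =>
      obtain ⟨a, ha⟩ := hx
      obtain ⟨b, hb⟩ := hy
      exact ⟨a + b, by rw [map_add, ha, hb, map_add]⟩
    | smul r x hx =>
      obtain ⟨a, ha⟩ := hx
      exact ⟨r • a, by rw [map_zsmul, ha, map_zsmul]⟩
  intro x
  exact h x

private theorem hlk_mem {G : Type} [Group G] {K : Subgroup G} {k : G} (hk : k ∈ K) :
    (el k - 1 : GR G) ∈ LK K :=
  Submodule.subset_span ⟨k, hk, rfl⟩

private theorem hlk_sec {G Q : Type} [Group G] [Group Q] (θ : G →* Q) (s : Q → G)
    (hs : ∀ q, θ (s q) = q) (a : GR G) :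
    a - MonoidAlgebra.mapDomain s (MonoidAlgebra.mapDomain θ a) ∈ LK θ.ker := by
  induction a using MonoidAlgebra.induction_linear with
  | zero =>
    rw [MonoidAlgebra.mapDomain_zero, MonoidAlgebra.mapDomain_zero, sub_zero]
    exact Submodule.zero_mem _
  | add x y hx hy =>
    rw [MonoidAlgebra.mapDomain_add, MonoidAlgebra.mapDomain_add, add_sub_add_comm]
    exact Submodule.add_mem _ hx hy
  | single g n =>
    rw [MonoidAlgebra.mapDomain_single, MonoidAlgebra.mapDomain_single]
    have hk : (s (θ g))⁻¹ * g ∈ θ.ker := by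
      rw [MonoidHom.mem_ker, map_mul, map_inv, hs, inv_mul_cancel]
    have e : (MonoidAlgebra.single g n - MonoidAlgebra.single (s (θ g)) n : GR G) =
        (MonoidAlgebra.single (s (θ g)) n : GR G) • (el ((s (θ g))⁻¹ * g) - 1 : GR G) := by
      rw [smul_eq_mul, mul_sub, mul_one]
      congr 1
      show _ = (MonoidAlgebra.single (s (θ g)) n : GR G) *
        MonoidAlgebra.single ((s (θ g))⁻¹ * g) 1
      rw [MonoidAlgebra.single_mul_single, mul_inv_cancel_left, mul_one]
    rw [e]
    exact Submodule.smul_mem _ _ (hlk_mem hk)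

theorem prj_ker {G Q : Type} [Group G] [Group Q] (θ : G →* Q) (hθ : Function.Surjective θ) :
    LinearMap.ker (prj θ) = LK θ.ker := by
  apply le_antisymm
  · intro a ha
    rw [LinearMap.mem_ker] at ha
    have h1 : MonoidAlgebra.mapDomain θ a = 0 := ha
    have h2 := hlk_sec θ (Function.surjInv hθ) (Function.surjInv_eq hθ) a
    rw [h1, MonoidAlgebra.mapDomain_zero, sub_zero] at h2
    exact h2
  · refine Submodule.span_le.2 ?_
    rintro x ⟨k, hk, rfl⟩
    rw [MonoidHom.mem_ker] at hk
    show prj θ (el k - 1) = 0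
    have h1 : (1 : GR G) = el 1 := (map_one _).symm
    rw [map_sub, prj_el, h1, prj_el, hk, map_one, sub_self]

theorem LK_le {G : Type} [Group G] (K : Subgroup G) : LK K ≤ augId G := by
  refine Submodule.span_le.2 ?_
  rintro x ⟨k, hk, rfl⟩
  show eps G (el k - 1) = 0
  rw [map_sub, eps_el, map_one, sub_self]

private theorem hlk_jK {G : Type} [Group G] (K : Subgroup G) (x : GR K) :
    jK K x - (eps K x) • (1 : GR G) ∈ LK K := by
  induction x using MonoidAlgebra.induction_on with
  | of k =>
    have h1 : jK K (MonoidAlgebra.of ℤ K k) = el (k : G) := jK_el K k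
    have h2 : eps K (MonoidAlgebra.of ℤ K k) = 1 := eps_el k
    rw [h1, h2, one_smul]
    exact hlk_mem k.2
  | add x y hx hy =>
    rw [map_add, map_add, add_smul, add_sub_add_comm]
    exact Submodule.add_mem _ hx hy
  | smul r x hx =>
    rw [map_zsmul, map_zsmul, smul_assoc, ← smul_sub]
    exact zsmul_mem hx r

theorem span_jK {G : Type} [Group G] (K : Subgroup G) :
    Submodule.span (GR G) ((jK K) '' (augId K : Set (GR K))) = LK K := by
  apply le_antisymm
  · refine Submodule.span_le.2 ?_
    rintro y ⟨x, hx, rfl⟩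
    have h1 := hlk_jK K x
    have h2 : eps K x = 0 := hx
    rw [h2, zero_smul, sub_zero] at h1
    exact h1
  · refine Submodule.span_le.2 ?_
    rintro x ⟨k, hk, rfl⟩
    refine Submodule.subset_span ⟨el ⟨k, hk⟩ - 1, ?_, ?_⟩
    · show eps K (el ⟨k, hk⟩ - 1) = 0
      rw [map_sub, eps_el, map_one, sub_self]
    · rw [map_sub, jK_el, map_one]

end PFC
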