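import Pool.Agent.PFC.HSeq
import Pool.Agent.PFC.HTr
import Pool.Agent.PFC.HIndP
import Pool.Agent.PFC.HLK
import Pool.Agent.PFC.HIndR
import Pool.Agent.PFC.HIndS

/-!
# PFC-HGen
The bound for the cohomological dimension: `LK K` is induced from the augmentation ideal of `K`, and the exact sequence
of `HSeq` gives the bound for `augId G`.
-/

set_option autoImplicit false

open CategoryTheory
open scoped commutatorElement

namespace PFC

theorem pd_LK {G : Type} [Group G] (K : Subgroup G) (m : ℕ) (hm : 1 ≤ m)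
    (h : PdLT K (Tr K) (m + 1)) : PdLT G (LK K) m := by
  have h1 : PdLT K (augId K) m := pd_of_tr K m hm h
  obtain ⟨i', hi', -⟩ := ind_sub K (jK K).toAddMonoidHom (ind_reg K) (augId K)
  have h2 := ind_pd K m _ _ i' hi' h1
  exact pd_equiv (LinearEquiv.ofEq _ _ (span_jK K)) m h2

theorem cd_gen (G Q : Type) [Group G] [Group Q] (θ : G →* Q) (hθ : Function.Surjective θ)
    (ι : Type) [Fintype ι] (x : ι → G) (D : G → ι → GR Q) (hD : IsDer θ D)
    (hx : ∀ g, ∑ i, D g i * (el (θ (x i)) - 1) = el (θ g) - 1) (m : ℕ) (hm : 1 ≤ m)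
    (h : PdLT θ.ker (Tr θ.ker) (m + 1)) : PdLT G (Tr G) (m + 2) :=
  pd_tr G (m + 1) (pd_augId G Q θ hθ ι x D hD hx m (pd_LK θ.ker m hm h))

end PFC
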