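import Pool.Agent.PFC.KDer

/-!
# PFC-HFree
The augmentation ideal of a free group is free: the elements `el (x z) - 1` (`x z` the free generators) generate it, and
the additive extension of the derivation `D` with `D (x z) = single z 1` shows that they are independent.
-/

set_option autoImplicit false

open CategoryTheory
open scoped commutatorElement

namespace PFC

section core

variable {K : Type} [Group K] {M : Type} [AddCommGroup M] [Module (GR K) M]

private theorem el_mul (a b : K) : (el (a * b) : GR K) = el a * el b := map_mul (MonoidAlgebra.of ℤ K) a b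

private theorem el_one : (el (1 : K) : GR K) = 1 := map_one (MonoidAlgebra.of ℤ K)

/-- additive extension of `D` to the group ring -/
private noncomputable def extD (D : K → M) : GR K →+ M :=
  (Finsupp.liftAddHom (fun g => zmultiplesHom M (D g))).comp
    (MonoidAlgebra.coeffAddEquiv (R := ℤ) (M := K)).toAddMonoidHom

omit [Module (GR K) M] in
private theorem extD_single (D : K → M) (g : K) (n : ℤ) :
    extD D (MonoidAlgebra.single g n) = n • D g := by
  have h1 : extD D (MonoidAlgebra.single g n) =
      (Finsupp.liftAddHom (fun g => zmultiplesHom M (D g))) (Finsupp.single g n) := rfl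
  rw [h1, Finsupp.liftAddHom_apply_single, zmultiplesHom_apply]

omit [Module (GR K) M] in
private theorem extD_el (D : K → M) (g : K) : extD D (el g) = D g := by
  have h : (el g : GR K) = MonoidAlgebra.single g 1 := rfl
  rw [h, extD_single, one_smul]

private theorem eps_single (g : K) (n : ℤ) : eps K (MonoidAlgebra.single g n) = n := by
  show MonoidAlgebra.lift ℤ ℤ K (1 : K →* ℤ) (MonoidAlgebra.single g n) = n
  rw [MonoidAlgebra.lift_single, MonoidHom.one_apply, smul_eq_mul, mul_one]

private theorem single_eq (g : K) (n : ℤ) : (MonoidAlgebra.single g n : GR K) = n • el g := by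
  have h : (el g : GR K) = MonoidAlgebra.single g 1 := rfl
  rw [h, MonoidAlgebra.smul_single, smul_eq_mul, mul_one]

private theorem extD_mul {D : K → M} (hD : IsDer (MonoidHom.id K) D) (a b : GR K) :
    extD D (a * b) = a • extD D b + (eps K b) • extD D a := by
  induction a using MonoidAlgebra.induction_linear with
  | zero => rw [zero_mul, map_zero, zero_smul, smul_zero, add_zero]
  | add x y hx hy =>
    rw [add_mul, map_add, hx, hy, map_add, add_smul, smul_add]
    abel
  | single g m =>
    induction b using MonoidAlgebra.induction_linear with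
    | zero => rw [mul_zero, map_zero, map_zero, smul_zero, zero_smul, add_zero]
    | add x y hx hy =>
      rw [mul_add, map_add, hx, hy, map_add, map_add, add_smul, smul_add]
      abel
    | single h n =>
      rw [MonoidAlgebra.single_mul_single, extD_single, extD_single, extD_single, eps_single, hD g h,
        MonoidHom.id_apply, single_eq, smul_assoc, smul_comm (el g) n (D h), smul_add, smul_smul m n, smul_smul n m,
        mul_comm n m, add_comm]

omit [Module (GR K) M] in
private theorem extD_sub (D : K → M) (h1 : D 1 = 0) (g : K) : extD D (el g - 1) = D g := by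
  rw [map_sub, extD_el, ← el_one, extD_el, h1, sub_zero]

private theorem free_core {Z : Type} (x : Z → K) (hx : Subgroup.closure (Set.range x) = ⊤)
    (D : K → (Z →₀ GR K)) (hD : IsDer (MonoidHom.id K) D) (hDx : ∀ z, D (x z) = Finsupp.single z 1) :
    Module.Free (GR K) (augId K) := by
  have hmem : ∀ g : K, el g - 1 ∈ augId K := by
    intro g
    rw [mem_augId, map_sub, eps_el, map_one, sub_self]
  set T : (Z →₀ GR K) →ₗ[GR K] augId K :=
    Finsupp.linearCombination (GR K) (fun z => (⟨el (x z) - 1, hmem (x z)⟩ : augId K)) with hT
  have hsingle : ∀ z a, ((T (Finsupp.single z a) : augId K) : GR K) = a * (el (x z) - 1) := by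
    intro z a
    rw [hT, Finsupp.linearCombination_single]
    rfl
  have key : ∀ c : Z →₀ GR K, extD D ((T c : augId K) : GR K) = c := by
    intro c
    induction c using Finsupp.induction_linear with
    | zero => rw [map_zero, Submodule.coe_zero, map_zero]
    | add f g hf hg => rw [map_add, Submodule.coe_add, map_add, hf, hg]
    | single z a =>
      rw [hsingle, extD_mul hD, extD_sub D (der_one _ hD), hDx, map_sub, eps_el, map_one, sub_self, zero_smul,
        add_zero, Finsupp.smul_single, smul_eq_mul, mul_one]
  have hinj : Function.Injective T := by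
    intro c c' h
    rw [← key c, ← key c', h]
  set J : Submodule (GR K) (GR K) := LinearMap.range ((augId K).subtype.comp T) with hJ
  have hgen : ∀ g : K, el g - 1 ∈ J := by
    intro g
    have hg : g ∈ Subgroup.closure (Set.range x) := by
      rw [hx]
      exact Subgroup.mem_top g
    refine Subgroup.closure_induction (p := fun g _ => el g - 1 ∈ J) ?_ ?_ ?_ ?_ hg
    · rintro _ ⟨z, rfl⟩
      refine ⟨Finsupp.single z 1, ?_⟩
      show ((T (Finsupp.single z 1) : augId K) : GR K) = _
      rw [hsingle, one_mul]
    · rw [el_one, sub_self]
      exact Submodule.zero_mem _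
    · intro a b _ _ ha hb
      have h : (el (a * b) : GR K) - 1 = el a • (el b - 1) + (el a - 1) := by
        rw [el_mul, smul_eq_mul, mul_sub, mul_one]
        abel
      rw [h]
      exact J.add_mem (J.smul_mem _ hb) ha
    · intro a _ ha
      have h : (el a⁻¹ : GR K) - 1 = -(el a⁻¹ • (el a - 1)) := by
        rw [smul_eq_mul, mul_sub, mul_one, ← el_mul, inv_mul_cancel, el_one]
        abel
      rw [h]
      exact J.neg_mem (J.smul_mem _ ha)
  have hall : ∀ a : GR K, a - (eps K a) • (1 : GR K) ∈ J := by
    intro a
    induction a using MonoidAlgebra.induction_linear with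
    | zero =>
      rw [map_zero, zero_smul, sub_zero]
      exact Submodule.zero_mem _
    | add u v hu hv =>
      have h : u + v - (eps K (u + v)) • (1 : GR K) =
          (u - (eps K u) • (1 : GR K)) + (v - (eps K v) • (1 : GR K)) := by
        rw [map_add, add_smul]
        abel
      rw [h]
      exact J.add_mem hu hv
    | single g m =>
      rw [eps_single, single_eq, ← smul_sub]
      exact zsmul_mem (hgen g) m
  have hsurj : Function.Surjective T := by
    rintro ⟨y, hy⟩
    have h := hall y
    rw [(mem_augId y).1 hy, zero_smul, sub_zero] at h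
    obtain ⟨c, hc⟩ := h
    exact ⟨c, Subtype.ext hc⟩
  exact Module.Free.of_equiv (LinearEquiv.ofBijective T ⟨hinj, hsurj⟩)

end core

theorem augId_free (K : Type) [Group K] (hK : IsFreeGroup K) : Module.Free (GR K) (augId K) := by
  set Z := IsFreeGroup.Generators K with hZ
  set e : K ≃* FreeGroup Z := IsFreeGroup.toFreeGroup K with he
  obtain ⟨D, hD, hDz⟩ := exists_der (Z := Z) (Q := K) e.symm.toMonoidHom
    (M := Z →₀ GR K) (fun z => Finsupp.single z 1)
  refine free_core (fun z => e.symm (FreeGroup.of z)) ?_ (fun g => D (e g)) ?_ ?_
  · have h1 : Set.range (fun z : Z => e.symm (FreeGroup.of z)) =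
        e.symm.toMonoidHom '' (Set.range (FreeGroup.of : Z → FreeGroup Z)) := by
      rw [← Set.range_comp]
      rfl
    rw [h1, ← MonoidHom.map_closure, FreeGroup.closure_range_of, ← MonoidHom.range_eq_map,
      MonoidHom.range_eq_top]
    exact e.symm.surjective
  · intro g h
    show D (e (g * h)) = D (e g) + el (MonoidHom.id K g) • D (e h)
    rw [map_mul, hD]
    congr 2
    show el (e.symm (e g)) = el g
    rw [MulEquiv.symm_apply_apply]
  · intro z
    show D (e (e.symm (FreeGroup.of z))) = _
    rw [MulEquiv.apply_symm_apply, hDz]

end PFC
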