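import Pool.Agent.PFC.HShort
import Pool.Agent.PFC.HGen

/-!
# PFC-HZero: a group of cohomological dimension zero is trivial
-/

set_option autoImplicit false

open CategoryTheory

namespace PFC

private theorem hz_single {Q : Type} [Group Q] (q : Q) (n : ℤ) :
    (MonoidAlgebra.single q n : GR Q) = n • el q := by
  show _ = n • MonoidAlgebra.single q (1 : ℤ)
  rw [MonoidAlgebra.smul_single, smul_eq_mul, mul_one]

private theorem hz_smul (G : Type) [Group G] (a : GR G) (z : Tr G) : a • z = (eps G a) • z := by
  induction a using MonoidAlgebra.induction_linear with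
  | zero => rw [map_zero, zero_smul, zero_smul]
  | add a b ha hb => rw [map_add, add_smul, add_smul, ha, hb]
  | single g n =>
    rw [hz_single, map_zsmul, eps_el, smul_assoc]
    have h2 : (el g : GR G) • z = z := by
      apply (Representation.trivial ℤ G ℤ).asModuleEquiv.injective
      rw [Representation.asModuleEquiv_map_smul]
      show (Representation.trivial ℤ G ℤ).asAlgebraHom (MonoidAlgebra.of ℤ G g) _ = _
      rw [Representation.asAlgebraHom_of]
      rfl
    rw [h2, smul_eq_mul, mul_one]

private theorem hz_coeff {K : Type} [Group K] (k g : K) (a : GR K) :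
    (el k * a).coeff (k * g) = a.coeff g := by
  classical
  induction a using MonoidAlgebra.induction_linear with
  | zero => rw [mul_zero]; rfl
  | add a b ha hb =>
    rw [mul_add, MonoidAlgebra.coeff_add, MonoidAlgebra.coeff_add, Finsupp.add_apply,
      Finsupp.add_apply, ha, hb]
  | single h n =>
    have e : (el k * MonoidAlgebra.single h n : GR K) = MonoidAlgebra.single (k * h) n := by
      show MonoidAlgebra.single k (1 : ℤ) * MonoidAlgebra.single h n = _
      rw [MonoidAlgebra.single_mul_single, one_mul]
    rw [e, MonoidAlgebra.coeff_single, MonoidAlgebra.coeff_single, Finsupp.single_apply,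
      Finsupp.single_apply]
    simp only [mul_right_inj]

private theorem hz_eps {K : Type} [Group K] (a : GR K) :
    eps K a = ∑ k ∈ a.coeff.support, a.coeff k := by
  have h : eps K a = lin (fun _ : K => (1 : ℤ)) a := by
    induction a using MonoidAlgebra.induction_linear with
    | zero => rw [map_zero, map_zero]
    | add a b ha hb => rw [map_add, map_add, ha, hb]
    | single h n => rw [lin_single, hz_single, map_zsmul, eps_el, smul_eq_mul]
  rw [h]
  show (Finsupp.liftAddHom (fun _ => zmultiplesHom ℤ (1 : ℤ))) a.coeff = _
  rw [Finsupp.liftAddHom_apply]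
  refine Finset.sum_congr rfl fun k _ => ?_
  show (zmultiplesHom ℤ (1 : ℤ)) (a.coeff k) = a.coeff k
  rw [zmultiplesHom_apply, smul_eq_mul, mul_one]

theorem subsingleton_of_pd (K : Type) [Group K] (h : PdLT K (Tr K) 1) : Subsingleton K := by
  have hp := proj_of_pd h
  let z : Tr K := (Representation.trivial ℤ K ℤ).asModuleEquiv.symm 1
  let p : GR K →ₗ[GR K] Tr K := LinearMap.toSpanSingleton (GR K) (Tr K) z
  have hps : Function.Surjective p := by
    intro y
    refine ⟨((Representation.trivial ℤ K ℤ).asModuleEquiv y) • (1 : GR K), ?_⟩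
    show (((Representation.trivial ℤ K ℤ).asModuleEquiv y) • (1 : GR K)) • z = y
    rw [hz_smul, map_zsmul, map_one]
    apply (Representation.trivial ℤ K ℤ).asModuleEquiv.injective
    rw [map_smul, LinearEquiv.apply_symm_apply]
    simp
  obtain ⟨s, hs⟩ := Module.projective_lifting_property p (LinearMap.id : Tr K →ₗ[GR K] Tr K) hps
  set e : GR K := s z with he
  have h1 : eps K e = 1 := by
    have h2 : p e = z := LinearMap.congr_fun hs z
    have h3 : (eps K e) • z = z := by
      rw [← hz_smul]
      exact h2
    have h4 := congrArg (Representation.trivial ℤ K ℤ).asModuleEquiv h3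
    rw [map_smul, LinearEquiv.apply_symm_apply] at h4
    simpa using h4
  have h2 : ∀ k : K, e.coeff k = e.coeff 1 := by
    intro k
    have h3 : (el k : GR K) * e = e := by
      have h4 : s ((el k : GR K) • z) = (el k : GR K) • s z := map_smul _ _ _
      rw [hz_smul, eps_el, one_smul] at h4
      exact h4.symm
    have h5 := hz_coeff k 1 e
    rw [h3, mul_one] at h5
    exact h5
  rw [hz_eps, Finset.sum_congr rfl (fun k _ => h2 k), Finset.sum_const, nsmul_eq_mul] at h1
  have h3 : (e.coeff.support.card : ℤ) = 1 := by
    have h5 := Int.isUnit_iff.1 (IsUnit.of_mul_eq_one _ h1)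
    omega
  have h4 : e.coeff.support.card = 1 := by exact_mod_cast h3
  have h5 : e.coeff 1 ≠ 0 := by
    intro h6
    rw [h6, mul_zero] at h1
    exact zero_ne_one h1
  obtain ⟨x, hx⟩ := Finset.card_eq_one.1 h4
  refine ⟨fun a b => ?_⟩
  have hm : ∀ a : K, a ∈ e.coeff.support := by
    intro a
    rw [Finsupp.mem_support_iff, h2 a]
    exact h5
  have ha := hm a
  have hb := hm b
  rw [hx, Finset.mem_singleton] at ha hb
  rw [ha, hb]

/-- `pd_LK` without the assumption `1 ≤ m` -/
theorem pd_LK' {G : Type} [Group G] (K : Subgroup G) (m : ℕ)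
    (h : PdLT K (Tr K) (m + 1)) : PdLT G (LK K) m := by
  cases m with
  | zero =>
    have hK := subsingleton_of_pd K h
    rw [pd_zero_iff]
    have h0 : LK K = ⊥ := by
      rw [LK, Submodule.span_eq_bot]
      rintro _ ⟨k, hk, rfl⟩
      have : (⟨k, hk⟩ : K) = 1 := Subsingleton.elim _ _
      have h1 : k = 1 := congrArg Subtype.val this
      rw [h1]
      have h2 : (el (1 : G) : GR G) = 1 := map_one _
      rw [h2, sub_self]
    rw [h0]
    infer_instance
  | succ m => exact pd_LK K (m + 1) (by omega) h

end PFC
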