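import Pool.Agent.PFC.KMain
import Pool.Agent.PFC.HZero
import Pool.Agent.PFC.HFree
import Pool.Agent.PF.Main

/-!
# The cohomological dimension of finitely generated parafree groups
-/

set_option autoImplicit false

open CategoryTheory

namespace PFC

private theorem pd_congr {G : Type} [Group G] (n : ℕ) (K K' : Subgroup G) (h : K = K')
    (hK : PdLT K (Tr K) n) : PdLT K' (Tr K') n := by
  subst h
  exact hK

theorem cd_main (G : Type) [Group G] [Group.FG G] (hG : PF.IsParafree G) (n m : ℕ)
    (h : PdLT (PF.gam G n) (Tr (PF.gam G n)) (m + 1)) : PdLT G (Tr G) (m + 2) := by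
  obtain ⟨ι, hι, x, D, hD, hx⟩ := key G hG n
  have h1 := pd_congr (m + 1) _ _ (QuotientGroup.ker_mk' (PF.gam G n)).symm h
  exact pd_tr G (m + 1) (pd_augId G (G ⧸ PF.gam G n) (QuotientGroup.mk' (PF.gam G n))
    (QuotientGroup.mk'_surjective _) ι x D hD hx m (pd_LK' _ m h1))

theorem pd_tr_free (K : Type) [Group K] (hK : IsFreeGroup K) : PdLT K (Tr K) 2 := by
  have := augId_free K hK
  exact pd_tr K 1 (pd_proj inferInstance)

theorem cd_free (G : Type) [Group G] [Group.FG G] (hG : PF.IsParafree G) (n : ℕ)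
    (h : IsFreeGroup (PF.gam G n)) : PdLT G (Tr G) 3 :=
  cd_main G hG n 1 (pd_tr_free _ h)

end PFC
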