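import Pool.Agent.PFC.Defs

/-!
# PFC-FAd (0.9h)
Lazard elimination in the free ring; Mathlib only. Let `B := {b : A // b ≠ a0} × ℕ` and `S := FreeAlgebra ℤ B`.
PLAN. (1) There is an additive map `δ : S →+ S` with `δ (x*y) = δ x * y + x * δ y` and `δ (ι (b,j)) = ι (b, j+1)`: take the second
component of `FreeAlgebra.lift ℤ (fun z => (TrivSqZeroExt.inl (ι z) + TrivSqZeroExt.inr (ι (z.1, z.2+1)))) : S →ₐ TrivSqZeroExt S S`
(first component is the identity, `FreeAlgebra.hom_ext`); or use `Matrix (Fin 2) (Fin 2) S` with `!![ι z, ι (z.1,z.2+1); 0, ι z]`.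
(2) Algebra homomorphism `Φ : FreeAlgebra ℤ A →ₐ[ℤ] Module.End ℤ S`, `a0 ↦ δ`, `b ↦ left multiplication by ι (b,0)`
(`FreeAlgebra.lift`; `δ.toIntLinearMap`; use `if h : a = a0 then .. else ..` classically). `[δ, L_s] = L_{δ s}`, so by induction on `j`,
`Φ (adIt a0 (b, j)) = L_{ι (b, j)}`. (3) Hence `Φ (lift (adIt a0) p) = L_p` for every `p : S` (two algebra homs `S → End S` agree on
generators; `p ↦ L_p` is `Algebra.lmul ℤ S` or `LinearMap.mulLeft`), evaluate at `1`: `p` is determined by `lift (adIt a0) p`.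
-/

set_option autoImplicit false

open CategoryTheory
open scoped commutatorElement

namespace PFC

private noncomputable def fadM (R : Type) [CommRing R] {B : Type} (s : B → B) :
    FreeAlgebra R B →ₐ[R] Matrix (Fin 2) (Fin 2) (FreeAlgebra R B) :=
  FreeAlgebra.lift R fun z => !![FreeAlgebra.ι R z, FreeAlgebra.ι R (s z); 0, FreeAlgebra.ι R z]

private theorem fadM_diag (R : Type) [CommRing R] {B : Type} (s : B → B) (x : FreeAlgebra R B) :
    fadM R s x 0 0 = x ∧ fadM R s x 1 0 = 0 ∧ fadM R s x 1 1 = x := by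
  induction x using FreeAlgebra.induction with
  | grade0 r =>
    rw [AlgHom.commutes, Matrix.algebraMap_matrix_apply, Matrix.algebraMap_matrix_apply,
      Matrix.algebraMap_matrix_apply, if_pos rfl, if_neg (by decide), if_pos rfl]
    exact ⟨rfl, rfl, rfl⟩
  | grade1 z =>
    have h : fadM R s (FreeAlgebra.ι R z) =
        !![FreeAlgebra.ι R z, FreeAlgebra.ι R (s z); 0, FreeAlgebra.ι R z] := by
      unfold fadM
      rw [FreeAlgebra.lift_ι_apply]
    rw [h]
    exact ⟨rfl, rfl, rfl⟩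
  | mul a b ha hb =>
    obtain ⟨a1, a2, a3⟩ := ha
    obtain ⟨b1, b2, b3⟩ := hb
    rw [map_mul, Matrix.mul_apply, Matrix.mul_apply, Matrix.mul_apply, Fin.sum_univ_two,
      Fin.sum_univ_two, Fin.sum_univ_two, a1, a2, a3, b1, b2, b3]
    refine ⟨?_, ?_, ?_⟩
    · rw [mul_zero, add_zero]
    · rw [zero_mul, mul_zero, add_zero]
    · rw [zero_mul, zero_add]
  | add a b ha hb =>
    obtain ⟨a1, a2, a3⟩ := ha
    obtain ⟨b1, b2, b3⟩ := hb
    rw [map_add, Matrix.add_apply, Matrix.add_apply, Matrix.add_apply, a1, a2, a3, b1, b2, b3]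
    exact ⟨rfl, add_zero _, rfl⟩

private theorem exists_fad (R : Type) [CommRing R] {B : Type} (s : B → B) :
    ∃ δ : Module.End R (FreeAlgebra R B),
      (∀ x y, δ (x * y) = δ x * y + x * δ y) ∧
      ∀ z, δ (FreeAlgebra.ι R z) = FreeAlgebra.ι R (s z) := by
  refine ⟨(Matrix.entryLinearMap R (FreeAlgebra R B) (0 : Fin 2) (1 : Fin 2)).comp
    (fadM R s).toLinearMap, fun x y => ?_, fun z => ?_⟩
  · show fadM R s (x * y) 0 1 = fadM R s x 0 1 * y + x * fadM R s y 0 1
    rw [map_mul, Matrix.mul_apply, Fin.sum_univ_two, (fadM_diag R s x).1, (fadM_diag R s y).2.2,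
      add_comm]
  · show fadM R s (FreeAlgebra.ι R z) 0 1 = FreeAlgebra.ι R (s z)
    unfold fadM
    rw [FreeAlgebra.lift_ι_apply]
    rfl

private theorem fad_gen (R : Type) [CommRing R] {A : Type} (a0 : A)
    (g : {b : A // b ≠ a0} × ℕ → FreeAlgebra R A) (h0 : ∀ b, g (b, 0) = FreeAlgebra.ι R b.1)
    (h1 : ∀ b j, g (b, j + 1) = FreeAlgebra.ι R a0 * g (b, j) - g (b, j) * FreeAlgebra.ι R a0) :
    Function.Injective (FreeAlgebra.lift R g) := by
  classical
  obtain ⟨δ, hδ1, hδ2⟩ := exists_fad R (fun z : {b : A // b ≠ a0} × ℕ => (z.1, z.2 + 1))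
  set Φ : FreeAlgebra R A →ₐ[R] Module.End R (FreeAlgebra R ({b : A // b ≠ a0} × ℕ)) :=
    FreeAlgebra.lift R (fun a => if h : a = a0 then δ else
      Algebra.lmul R (FreeAlgebra R ({b : A // b ≠ a0} × ℕ)) (FreeAlgebra.ι R (⟨a, h⟩, 0))) with hΦ
  have hΦ0 : Φ (FreeAlgebra.ι R a0) = δ := by
    rw [hΦ, FreeAlgebra.lift_ι_apply, dif_pos rfl]
  have hΦb : ∀ b : {b : A // b ≠ a0}, Φ (FreeAlgebra.ι R b.1) =
      Algebra.lmul R (FreeAlgebra R ({b : A // b ≠ a0} × ℕ)) (FreeAlgebra.ι R (b, 0)) := by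
    intro b
    rw [hΦ, FreeAlgebra.lift_ι_apply, dif_neg b.2]
  have hit : ∀ (b : {b : A // b ≠ a0}) (j : ℕ), Φ (g (b, j)) =
      Algebra.lmul R (FreeAlgebra R ({b : A // b ≠ a0} × ℕ)) (FreeAlgebra.ι R (b, j)) := by
    intro b j
    induction j with
    | zero =>
      rw [h0]
      exact hΦb b
    | succ j ih =>
      rw [h1, map_sub, map_mul, map_mul, ih, hΦ0]
      refine LinearMap.ext fun x => ?_
      have h2 : (δ * Algebra.lmul R (FreeAlgebra R ({b : A // b ≠ a0} × ℕ))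
          (FreeAlgebra.ι R (b, j)) - Algebra.lmul R (FreeAlgebra R ({b : A // b ≠ a0} × ℕ))
          (FreeAlgebra.ι R (b, j)) * δ) x =
          δ (FreeAlgebra.ι R (b, j) * x) - FreeAlgebra.ι R (b, j) * δ x := rfl
      rw [h2, hδ1, hδ2]
      show _ = FreeAlgebra.ι R (b, j + 1) * x
      rw [add_sub_cancel_right]
  have hcomp : Φ.comp (FreeAlgebra.lift R g) =
      Algebra.lmul R (FreeAlgebra R ({b : A // b ≠ a0} × ℕ)) := by
    apply FreeAlgebra.hom_ext
    funext z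
    show Φ (FreeAlgebra.lift R g (FreeAlgebra.ι R z)) =
      Algebra.lmul R (FreeAlgebra R ({b : A // b ≠ a0} × ℕ)) (FreeAlgebra.ι R z)
    rw [FreeAlgebra.lift_ι_apply]
    exact hit z.1 z.2
  have hinj : Function.Injective
      (Algebra.lmul R (FreeAlgebra R ({b : A // b ≠ a0} × ℕ))) := Algebra.lmul_injective
  rw [← hcomp] at hinj
  exact Function.Injective.of_comp (f := Φ) hinj

theorem lift_adIt_injective {A : Type} (a0 : A) :
    Function.Injective (FreeAlgebra.lift ℤ (adIt a0) :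
      FreeAlgebra ℤ ({b : A // b ≠ a0} × ℕ) →ₐ[ℤ] FreeAlgebra ℤ A) := by
  exact fad_gen ℤ a0 (adIt a0) (fun b => rfl) (fun b j => Function.iterate_succ_apply' _ _ _)

end PFC
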