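import Pool.Agent.PFC.Defs

/-!
# Definitions for the homological part
-/

set_option autoImplicit false

open CategoryTheory

namespace PFC

section Pull

variable {G Q : Type} [Group G] [Group Q]

/-- the `GR Q`-module `M` as a module over `GR G` along `θ : G → Q` -/
def Pull (_ : G →* Q) (M : Type) : Type := M

instance (θ : G →* Q) (M : Type) [AddCommGroup M] : AddCommGroup (Pull θ M) :=
  inferInstanceAs (AddCommGroup M)

noncomputable instance (θ : G →* Q) (M : Type) [AddCommGroup M] [Module (GR Q) M] :
    Module (GR G) (Pull θ M) :=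
  Module.compHom M (MonoidAlgebra.mapDomainRingHom ℤ θ)

/-- `M → Pull θ M`, the identity -/
def toPull (θ : G →* Q) (M : Type) [AddCommGroup M] : M ≃+ Pull θ M := AddEquiv.refl M

theorem toPull_smul (θ : G →* Q) {M : Type} [AddCommGroup M] [Module (GR Q) M] (a : GR G)
    (x : M) : a • toPull θ M x = toPull θ M (MonoidAlgebra.mapDomainRingHom ℤ θ a • x) := rfl

theorem toPull_el (θ : G →* Q) {M : Type} [AddCommGroup M] [Module (GR Q) M] (g : G)
    (x : M) : el g • toPull θ M x = toPull θ M (el (θ g) • x) := by
  rw [toPull_smul]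
  congr 2
  show MonoidAlgebra.mapDomainRingHom ℤ θ (MonoidAlgebra.single g 1) = MonoidAlgebra.single (θ g) 1
  rw [MonoidAlgebra.mapDomainRingHom_apply, MonoidAlgebra.mapDomain_single]

/-- the projection `GR G → GR Q` as a map of `GR G`-modules -/
noncomputable def prj (θ : G →* Q) : GR G →ₗ[GR G] Pull θ (GR Q) where
  toFun a := toPull θ (GR Q) (MonoidAlgebra.mapDomainRingHom ℤ θ a)
  map_add' a b := by rw [map_add, map_add]
  map_smul' a b := by
    rw [RingHom.id_apply, toPull_smul, smul_eq_mul, map_mul, smul_eq_mul]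

theorem prj_el (θ : G →* Q) (g : G) : prj θ (el g) = toPull θ (GR Q) (el (θ g)) := by
  show toPull θ (GR Q) (MonoidAlgebra.mapDomainRingHom ℤ θ (MonoidAlgebra.single g 1)) = _
  rw [MonoidAlgebra.mapDomainRingHom_apply, MonoidAlgebra.mapDomain_single]
  rfl

end Pull

/-- the inclusion of group rings -/
noncomputable def jK {G : Type} [Group G] (K : Subgroup G) : GR K →+* GR G :=
  MonoidAlgebra.mapDomainRingHom ℤ K.subtype

theorem jK_el {G : Type} [Group G] (K : Subgroup G) (k : K) : jK K (el k) = el (k : G) := by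
  show MonoidAlgebra.mapDomainRingHom ℤ K.subtype (MonoidAlgebra.single k 1) = _
  rw [MonoidAlgebra.mapDomainRingHom_apply, MonoidAlgebra.mapDomain_single]
  rfl

end PFC
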