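import Pool.Agent.PFC.HShort

/-!
# PFC-HPi: projective dimension of a finite power
-/

set_option autoImplicit false

open CategoryTheory
open scoped commutatorElement

namespace PFC

theorem pd_pi (G : Type) [Group G] (M : Type) [AddCommGroup M] [Module (GR G) M] (ι : Type)
    [Finite ι] (m : ℕ) (h : PdLT G M m) : PdLT G (ι → M) m := by
  induction ι using Finite.induction_empty_option with
  | @of_equiv α β e hα => exact pd_equiv (LinearEquiv.funCongrLeft (GR G) M e.symm) m hα
  | h_empty =>
    have : Subsingleton (PEmpty → M) := inferInstance
    exact pd_mono 0 m (Nat.zero_le m) (pd_zero_iff.2 this)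
  | @h_option α _ hα =>
    refine pd_two (M₁ := M) (M₃ := α → M)
      { toFun := fun x o => o.elim x (fun _ => 0)
        map_add' := ?_
        map_smul' := ?_ }
      (LinearMap.funLeft (GR G) M (some : α → Option α)) ?_ ?_ ?_ m h hα
    · intro x y
      funext o
      cases o <;> simp
    · intro c x
      funext o
      cases o <;> simp
    · intro x y hxy
      exact congrFun hxy none
    · intro v
      exact ⟨fun o => o.elim 0 v, rfl⟩
    · intro v
      constructor
      · intro hv
        refine ⟨v none, ?_⟩
        funext o
        cases o with
        | none => rfl
        | some a => exact (congrFun hv a).symm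
      · rintro ⟨x, rfl⟩
        rfl

end PFC
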