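import Pool.Agent.PFC.HShort
import Pool.Agent.PFC.HPi
import Pool.Agent.PFC.HLK

/-!
# PFC-HSeq
The exact sequence `0 → LK θ.ker → I_G × Ω → Λ^ι → 0`, `Λ = Pull θ (GR Q)`, `I_G = augId G`, `Ω` the kernel of
`v ↦ Σ_i v_i * (el (θ (x i)) - 1)`, and the bound for the projective dimension of `I_G`.
-/

set_option autoImplicit false

open CategoryTheory
open scoped commutatorElement

namespace PFC

section

variable {G Q : Type} [Group G] [Group Q] (θ : G →* Q) {ι : Type}

/-- the additive extension of a function to the group ring -/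
private noncomputable def hs_lin {V : Type} [AddCommGroup V] (f : G → V) : GR G →+ V :=
  (Finsupp.liftAddHom (fun g => zmultiplesHom V (f g))).comp
    (MonoidAlgebra.coeffAddEquiv (R := ℤ) (M := G)).toAddMonoidHom

private theorem hs_lin_el {V : Type} [AddCommGroup V] (f : G → V) (g : G) :
    hs_lin f (MonoidAlgebra.of ℤ G g) = f g := by
  have h1 : hs_lin f (MonoidAlgebra.of ℤ G g) =
      (Finsupp.liftAddHom (fun g => zmultiplesHom V (f g))) (Finsupp.single g 1) := rfl
  rw [h1, Finsupp.liftAddHom_apply_single, zmultiplesHom_apply, one_smul]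

private theorem hs_eps_of (g : G) : eps G (MonoidAlgebra.of ℤ G g) = 1 := eps_el g

/-- the values in the pulled back module -/
private noncomputable def hs_D' (D : G → ι → GR Q) (g : G) : ι → Pull θ (GR Q) :=
  fun i => toPull θ (GR Q) (D g i)

private theorem hs_mul (D : G → ι → GR Q) (hD : IsDer θ D) (b a : GR G) :
    hs_lin (hs_D' θ D) (b * a) = b • hs_lin (hs_D' θ D) a + eps G a • hs_lin (hs_D' θ D) b := by
  induction a using MonoidAlgebra.induction_on with
  | of g =>
    induction b using MonoidAlgebra.induction_on with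
    | of h =>
      rw [← map_mul, hs_lin_el, hs_lin_el, hs_lin_el, hs_eps_of, one_smul]
      funext i
      show toPull θ (GR Q) (D (h * g) i) = el h • toPull θ (GR Q) (D g i) + toPull θ (GR Q) (D h i)
      rw [hD h g, toPull_el, add_comm, ← map_add]
      rfl
    | add x y hx hy =>
      rw [add_mul, map_add, hx, hy, add_smul, map_add, smul_add]
      abel
    | smul r x hx =>
      rw [smul_mul_assoc, map_zsmul, hx, map_zsmul, smul_add, smul_assoc, smul_comm r (eps G _)]
  | add x y hx hy =>
    rw [mul_add, map_add, hx, hy, map_add, map_add, smul_add, add_smul]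
    abel
  | smul r x hx =>
    rw [mul_smul_comm, map_zsmul, hx, map_zsmul, map_zsmul, smul_add, smul_comm b r, smul_assoc]

variable [Fintype ι]

/-- the map `v ↦ Σ_i v_i * (el (θ (x i)) - 1)` -/
private noncomputable def hs_dd (x : ι → G) : (ι → Pull θ (GR Q)) →ₗ[GR G] Pull θ (GR Q) where
  toFun v := toPull θ (GR Q) (∑ i, (toPull θ (GR Q)).symm (v i) * (el (θ (x i)) - 1))
  map_add' v w := by
    rw [← map_add, ← Finset.sum_add_distrib]
    congr 1
    refine Finset.sum_congr rfl fun i _ => ?_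
    rw [Pi.add_apply, map_add, add_mul]
  map_smul' c v := by
    rw [RingHom.id_apply, toPull_smul, Finset.smul_sum]
    congr 1
    refine Finset.sum_congr rfl fun i _ => ?_
    rw [smul_eq_mul, ← mul_assoc]
    rfl

private theorem hs_dd_lin (x : ι → G) (D : G → ι → GR Q)
    (hx : ∀ g, ∑ i, D g i * (el (θ (x i)) - 1) = el (θ g) - 1) (a : GR G) :
    hs_dd θ x (hs_lin (hs_D' θ D) a) = prj θ a - eps G a • toPull θ (GR Q) 1 := by
  induction a using MonoidAlgebra.induction_on with
  | of g =>
    rw [hs_lin_el, hs_eps_of, one_smul]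
    have h1 : prj θ (MonoidAlgebra.of ℤ G g) = toPull θ (GR Q) (el (θ g)) := prj_el θ g
    rw [h1, ← map_sub, ← hx g]
    rfl
  | add y z hy hz =>
    rw [map_add, map_add, hy, hz, map_add, map_add, add_smul]
    abel
  | smul r y hy =>
    rw [map_zsmul, map_zsmul, hy, map_zsmul, map_zsmul, smul_sub, smul_assoc]

private theorem hs_eps_prj (a : GR G) :
    eps Q ((toPull θ (GR Q)).symm (prj θ a)) = eps G a := by
  induction a using MonoidAlgebra.induction_on with
  | of g =>
    have h1 : prj θ (MonoidAlgebra.of ℤ G g) = toPull θ (GR Q) (el (θ g)) := prj_el θ g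
    rw [h1, AddEquiv.symm_apply_apply, eps_el, hs_eps_of]
  | add y z hy hz => rw [map_add, map_add, map_add, hy, hz, map_add]
  | smul r y hy => rw [map_zsmul, map_zsmul, map_zsmul, hy, map_zsmul]

private theorem hs_eps_dd (x : ι → G) (v : ι → Pull θ (GR Q)) :
    eps Q ((toPull θ (GR Q)).symm (hs_dd θ x v)) = 0 := by
  have h1 : (toPull θ (GR Q)).symm (hs_dd θ x v) =
      ∑ i, (toPull θ (GR Q)).symm (v i) * (el (θ (x i)) - 1) := rfl
  rw [h1, map_sum]
  refine Finset.sum_eq_zero fun i _ => ?_
  rw [map_mul, map_sub, eps_el, map_one, sub_self, mul_zero]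

end

theorem pd_augId (G Q : Type) [Group G] [Group Q] (θ : G →* Q) (hθ : Function.Surjective θ)
    (ι : Type) [Fintype ι] (x : ι → G) (D : G → ι → GR Q) (hD : IsDer θ D)
    (hx : ∀ g, ∑ i, D g i * (el (θ (x i)) - 1) = el (θ g) - 1) (m : ℕ)
    (hm : PdLT G (LK θ.ker) m) : PdLT G (augId G) (m + 1) := by
  -- the projective dimension of the powers of `Λ`
  have hL : PdLT G (Pull θ (GR Q)) (m + 1) := by
    refine pd_three (LK θ.ker).subtype (prj θ) Subtype.val_injective (prj_surjective θ hθ) ?_ m hm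
      (pd_mono 1 (m + 1) (by omega) (pd_proj inferInstance))
    intro a
    rw [← LinearMap.mem_ker, prj_ker θ hθ]
    constructor
    · intro ha
      exact ⟨⟨a, ha⟩, rfl⟩
    · rintro ⟨y, rfl⟩
      exact y.2
  have hV := pd_pi G (Pull θ (GR Q)) ι (m + 1) hL
  -- the map `lam`
  let lam : augId G →ₗ[GR G] (ι → Pull θ (GR Q)) :=
    { toFun := fun a => hs_lin (hs_D' θ D) a.1
      map_add' := fun a b => map_add (hs_lin (hs_D' θ D)) a.1 b.1
      map_smul' := by
        intro c a
        have h1 := hs_mul θ D hD c a.1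
        have h2 : eps G a.1 = 0 := a.2
        rw [h2, zero_smul, add_zero] at h1
        exact h1 }
  have hlam : ∀ a : augId G, hs_dd θ x (lam a) = prj θ a.1 := by
    intro a
    have h1 := hs_dd_lin θ x D hx a.1
    have h2 : eps G a.1 = 0 := a.2
    rw [h2, zero_smul, sub_zero] at h1
    exact h1
  have hker : ∀ a : LK θ.ker, prj θ a.1 = 0 := by
    intro a
    have h1 : (a : GR G) ∈ LinearMap.ker (prj θ) := by
      rw [prj_ker θ hθ]
      exact a.2
    exact h1
  let inc : LK θ.ker →ₗ[GR G] augId G := Submodule.inclusion (LK_le θ.ker)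
  let f : LK θ.ker →ₗ[GR G] (augId G × LinearMap.ker (hs_dd θ x)) :=
    inc.prod ((lam.comp inc).codRestrict (LinearMap.ker (hs_dd θ x)) (by
      intro a
      rw [LinearMap.mem_ker]
      exact (hlam (inc a)).trans (hker a)))
  let Ψ : (augId G × LinearMap.ker (hs_dd θ x)) →ₗ[GR G] (ι → Pull θ (GR Q)) :=
    lam.coprod (-(LinearMap.ker (hs_dd θ x)).subtype)
  have hΨ : ∀ (a : augId G) (o : LinearMap.ker (hs_dd θ x)), Ψ (a, o) = lam a - o.1 := by
    intro a o
    show lam a + (-(LinearMap.ker (hs_dd θ x)).subtype) o = _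
    rw [LinearMap.neg_apply, sub_eq_add_neg]
    rfl
  refine pd_fst (M₂ := LinearMap.ker (hs_dd θ x)) (m + 1)
    (pd_two f Ψ ?_ ?_ ?_ (m + 1) (pd_mono m (m + 1) (Nat.le_succ m) hm) hV)
  · intro a b hab
    have h1 : inc a = inc b := congrArg Prod.fst hab
    exact Subtype.ext (congrArg (fun z : augId G => z.1) h1)
  · intro v
    obtain ⟨a, ha⟩ := prj_surjective θ hθ (hs_dd θ x v)
    have h1 : eps G a = 0 := by
      rw [← hs_eps_prj θ a, ha]
      exact hs_eps_dd θ x v
    refine ⟨(⟨a, h1⟩, ⟨lam ⟨a, h1⟩ - v, ?_⟩), ?_⟩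
    · rw [LinearMap.mem_ker, map_sub, hlam, ha, sub_self]
    · rw [hΨ]
      exact sub_sub_cancel _ _
  · rintro ⟨a, o⟩
    constructor
    · intro h1
      rw [hΨ, sub_eq_zero] at h1
      have h2 : a.1 ∈ LK θ.ker := by
        rw [← prj_ker θ hθ, LinearMap.mem_ker, ← hlam a, h1]
        exact o.2
      refine ⟨⟨a.1, h2⟩, ?_⟩
      exact Prod.ext rfl (Subtype.ext h1)
    · rintro ⟨k, hk⟩
      have h1 : a = inc k := (congrArg Prod.fst hk).symm
      have h2 : o.1 = lam (inc k) := (congrArg (fun z => z.2.1) hk).symm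
      rw [hΨ, h2, h1, sub_self]

end PFC
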