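import Pool.Agent.PFC.KDer

/-!
# PFC-KFox: Fox derivatives
-/

set_option autoImplicit false

open CategoryTheory
open scoped commutatorElement

namespace PFC

theorem exists_fox {Z Q : Type} [Fintype Z] [Group Q] (θ : FreeGroup Z →* Q) :
    ∃ fox : FreeGroup Z → Z → GR Q,
      (∀ (M : Type) [AddCommGroup M] [Module (GR Q) M] (D : FreeGroup Z → M), IsDer θ D →
        ∀ w, D w = ∑ z, fox w z • D (FreeGroup.of z)) ∧
      ∀ w ∈ commutator (FreeGroup Z), ∀ z, eps Q (fox w z) = 0 := by
  classical
  obtain ⟨fox, hf, hz⟩ := exists_der θ (M := Z → GR Q) (fun z => Pi.single z 1)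
  refine ⟨fox, ?_, ?_⟩
  · intro M _ _ D hD w
    refine der_ext_free θ hD (D' := fun w => ∑ z, fox w z • D (FreeGroup.of z)) ?_ ?_ w
    · intro g h
      show ∑ z, fox (g * h) z • D (FreeGroup.of z) = ∑ z, fox g z • D (FreeGroup.of z) +
        (el (θ g) : GR Q) • ∑ z, fox h z • D (FreeGroup.of z)
      rw [Finset.smul_sum, ← Finset.sum_add_distrib]
      refine Finset.sum_congr rfl fun z _ => ?_
      rw [hf g h, Pi.add_apply, Pi.smul_apply, add_smul, smul_assoc]
    · intro z
      show D (FreeGroup.of z) = ∑ z', fox (FreeGroup.of z) z' • D (FreeGroup.of z')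
      rw [hz, Finset.sum_eq_single z]
      · rw [Pi.single_eq_same, one_smul]
      · intro z' _ hne
        rw [Pi.single_eq_of_ne hne, zero_smul]
      · intro h
        exact absurd (Finset.mem_univ z) h
  · intro w hw z
    let φ : FreeGroup Z →* Multiplicative ℤ :=
      { toFun := fun g => Multiplicative.ofAdd (eps Q (fox g z))
        map_one' := by rw [der_one θ hf]; simp
        map_mul' := by
          intro g h
          rw [hf g h, Pi.add_apply, Pi.smul_apply, map_add, smul_eq_mul, map_mul, eps_el, one_mul,
            ofAdd_add] }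
    have h : φ w = 1 := Abelianization.commutator_subset_ker φ hw
    exact Multiplicative.ofAdd.injective h

end PFC
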