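import Pool.Agent.PFC.KAug
import Pool.Agent.PF.GroupRing

/-!
# PFC-KOre: an Ore type condition for left modules
-/

set_option autoImplicit false

open CategoryTheory
open scoped commutatorElement

namespace PFC

private theorem aug_top_map {Q : Type} [Group Q] {M N : Type} [AddCommGroup M] [Module (GR Q) M]
    [AddCommGroup N] [Module (GR Q) N] (f : M →ₗ[GR Q] N) (x : M)
    (hx : x ∈ PF.aug (Q := Q) (M := M) ⊤) : f x ∈ PF.aug (Q := Q) (M := N) ⊤ := by
  refine Submodule.span_induction (p := fun x _ => f x ∈ PF.aug (Q := Q) (M := N) ⊤) ?_ ?_ ?_ ?_ hx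
  · rintro _ ⟨q, m, _, rfl⟩
    refine Submodule.subset_span ⟨q, f m, trivial, ?_⟩
    rw [map_sub, map_smul]
  · rw [map_zero]
    exact Submodule.zero_mem _
  · intro a b _ _ ha hb
    rw [map_add]
    exact Submodule.add_mem _ ha hb
  · intro c a _ ha
    rw [map_smul]
    exact Submodule.smul_mem _ c ha

theorem left_ore (Q : Type) [Group Q] (l : ℕ) (t : ℕ → Q) (h : PF.IsChain Q l t) (M : Type)
    [AddCommGroup M] [Module (GR Q) M] [Module.Finite (GR Q) M] (N : Submodule (GR Q) M)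
    (hN : N ⊔ PF.aug (Q := Q) (M := M) ⊤ = ⊤) (ι : Type) [Finite ι] (p : ι → M) :
    ∃ s : GR Q, eps Q s = 1 ∧ ∀ i, s • p i ∈ N := by
  classical
  have hnoeth : IsNoetherianRing (GR Q) := PF.groupRing_noeth Q l t h
  have := Fintype.ofFinite ι
  have h1 : ∀ y : M ⧸ N, y ∈ PF.aug (Q := Q) (M := M ⧸ N) ⊤ := by
    intro y
    obtain ⟨m, rfl⟩ := Submodule.mkQ_surjective N y
    have hm : m ∈ N ⊔ PF.aug (Q := Q) (M := M) ⊤ := by
      rw [hN]; trivial
    obtain ⟨a, ha, b, hb, rfl⟩ := Submodule.mem_sup.1 hm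
    have e : N.mkQ (a + b) = N.mkQ b := by
      rw [map_add, Submodule.mkQ_apply, (Submodule.Quotient.mk_eq_zero N).2 ha, zero_add]
    rw [e]
    exact aug_top_map N.mkQ b hb
  have h2 : ∀ v : ι → M ⧸ N, v ∈ PF.aug (Q := Q) (M := ι → M ⧸ N) ⊤ := by
    intro v
    have e : v = ∑ i, LinearMap.single (GR Q) (fun _ : ι => M ⧸ N) i (v i) := by
      simp only [LinearMap.single_apply]
      exact (Finset.univ_sum_single v).symm
    rw [e]
    exact Submodule.sum_mem _ fun i _ => aug_top_map _ _ (h1 (v i))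
  have h3 : PF.aug (Q := Q) (M := ι → M ⧸ N) ⊤ = ⊤ := by
    rw [eq_top_iff]
    exact fun v _ => h2 v
  have h4 : ∀ j : ℕ, (PF.aug (Q := Q) (M := ι → M ⧸ N))^[j] ⊤ = ⊤ := by
    intro j
    induction j with
    | zero => rfl
    | succ j ih => rw [Function.iterate_succ_apply', ih, h3]
  let p' : ι → M ⧸ N := fun i => N.mkQ (p i)
  have h5 := PF.le_aug Q l t h (ι → M ⧸ N) (Submodule.span (GR Q) {p'}) (fun j => by
    rw [h4 j]; exact le_top)
  obtain ⟨a, ha, hap⟩ := exists_of_mem_aug_span p' p' (h5 (Submodule.mem_span_singleton_self p'))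
  refine ⟨1 - a, by rw [map_sub, map_one, ha, sub_zero], fun i => ?_⟩
  have h6 : (1 - a) • p' = 0 := by
    rw [sub_smul, one_smul, ← hap, sub_self]
  have h7 : N.mkQ ((1 - a) • p i) = 0 := by
    rw [map_smul]
    exact congrFun h6 i
  rw [Submodule.mkQ_apply, Submodule.Quotient.mk_eq_zero] at h7
  exact h7

end PFC
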