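import Pool.Agent.PFC.Defs

/-!
# PFC-KSta: the standard anti-automorphism of the group ring
-/

set_option autoImplicit false

open CategoryTheory
open scoped commutatorElement

namespace PFC

theorem exists_star (Q : Type) [Group Q] :
    ∃ st : GR Q →+ GR Q, (∀ a b, st (a * b) = st b * st a) ∧ (∀ a, st (st a) = a) ∧
      (∀ a, eps Q (st a) = eps Q a) ∧ ∀ q : Q, st (el q) = el q⁻¹ := by
  let F : Q →* (GR Q)ᵐᵒᵖ :=
    { toFun := fun q => MulOpposite.op (el q⁻¹)
      map_one' := by
        rw [inv_one]
        exact congrArg MulOpposite.op (map_one (MonoidAlgebra.of ℤ Q))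
      map_mul' := by
        intro a b
        rw [mul_inv_rev, ← MulOpposite.op_mul]
        exact congrArg MulOpposite.op (map_mul (MonoidAlgebra.of ℤ Q) _ _) }
  let f : GR Q →ₐ[ℤ] (GR Q)ᵐᵒᵖ := MonoidAlgebra.lift ℤ (GR Q)ᵐᵒᵖ Q F
  let st : GR Q →+ GR Q :=
    { toFun := fun a => MulOpposite.unop (f a)
      map_zero' := by rw [map_zero]; rfl
      map_add' := by intro a b; rw [map_add]; rfl }
  have hst : ∀ q : Q, st (el q) = el q⁻¹ := by
    intro q
    show MulOpposite.unop (f (MonoidAlgebra.of ℤ Q q)) = _
    rw [MonoidAlgebra.lift_of]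
    rfl
  have hsi : ∀ (q : Q) (n : ℤ), (MonoidAlgebra.single q n : GR Q) = n • el q := by
    intro q n
    show _ = n • MonoidAlgebra.single q (1 : ℤ)
    rw [MonoidAlgebra.smul_single, smul_eq_mul, mul_one]
  refine ⟨st, ?_, ?_, ?_, hst⟩
  · intro a b
    show MulOpposite.unop (f (a * b)) = _
    rw [map_mul]
    rfl
  · intro a
    induction a using MonoidAlgebra.induction_linear with
    | zero => rw [map_zero, map_zero]
    | add a b ha hb => rw [map_add, map_add, ha, hb]
    | single q n => rw [hsi, map_zsmul, map_zsmul, hst, hst, inv_inv]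
  · intro a
    induction a using MonoidAlgebra.induction_linear with
    | zero => rw [map_zero, map_zero]
    | add a b ha hb => rw [map_add, map_add, ha, hb, map_add]
    | single q n => rw [hsi, map_zsmul, map_zsmul, hst, eps_el, map_zsmul, eps_el]

end PFC
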