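import Pool.Agent.PFC.KAug
import Pool.Agent.PFC.KSta
import Pool.Agent.PFC.KOre

/-!
# PFC-KOreR (0.8h)
PLAN. Let `st` be the anti-automorphism of `exists_star`. `M := κ → GR Q` (left module), `e k := Pi.single k 1`,
`row k := e k - Σ_l Pi.single l (st (J l k))`, `N := span (range row)`. `N ⊔ aug ⊤ = ⊤`: every `e k = row k + Σ_l st (J l k) • e l`, and
`st (J l k) • e l ∈ aug ⊤` (`smul_mem_aug`, `eps (st a) = eps a = 0`); the `e k` span `M`. `left_ore` for `p i := fun k => st (P i k)` gives `s'` with
`eps s' = 1` and `s' • p i ∈ N`, so `s' • p i = Σ_k a i k • row k` (`Submodule.mem_span_range_iff_exists_fun`); component `k`: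
`s' * st (P i k) = a i k - Σ_l a i l * st (J k l)`. Apply `st`: with `s := st s'`, `W i k := st (a i k)`: `P i k * s = W i k - Σ_l J k l * W i l`.
-/

set_option autoImplicit false

open CategoryTheory
open scoped commutatorElement

namespace PFC

theorem right_ore (Q : Type) [Group Q] (l : ℕ) (t : ℕ → Q) (h : PF.IsChain Q l t)
    (κ ι : Type) [Fintype κ] [Finite ι] (J : κ → κ → GR Q) (hJ : ∀ k l, eps Q (J k l) = 0)
    (P : ι → κ → GR Q) :
    ∃ s : GR Q, eps Q s = 1 ∧ ∃ W : ι → κ → GR Q,
      ∀ i k, P i k * s = W i k - ∑ l, J k l * W i l := by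
  classical
  obtain ⟨st, hmul, hinv, heps, -⟩ := exists_star Q
  obtain ⟨row, hrow⟩ : ∃ row : κ → κ → GR Q, row = fun k =>
    Pi.single k (1 : GR Q) - ∑ l, Pi.single l (st (J l k)) := ⟨_, rfl⟩
  have hrow' : ∀ k m, row k m = (Pi.single k (1 : GR Q) : κ → GR Q) m - st (J m k) := by
    intro k m
    simp only [hrow]
    rw [Pi.sub_apply, Finset.sum_apply, Finset.sum_eq_single m]
    · rw [Pi.single_eq_same]
    · intro b _ hb
      exact Pi.single_eq_of_ne hb.symm _
    · intro hm
      exact absurd (Finset.mem_univ m) hm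
  have hN : Submodule.span (GR Q) (Set.range row) ⊔
      PF.aug (Q := Q) (M := κ → GR Q) ⊤ = ⊤ := by
    rw [eq_top_iff]
    have h1 : ∀ k, (Pi.single k (1 : GR Q) : κ → GR Q) ∈
        Submodule.span (GR Q) (Set.range row) ⊔ PF.aug (Q := Q) (M := κ → GR Q) ⊤ := by
      intro k
      have h2 : (Pi.single k (1 : GR Q) : κ → GR Q) =
          row k + ∑ l, st (J l k) • (Pi.single l (1 : GR Q) : κ → GR Q) := by
        simp only [hrow]
        have h3 : ∀ l, st (J l k) • (Pi.single l (1 : GR Q) : κ → GR Q) =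
            Pi.single l (st (J l k)) := by
          intro l
          rw [← Pi.single_smul, smul_eq_mul, mul_one]
        rw [Finset.sum_congr rfl fun l _ => h3 l, sub_add_cancel]
      rw [h2]
      refine Submodule.add_mem_sup (Submodule.subset_span ⟨k, rfl⟩)
        (Submodule.sum_mem _ fun l _ => ?_)
      exact smul_mem_aug _ (by rw [heps]; exact hJ l k) ⊤ _ Submodule.mem_top
    intro x _
    have h4 : x = ∑ k, x k • (Pi.single k (1 : GR Q) : κ → GR Q) := by
      funext m
      rw [Finset.sum_apply, Finset.sum_eq_single m]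
      · rw [Pi.smul_apply, Pi.single_eq_same, smul_eq_mul, mul_one]
      · intro b _ hb
        rw [Pi.smul_apply, Pi.single_eq_of_ne hb.symm, smul_zero]
      · intro hm
        exact absurd (Finset.mem_univ m) hm
    rw [h4]
    exact Submodule.sum_mem _ fun k _ => Submodule.smul_mem _ _ (h1 k)
  obtain ⟨s, hs, hsN⟩ := left_ore Q l t h (κ → GR Q) (Submodule.span (GR Q) (Set.range row)) hN ι
    (fun i k => st (P i k))
  have h5 : ∀ i, ∃ c : κ → GR Q, ∑ k, c k • row k = s • fun k => st (P i k) := fun i =>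
    (Submodule.mem_span_range_iff_exists_fun (GR Q)).1 (hsN i)
  choose c hc using h5
  refine ⟨st s, by rw [heps]; exact hs, fun i k => st (c i k), fun i m => ?_⟩
  have h6 := congrFun (hc i) m
  rw [Finset.sum_apply, Pi.smul_apply, smul_eq_mul] at h6
  have h7 : ∑ k, (c i k • row k) m = c i m - ∑ k, c i k * st (J m k) := by
    have h8 : ∀ k, (c i k • row k) m =
        c i k * (Pi.single k (1 : GR Q) : κ → GR Q) m - c i k * st (J m k) := by
      intro k
      rw [Pi.smul_apply, hrow', smul_eq_mul, mul_sub]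
    rw [Finset.sum_congr rfl fun k _ => h8 k, Finset.sum_sub_distrib, Finset.sum_eq_single m]
    · rw [Pi.single_eq_same, mul_one]
    · intro b _ hb
      rw [Pi.single_eq_of_ne hb.symm, mul_zero]
    · intro hm
      exact absurd (Finset.mem_univ m) hm
  rw [h7] at h6
  have h9 := congrArg st h6
  rw [map_sub, map_sum, hmul, hinv] at h9
  rw [← h9]
  congr 1
  refine Finset.sum_congr rfl fun k _ => ?_
  rw [hmul, hinv]

end PFC
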