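import Pool.Agent.PFC.Defs

/-!
# PFC-KSep: intersection of the powers of the augmentation ideal on a free module
-/

set_option autoImplicit false

open CategoryTheory
open scoped commutatorElement

namespace PFC

theorem sep_pi {Q : Type} [Group Q] (hQ : Sep Q) {ι : Type} (x : ι → GR Q)
    (hx : ∀ j, x ∈ (PF.aug (Q := Q) (M := ι → GR Q))^[j] ⊤) : x = 0 := by
  have key : ∀ (i : ι) (j : ℕ) (y : ι → GR Q),
      y ∈ (PF.aug (Q := Q) (M := ι → GR Q))^[j] ⊤ → y i ∈ (PF.aug (Q := Q) (M := GR Q))^[j] ⊤ := by
    intro i j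
    induction j with
    | zero => exact fun _ _ => trivial
    | succ j ih =>
      intro y hy
      rw [Function.iterate_succ_apply'] at hy ⊢
      refine Submodule.span_induction
        (p := fun y _ => y i ∈ PF.aug (Q := Q) (M := GR Q) ((PF.aug (Q := Q) (M := GR Q))^[j] ⊤))
        ?_ ?_ ?_ ?_ hy
      · rintro _ ⟨q, m, hm, rfl⟩
        exact Submodule.subset_span ⟨q, m i, ih m hm, rfl⟩
      · exact Submodule.zero_mem _
      · intro a b _ _ ha hb
        exact Submodule.add_mem _ ha hb
      · intro c a _ ha
        exact Submodule.smul_mem _ c ha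
  funext i
  exact hQ (x i) (fun j => key i j x (hx j))

end PFC
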