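import Pool.Agent.PFC.KDer
import Pool.Agent.PFC.KAug

/-!
# PFC-KVan: derivations on the lower central series, descent of derivations
-/

set_option autoImplicit false

open CategoryTheory
open scoped commutatorElement

namespace PFC

private theorem el_one' {Q : Type} [Group Q] : (el (1 : Q) : GR Q) = 1 := map_one _

private theorem el_mul' {Q : Type} [Group Q] (a b : Q) : (el (a * b) : GR Q) = el a * el b :=
  map_mul _ _ _

private theorem der_comm {G Q : Type} [Group G] [Group Q] (θ : G →* Q) {M : Type}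
    [AddCommGroup M] [Module (GR Q) M] {D : G → M} (hD : IsDer θ D) (u v : G) (hu : θ u = 1) :
    D ⁅u, v⁆ = -((el (θ v) : GR Q) • D u - D u) := by
  have e1 : θ (u * v) = θ v := by rw [map_mul, hu, one_mul]
  have e2 : θ (u * v * u⁻¹) = θ v := by rw [map_mul, e1, map_inv, hu, inv_one, mul_one]
  rw [commutatorElement_def, hD (u * v * u⁻¹) v⁻¹, hD (u * v) u⁻¹, hD u v, e1, e2,
    der_inv θ hD u, der_inv θ hD v, hu, inv_one, el_one', one_smul, one_smul, smul_neg, smul_neg,
    ← mul_smul, ← el_mul', mul_inv_cancel, el_one', one_smul]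
  abel

theorem der_gam {G Q : Type} [Group G] [Group Q] (θ : G →* Q) {M : Type} [AddCommGroup M]
    [Module (GR Q) M] {D : G → M} (hD : IsDer θ D) (n : ℕ) (hn : PF.gam G n ≤ θ.ker) (j : ℕ)
    (g : G) (hg : g ∈ PF.gam G (n + j)) : D g ∈ (PF.aug (Q := Q) (M := M))^[j] ⊤ := by
  induction j generalizing g with
  | zero => trivial
  | succ j ih =>
    have hle : PF.gam G (n + j) ≤ θ.ker :=
      le_trans (Subgroup.lowerCentralSeries_antitone _ (Nat.le_add_right n j)) hn
    have hle' : PF.gam G (n + (j + 1)) ≤ θ.ker :=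
      le_trans (Subgroup.lowerCentralSeries_antitone _ (Nat.le_add_right n (j + 1))) hn
    rw [Function.iterate_succ_apply']
    have hg' : g ∈ ⁅PF.gam G (n + j), (⊤ : Subgroup G)⁆ := hg
    rw [Subgroup.commutator_def] at hg'
    have hk : ∀ x ∈ Subgroup.closure {g | ∃ g₁ ∈ PF.gam G (n + j), ∃ g₂ ∈ (⊤ : Subgroup G),
        ⁅g₁, g₂⁆ = g}, θ x = 1 := by
      intro x hx
      have hx' : x ∈ ⁅PF.gam G (n + j), (⊤ : Subgroup G)⁆ := by
        rw [Subgroup.commutator_def]; exact hx
      exact hle' hx'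
    refine Subgroup.closure_induction
      (p := fun x _ => D x ∈ PF.aug (Q := Q) (M := M) ((PF.aug (Q := Q) (M := M))^[j] ⊤))
      ?_ ?_ ?_ ?_ hg'
    · rintro _ ⟨u, hu, v, _, rfl⟩
      rw [der_comm θ hD u v (hle hu)]
      exact Submodule.neg_mem _ (Submodule.subset_span ⟨θ v, D u, ih u hu, rfl⟩)
    · rw [der_one θ hD]
      exact Submodule.zero_mem _
    · intro x y hx _ h1 h2
      rw [hD, hk x hx, el_one', one_smul]
      exact Submodule.add_mem _ h1 h2
    · intro x hx h1
      rw [der_inv θ hD, hk x hx, inv_one, el_one', one_smul]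
      exact Submodule.neg_mem _ h1

theorem der_ker {F G Q : Type} [Group F] [Group G] [Group Q] (π : F →* G)
    (hπ : Function.Surjective π) (θ : G →* Q) {M : Type} [AddCommGroup M] [Module (GR Q) M]
    (D : F → M) (hD : IsDer (θ.comp π) D) (n : ℕ) (hn : PF.gam F n ≤ (θ.comp π).ker)
    (hM : ∀ x : M, (∀ j, x ∈ (PF.aug (Q := Q) (M := M))^[j] ⊤) → x = 0)
    (J : Type) (r : J → F) (hr1 : ∀ j, π (r j) = 1) (hr2 : ∀ j, D (r j) = 0)
    (hker : ∀ m : ℕ, π.ker ≤ Subgroup.normalClosure (Set.range r) ⊔ PF.gam F m) :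
    ∃ D' : G → M, IsDer θ D' ∧ ∀ x, D' (π x) = D x := by
  -- elements of the kernel of `π` with `D = 0`
  let N : Subgroup F :=
    { carrier := {x | π x = 1 ∧ D x = 0}
      mul_mem' := by
        rintro a b ⟨ha1, ha2⟩ ⟨hb1, hb2⟩
        exact ⟨by rw [map_mul, ha1, hb1, one_mul], by rw [hD, ha2, hb2, smul_zero, add_zero]⟩
      one_mem' := ⟨map_one _, der_one _ hD⟩
      inv_mem' := by
        rintro a ⟨ha1, ha2⟩
        exact ⟨by rw [map_inv, ha1, inv_one], by rw [der_inv _ hD, ha2, smul_zero, neg_zero]⟩ }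
  have hNn : N.Normal := by
    refine ⟨fun s hs g => ?_⟩
    obtain ⟨h1, h2⟩ := hs
    refine ⟨by rw [map_mul, map_mul, h1, mul_one, map_inv, mul_inv_cancel], ?_⟩
    rw [hD, hD, h2, smul_zero, add_zero, der_inv _ hD, map_mul]
    have e : (θ.comp π) s = 1 := by
      show θ (π s) = 1
      rw [h1, map_one]
    rw [e, mul_one, smul_neg, ← mul_smul, ← el_mul', mul_inv_cancel, el_one', one_smul,
      add_neg_cancel]
  have hSN : Subgroup.normalClosure (Set.range r) ≤ N := by
    apply Subgroup.normalClosure_le_normal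
    rintro _ ⟨j, rfl⟩
    exact ⟨hr1 j, hr2 j⟩
  have hk : ∀ y, π y = 1 → D y = 0 := by
    intro y hy
    apply hM
    intro m
    obtain ⟨s, hs, c, hc, rfl⟩ := Subgroup.mem_sup_of_normal_right.1 (hker (n + m) hy)
    have hs' := hSN hs
    have e : (θ.comp π) s = 1 := by
      show θ (π s) = 1
      rw [hs'.1, map_one]
    rw [hD, hs'.2, zero_add, e, el_one', one_smul]
    exact der_gam (θ.comp π) hD n hn m c hc
  have hfac : ∀ a b, π a = π b → D a = D b := by
    intro a b hab
    have h1 : D (b⁻¹ * a) = 0 := by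
      apply hk
      rw [map_mul, map_inv, hab, inv_mul_cancel]
    have h2 : D (b * (b⁻¹ * a)) = D b := by
      rw [hD, h1, smul_zero, add_zero]
    rw [mul_inv_cancel_left] at h2
    exact h2
  refine ⟨fun g => D (Function.surjInv hπ g), ?_, ?_⟩
  · intro g h
    show D (Function.surjInv hπ (g * h)) = _
    have e : D (Function.surjInv hπ (g * h)) =
        D (Function.surjInv hπ g * Function.surjInv hπ h) := by
      apply hfac
      rw [map_mul, Function.surjInv_eq hπ, Function.surjInv_eq hπ, Function.surjInv_eq hπ]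
    rw [e, hD]
    congr 2
    show el (θ (π (Function.surjInv hπ g))) = el (θ g)
    rw [Function.surjInv_eq hπ]
  · intro x
    apply hfac
    rw [Function.surjInv_eq hπ]

end PFC
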