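import Pool.Agent.PFC.KDer
import Pool.Agent.PFC.KVan
import Pool.Agent.PFC.KSep
import Pool.Agent.PFC.KOreR

/-!
# PFC-KTwo (1.0h)
PLAN. Write `X i := el (θ (x i)) - 1`. (1) The `θ (x i)` generate `Q` (`hx n`, `gam G n ≤ θ.ker`, `θ` surjective), so `aug_gen` applies.
(2) `right_ore` with `κ = Unit`, `J = 1 - s`, `P i () = X i` gives `s'` with `eps s' = 1` and `X i * s' = s * lam i`, so `eps (lam i) = 0`, and
`lam i = Σ_j A i j * X j` (`aug_gen`); also `s' - 1 = Σ_j c j * X j`.
(3) `D' g j := Σ_i D g i * A i j - (el (θ g) - 1) * c j`: a derivation over `θ` (`(el(θ(gh)) - 1) = (el(θ g) - 1) + el(θ g) * (el(θ h) - 1)`).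
(4) `δ g := Σ_j D' g j * X j - (el (θ g) - 1)` is a derivation `G → GR Q` (left module), and `δ (x i) = s * lam i - X i * (s' - 1) - X i = 0`.
(5) `δ = 0` on the subgroup generated by the `x i` (`der_one`, `der_inv`), and for every `m` each `g` is `h * c` with `h` in it and `c ∈ gam G (n+m)`
(`hx`, `Subgroup.mem_sup_of_normal_right`), so `δ g = el (θ h) • δ c ∈ aug^[m] ⊤` (`der_gam`); `hsep` gives `δ g = 0`.
-/

set_option autoImplicit false

open CategoryTheory
open scoped commutatorElement

namespace PFC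

theorem key_two (G Q : Type) [Group G] [Group Q] (θ : G →* Q) (hθ : Function.Surjective θ) (n : ℕ)
    (hn : PF.gam G n ≤ θ.ker) (hsep : Sep Q) (l : ℕ) (t : ℕ → Q) (ht : PF.IsChain Q l t)
    (ι : Type) [Fintype ι] [DecidableEq ι] (x : ι → G)
    (hx : ∀ m : ℕ, Subgroup.closure (Set.range x) ⊔ PF.gam G m = ⊤) (s : GR Q)
    (hs : eps Q s = 1) (D : G → ι → GR Q) (hD : IsDer θ D) (hDx : ∀ i, D (x i) = Pi.single i s) :
    ∃ D' : G → ι → GR Q, IsDer θ D' ∧
      ∀ g, ∑ i, D' g i * (el (θ (x i)) - 1) = el (θ g) - 1 := by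
  classical
  let X : ι → GR Q := fun i => el (θ (x i)) - 1
  have hXe : ∀ i, eps Q (X i) = 0 := by
    intro i
    show eps Q (el (θ (x i)) - 1) = 0
    rw [map_sub, eps_el, map_one, sub_self]
  have hgen : Subgroup.closure (Set.range fun i => θ (x i)) = ⊤ := by
    have h1 : (Subgroup.closure (Set.range x) ⊔ PF.gam G n).map θ = ⊤ := by
      rw [hx n, Subgroup.map_top_of_surjective θ hθ]
    rw [Subgroup.map_sup] at h1
    have h2 : (PF.gam G n).map θ = ⊥ := (Subgroup.map_eq_bot_iff _).2 hn
    rw [h2, sup_bot_eq, MonoidHom.map_closure, ← Set.range_comp] at h1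
    exact h1
  obtain ⟨s', hs', W, hW⟩ := right_ore Q l t ht Unit ι (fun _ _ => 1 - s)
    (by intro _ _; rw [map_sub, map_one, hs, sub_self]) (fun i _ => X i)
  have hW' : ∀ i, X i * s' = s * W i () := by
    intro i
    have h := hW i ()
    rw [Fintype.sum_unique] at h
    rw [h]
    show W i () - (1 - s) * W i () = s * W i ()
    rw [sub_mul, one_mul, sub_sub_cancel]
  have hlam : ∀ i, eps Q (W i ()) = 0 := by
    intro i
    have h := congrArg (eps Q) (hW' i)
    rw [map_mul, map_mul, hXe, hs, zero_mul, one_mul] at h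
    exact h.symm
  choose A hA using fun i => aug_gen (fun i => θ (x i)) hgen (W i ()) (hlam i)
  obtain ⟨c, hc⟩ := aug_gen (fun i => θ (x i)) hgen (s' - 1)
    (by rw [map_sub, hs', map_one, sub_self])
  let D' : G → ι → GR Q := fun g j => ∑ i, D g i * A i j - (el (θ g) - 1) * c j
  have hel : ∀ g h : G, (el (θ (g * h)) : GR Q) = el (θ g) * el (θ h) := by
    intro g h
    rw [map_mul, el, map_mul]
  have hD' : IsDer θ D' := by
    intro g h
    funext j
    show ∑ i, D (g * h) i * A i j - (el (θ (g * h)) - 1) * c j =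
      (∑ i, D g i * A i j - (el (θ g) - 1) * c j) +
        el (θ g) * (∑ i, D h i * A i j - (el (θ h) - 1) * c j)
    have h1 : ∀ i, D (g * h) i = D g i + el (θ g) * D h i := fun i => congrFun (hD g h) i
    have h2 : ∑ i, D (g * h) i * A i j =
        ∑ i, D g i * A i j + el (θ g) * ∑ i, D h i * A i j := by
      rw [Finset.mul_sum, ← Finset.sum_add_distrib]
      refine Finset.sum_congr rfl fun i _ => ?_
      rw [h1, add_mul, mul_assoc]
    rw [h2, hel]
    noncomm_ring
  let δ : G → GR Q := fun g => ∑ j, D' g j * X j - (el (θ g) - 1)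
  have hδ : IsDer θ δ := by
    intro g h
    show ∑ j, D' (g * h) j * X j - (el (θ (g * h)) - 1) =
      (∑ j, D' g j * X j - (el (θ g) - 1)) +
        el (θ g) * (∑ j, D' h j * X j - (el (θ h) - 1))
    have h1 : ∀ i, D' (g * h) i = D' g i + el (θ g) * D' h i := fun i => congrFun (hD' g h) i
    have h2 : ∑ i, D' (g * h) i * X i =
        ∑ i, D' g i * X i + el (θ g) * ∑ i, D' h i * X i := by
      rw [Finset.mul_sum, ← Finset.sum_add_distrib]
      refine Finset.sum_congr rfl fun i _ => ?_
      rw [h1, add_mul, mul_assoc]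
    rw [h2, hel]
    noncomm_ring
  have hδx : ∀ i, δ (x i) = 0 := by
    intro i
    have h1 : ∀ j, D' (x i) j = s * A i j - X i * c j := by
      intro j
      show ∑ k, D (x i) k * A k j - (el (θ (x i)) - 1) * c j = s * A i j - X i * c j
      have h2 : ∑ k, D (x i) k * A k j = s * A i j := by
        rw [Finset.sum_eq_single i]
        · rw [hDx, Pi.single_eq_same]
        · intro k _ hk
          rw [hDx, Pi.single_eq_of_ne hk, zero_mul]
        · intro h
          exact absurd (Finset.mem_univ i) h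
      rw [h2]
    show ∑ j, D' (x i) j * X j - X i = 0
    have h3 : ∑ j, D' (x i) j * X j = s * W i () - X i * (s' - 1) := by
      rw [hA i, hc, Finset.mul_sum, Finset.mul_sum, ← Finset.sum_sub_distrib]
      refine Finset.sum_congr rfl fun j _ => ?_
      rw [h1, sub_mul, mul_assoc, mul_assoc]
    rw [h3, ← hW', mul_sub, mul_one]
    abel
  have hz : ∀ g ∈ Subgroup.closure (Set.range x), δ g = 0 := by
    intro g hg
    induction hg using Subgroup.closure_induction with
    | mem y hy => obtain ⟨i, rfl⟩ := hy; exact hδx i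
    | one => exact der_one θ hδ
    | mul a b _ _ ha hb => rw [hδ a b, ha, hb, smul_zero, add_zero]
    | inv a _ ha => rw [der_inv θ hδ, ha, smul_zero, neg_zero]
  have hall : ∀ g, δ g = 0 := by
    intro g
    apply hsep
    intro m
    have h1 : g ∈ Subgroup.closure (Set.range x) ⊔ PF.gam G (n + m) := by
      rw [hx]
      trivial
    obtain ⟨h, hh, y, hy, rfl⟩ := Subgroup.mem_sup_of_normal_right.1 h1
    rw [hδ h y, hz h hh, zero_add]
    exact Submodule.smul_mem _ _ (der_gam θ hδ n hn m y hy)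
  exact ⟨D', hD', fun g => sub_eq_zero.1 (hall g)⟩

end PFC
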