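import Pool.Agent.PFC.RFree

/-!
# PFC-RPar
`Sep` transports along an isomorphism of groups, and the quotients `G ⧸ gam G n` of a finitely generated parafree
group are isomorphic to those of a free group of finite rank.
-/

set_option autoImplicit false

open CategoryTheory
open scoped commutatorElement

namespace PFC

theorem sep_of_equiv {Q Q' : Type} [Group Q] [Group Q'] (e : Q ≃* Q') (h : Sep Q') : Sep Q := by
  classical
  let f : GR Q ≃+* GR Q' := MonoidAlgebra.mapDomainRingEquiv ℤ e
  have hf : ∀ q : Q, f (MonoidAlgebra.of ℤ Q q) = MonoidAlgebra.of ℤ Q' (e q) := by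
    intro q
    show MonoidAlgebra.mapDomainRingEquiv ℤ e (MonoidAlgebra.of ℤ Q q) = MonoidAlgebra.of ℤ Q' (e q)
    rw [MonoidAlgebra.of_apply, MonoidAlgebra.of_apply]
    simp
  have key : ∀ j : ℕ, ∀ x ∈ (PF.aug (Q := Q) (M := GR Q))^[j] ⊤,
      f x ∈ (PF.aug (Q := Q') (M := GR Q'))^[j] ⊤ := by
    intro j
    induction j with
    | zero => intro x _; exact Submodule.mem_top
    | succ j ih =>
      intro x hx
      rw [Function.iterate_succ_apply'] at hx ⊢
      refine Submodule.span_induction
        (p := fun x _ => f x ∈ PF.aug ((PF.aug (Q := Q') (M := GR Q'))^[j] ⊤)) ?_ ?_ ?_ ?_ hx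
      · rintro _ ⟨q, m, hm, rfl⟩
        rw [map_sub, smul_eq_mul, map_mul, hf]
        exact Submodule.subset_span ⟨e q, f m, ih m hm, rfl⟩
      · rw [map_zero]
        exact zero_mem _
      · intro a b _ _ ha hb
        rw [map_add]
        exact add_mem ha hb
      · intro r a _ ha
        rw [smul_eq_mul, map_mul]
        exact Submodule.smul_mem _ _ ha
  intro x hx
  have h1 := h (f x) (fun j => key j x (hx j))
  exact (map_eq_zero_iff f f.injective).1 h1

/-- The free abelian quotient of a free group is finitely generated only if the rank is finite. -/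
private theorem finite_of_fg (X : Type)
    (h : Group.FG (FreeGroup X ⧸ PF.gam (FreeGroup X) 1)) : Finite X := by
  classical
  let f : FreeGroup X →* Multiplicative (X →₀ ℤ) :=
    FreeGroup.lift fun x => Multiplicative.ofAdd (Finsupp.single x 1)
  have hf : Function.Surjective f := by
    rw [← MonoidHom.range_eq_top, eq_top_iff]
    intro z _
    induction z using Multiplicative.rec with
    | ofAdd z =>
      induction z using Finsupp.induction_linear with
      | zero => exact one_mem _
      | add a b ha hb =>
        exact mul_mem (ha (Subgroup.mem_top _)) (hb (Subgroup.mem_top _))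
      | single x n =>
        refine ⟨FreeGroup.of x ^ n, ?_⟩
        rw [map_zpow]
        have : f (FreeGroup.of x) = Multiplicative.ofAdd (Finsupp.single x 1) :=
          FreeGroup.lift_apply_of
        rw [this, ← ofAdd_zsmul, Finsupp.smul_single]
        simp
  have hk : PF.gam (FreeGroup X) 1 ≤ f.ker := by
    have h0 : PF.gam (FreeGroup X) 1 = commutator (FreeGroup X) :=
      Subgroup.top_lowerCentralSeries_one
    rw [h0]
    exact Abelianization.commutator_subset_ker f
  let g : FreeGroup X ⧸ PF.gam (FreeGroup X) 1 →* Multiplicative (X →₀ ℤ) :=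
    QuotientGroup.lift _ f hk
  have hg : Function.Surjective g := by
    intro z
    obtain ⟨y, hy⟩ := hf z
    exact ⟨QuotientGroup.mk y, hy⟩
  have h1 : Group.FG (Multiplicative (X →₀ ℤ)) := Group.fg_of_surjective hg
  have h2 : AddGroup.FG (X →₀ ℤ) := by
    exact AddGroup.fg_iff_mul_fg.2 h1
  have h3 : Module.Finite ℤ (X →₀ ℤ) := Module.Finite.iff_addGroup_fg.2 h2
  exact Module.Finite.finite_basis (Finsupp.basisSingleOne (R := ℤ) (ι := X))

theorem sep_parafree (G : Type) [Group G] [Group.FG G] (hG : PF.IsParafree G) (n : ℕ) :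
    Sep (G ⧸ PF.gam G n) := by
  obtain ⟨-, X, hX⟩ := hG
  have hfin : Finite X := by
    apply finite_of_fg
    exact Group.fg_of_surjective (f := (Classical.choice (hX 1)).toMonoidHom)
      (Classical.choice (hX 1)).surjective
  exact sep_of_equiv (Classical.choice (hX n)) (sep_free X n)

end PFC
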