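import Pool.Agent.PFC.KOne
import Pool.Agent.PFC.KTwo
import Pool.Agent.PFC.RPar
import Pool.Agent.PF.Levine
import Pool.Agent.PF.Chain

/-!
# PFC-KMain: the key derivation for finitely generated parafree groups.
-/

set_option autoImplicit false

open CategoryTheory
open scoped commutatorElement

namespace PFC

theorem key (G : Type) [Group G] [Group.FG G] (hG : PF.IsParafree G) (n : ℕ) :
    ∃ (ι : Type) (_ : Fintype ι) (x : ι → G) (D : G → ι → GR (G ⧸ PF.gam G n)),
      IsDer (QuotientGroup.mk' (PF.gam G n)) D ∧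
      ∀ g, ∑ i, D g i * (el (QuotientGroup.mk' (PF.gam G n) (x i)) - 1) =
        el (QuotientGroup.mk' (PF.gam G n) g) - 1 := by
  classical
  obtain ⟨ι, κ, hι, hκ, π, w, hπ, hw, hrel, hker⟩ := PF.levine G hG
  let _ : Fintype ι := Fintype.ofFinite ι
  let _ : Fintype κ := Fintype.ofFinite κ
  have hQ : PF.gam (G ⧸ PF.gam G n) n = ⊥ := by
    have h1 := Subgroup.map_lowerCentralSeries (S := (⊤ : Subgroup G))
      (QuotientGroup.mk' (PF.gam G n)) n
    rw [Subgroup.map_top_of_surjective _ (QuotientGroup.mk'_surjective _)] at h1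
    change (⊤ : Subgroup (G ⧸ PF.gam G n)).lowerCentralSeries n = ⊥
    rw [← h1, QuotientGroup.map_mk'_self]
  obtain ⟨l, t, ht⟩ := PF.exists_chain (G ⧸ PF.gam G n) n hQ
  have hsep : Sep (G ⧸ PF.gam G n) := sep_parafree G hG n
  have hn : PF.gam G n ≤ (QuotientGroup.mk' (PF.gam G n)).ker := by
    rw [QuotientGroup.ker_mk']
  obtain ⟨s, D, hs, hD, hDx⟩ := key_one G (G ⧸ PF.gam G n) (QuotientGroup.mk' (PF.gam G n)) n hn
    hsep l t ht ι κ π w hπ hw hrel hker
  have hcomm : (commutator (FreeGroup (ι ⊕ κ))).map π = commutator G := by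
    rw [commutator_def, Subgroup.map_commutator, ← MonoidHom.range_eq_map,
      MonoidHom.range_eq_top.2 hπ, ← commutator_def]
  have hA : Subgroup.closure (Set.range fun i => π (FreeGroup.of (Sum.inl i))) ⊔ commutator G =
      ⊤ := by
    have h1 : (⊤ : Subgroup (FreeGroup (ι ⊕ κ))).map π = ⊤ :=
      Subgroup.map_top_of_surjective π hπ
    rw [eq_top_iff, ← h1, ← FreeGroup.closure_range_of, MonoidHom.map_closure,
      Subgroup.closure_le]
    rintro _ ⟨_, ⟨(i | j), rfl⟩, rfl⟩
    · exact Subgroup.mem_sup_left (Subgroup.subset_closure ⟨i, rfl⟩)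
    · apply Subgroup.mem_sup_right
      rw [hrel j, ← hcomm]
      exact Subgroup.mem_map_of_mem π (hw j)
  have hx : ∀ m : ℕ, Subgroup.closure (Set.range fun i => π (FreeGroup.of (Sum.inl i))) ⊔
      PF.gam G m = ⊤ := fun m => PF.gen_of_comm G _ hA m
  obtain ⟨D', hD', hsum⟩ := key_two G (G ⧸ PF.gam G n) (QuotientGroup.mk' (PF.gam G n))
    (QuotientGroup.mk'_surjective _) n hn hsep l t ht ι
    (fun i => π (FreeGroup.of (Sum.inl i))) hx s hs D hD hDx
  exact ⟨ι, inferInstance, fun i => π (FreeGroup.of (Sum.inl i)), D', hD', hsum⟩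

end PFC
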