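import Pool.Agent.PFC.KFox
import Pool.Agent.PFC.KVan
import Pool.Agent.PFC.KSep
import Pool.Agent.PFC.KOreR

/-!
# PFC-KOne: first derivation on `G` from the Fox Jacobian of a Levine presentation

A derivation on the free group is chosen such that it vanishes on the relators
`(of (inr k))⁻¹ * w k` (right Ore property for the Fox Jacobian); it descends to `G` by `der_ker`.
-/

set_option autoImplicit false

open CategoryTheory
open scoped commutatorElement

namespace PFC

theorem key_one (G Q : Type) [Group G] [Group Q] (θ : G →* Q) (n : ℕ)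
    (hn : PF.gam G n ≤ θ.ker) (hsep : Sep Q) (l : ℕ) (t : ℕ → Q) (ht : PF.IsChain Q l t)
    (ι κ : Type) [Fintype ι] [DecidableEq ι] [Fintype κ] (π : FreeGroup (ι ⊕ κ) →* G)
    (w : κ → FreeGroup (ι ⊕ κ)) (hπ : Function.Surjective π)
    (hw : ∀ j, w j ∈ commutator (FreeGroup (ι ⊕ κ)))
    (hrel : ∀ j, π (FreeGroup.of (Sum.inr j)) = π (w j))
    (hker : ∀ m : ℕ, π.ker ≤ Subgroup.normalClosure
      (Set.range fun j => (FreeGroup.of (Sum.inr j) : FreeGroup (ι ⊕ κ))⁻¹ * w j) ⊔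
      PF.gam (FreeGroup (ι ⊕ κ)) m) :
    ∃ (s : GR Q) (D : G → ι → GR Q), eps Q s = 1 ∧ IsDer θ D ∧
      ∀ i, D (π (FreeGroup.of (Sum.inl i))) = Pi.single i s := by
  obtain ⟨fox, hfox, hfe⟩ := exists_fox (θ.comp π)
  obtain ⟨s, hs, W, hW⟩ := right_ore Q l t ht κ ι (fun k l => fox (w k) (Sum.inr l))
    (fun k l => hfe (w k) (hw k) (Sum.inr l)) (fun i k => fox (w k) (Sum.inl i))
  obtain ⟨D, hD, hDz⟩ := exists_der (θ.comp π) (M := ι → GR Q)
    (Sum.elim (fun i => Pi.single i s) fun k i => W i k)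
  have hDl : ∀ i, D (FreeGroup.of (Sum.inl i)) = Pi.single i s := fun i => hDz (Sum.inl i)
  have hDr : ∀ k, D (FreeGroup.of (Sum.inr k)) = fun i => W i k := fun k => hDz (Sum.inr k)
  have hDw : ∀ k, D (w k) = D (FreeGroup.of (Sum.inr k)) := by
    intro k
    rw [hDr, hfox (ι → GR Q) D hD (w k)]
    funext i
    rw [Finset.sum_apply, Fintype.sum_sum_type]
    have h1 : ∑ i', (fox (w k) (Sum.inl i') • D (FreeGroup.of (Sum.inl i'))) i =
        fox (w k) (Sum.inl i) * s := by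
      rw [Finset.sum_eq_single i]
      · rw [hDl, Pi.smul_apply, Pi.single_eq_same, smul_eq_mul]
      · intro i' _ hne
        rw [hDl, Pi.smul_apply, Pi.single_eq_of_ne hne.symm, smul_zero]
      · intro h
        exact absurd (Finset.mem_univ i) h
    have h2 : ∑ l, (fox (w k) (Sum.inr l) • D (FreeGroup.of (Sum.inr l))) i =
        ∑ l, fox (w k) (Sum.inr l) * W i l := by
      refine Finset.sum_congr rfl fun l _ => ?_
      rw [hDr, Pi.smul_apply, smul_eq_mul]
    rw [h1, h2, hW i k]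
    abel
  have hrel1 : ∀ k, π ((FreeGroup.of (Sum.inr k) : FreeGroup (ι ⊕ κ))⁻¹ * w k) = 1 := by
    intro k
    rw [map_mul, map_inv, hrel, inv_mul_cancel]
  have hrel2 : ∀ k, D ((FreeGroup.of (Sum.inr k) : FreeGroup (ι ⊕ κ))⁻¹ * w k) = 0 := by
    intro k
    rw [hD, der_inv _ hD, hDw, map_inv, neg_add_cancel]
  have hnF : PF.gam (FreeGroup (ι ⊕ κ)) n ≤ (θ.comp π).ker := by
    intro x hx
    have h1 : π x ∈ PF.gam G n := by
      have h2 : π x ∈ (PF.gam (FreeGroup (ι ⊕ κ)) n).map π := Subgroup.mem_map_of_mem π hx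
      rw [PF.gam, Subgroup.map_lowerCentralSeries, Subgroup.map_top_of_surjective π hπ] at h2
      exact h2
    exact hn h1
  obtain ⟨D', hD', hDD⟩ := der_ker π hπ θ D hD n hnF (fun x hx => sep_pi hsep x hx) κ
    (fun k => (FreeGroup.of (Sum.inr k) : FreeGroup (ι ⊕ κ))⁻¹ * w k) hrel1 hrel2 hker
  refine ⟨s, D', hs, hD', fun i => ?_⟩
  rw [hDD, hDl]

end PFC
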