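import Pool.Agent.PFC.Defs

/-!
# PFC-MCom
Magnus expansion `mu k g` (coefficient of `t^k`, in the free ring): leading terms of products, inverses and
commutators. Only `mu_zero`, `mu_mul`, `mu_one` of Defs are used.
-/

set_option autoImplicit false

open CategoryTheory
open scoped commutatorElement

namespace PFC

private theorem mu_mul_mid {X : Type} {k : ℕ} (hk : 0 < k) {g h : FreeGroup X}
    (hm : ∀ i, 0 < i → i < k → mu i g * mu (k - i) h = 0) : mu k (g * h) = mu k g + mu k h := by
  rw [mu_mul, Finset.sum_range_succ, Nat.sub_self, mu_zero h, mul_one,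
    Finset.sum_eq_single_of_mem 0 (Finset.mem_range.2 hk) fun i hi h0 =>
      hm i (Nat.pos_of_ne_zero h0) (Finset.mem_range.1 hi), Nat.sub_zero, mu_zero g, one_mul, add_comm]

private theorem mu_mul_mid' {X : Type} {k a : ℕ} (ha : 0 < a) (hak : a < k) {g h : FreeGroup X}
    (hm : ∀ i, 0 < i → i < k → i ≠ a → mu i g * mu (k - i) h = 0) :
    mu k (g * h) = mu k g + mu a g * mu (k - a) h + mu k h := by
  have hk : 0 < k := ha.trans hak
  have h1 : ∑ i ∈ Finset.range k, mu i g * mu (k - i) h = mu k h + mu a g * mu (k - a) h := by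
    rw [← Finset.add_sum_erase _ _ (Finset.mem_range.2 hk), Nat.sub_zero, mu_zero g, one_mul]
    congr 1
    refine Finset.sum_eq_single_of_mem a ?_ fun i hi h0 => ?_
    · exact Finset.mem_erase.2 ⟨ha.ne', Finset.mem_range.2 hak⟩
    · rw [Finset.mem_erase, Finset.mem_range] at hi
      exact hm i (Nat.pos_of_ne_zero hi.1) hi.2 h0
  rw [mu_mul, Finset.sum_range_succ, Nat.sub_self, mu_zero h, mul_one, h1]
  abel

theorem muDeep_mul {X : Type} (k : ℕ) (g h : FreeGroup X) (hg : MuDeep k g) (hh : MuDeep k h) :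
    MuDeep k (g * h) := by
  intro i hi hik
  rw [mu_mul_mid hi fun j hj hji => by rw [hg j hj (hji.trans hik), zero_mul], hg i hi hik, hh i hi hik, add_zero]

theorem mu_mul_deep {X : Type} (k : ℕ) (hk : 0 < k) (g h : FreeGroup X) (hg : MuDeep k g)
    (hh : MuDeep k h) : mu k (g * h) = mu k g + mu k h := by
  exact mu_mul_mid hk fun j hj hjk => by rw [hg j hj hjk, zero_mul]

theorem mu_mul_right {X : Type} (k i : ℕ) (hi : i < k) (g z : FreeGroup X) (hz : MuDeep k z) :
    mu i (g * z) = mu i g := by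
  rw [mu_mul, Finset.sum_eq_single_of_mem i (Finset.mem_range.2 (Nat.lt_succ_self i)) fun j hj h0 => ?_, Nat.sub_self,
    mu_zero, mul_one]
  have hji := Finset.mem_range.1 hj
  rw [hz (i - j) (by omega) (by omega), mul_zero]

theorem mu_mul_left {X : Type} (k i : ℕ) (hi : i < k) (g z : FreeGroup X) (hz : MuDeep k z) :
    mu i (z * g) = mu i g := by
  rw [mu_mul, Finset.sum_eq_single_of_mem 0 (Finset.mem_range.2 (Nat.succ_pos i)) fun j hj h0 => ?_, Nat.sub_zero,
    mu_zero, one_mul]
  have hji := Finset.mem_range.1 hj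
  rw [hz j (by omega) (by omega), zero_mul]

theorem mu_inv_deep {X : Type} (k : ℕ) (hk : 0 < k) (g : FreeGroup X) (hg : MuDeep k g) :
    MuDeep k g⁻¹ ∧ mu k g⁻¹ = - mu k g := by
  have key : ∀ i, 0 < i → i ≤ k → mu i g⁻¹ = - mu i g := by
    intro i hi hik
    have h1 := mu_mul_mid hi (g := g) (h := g⁻¹) fun j hj hji => by rw [hg j hj (by omega), zero_mul]
    rw [mul_inv_cancel, mu_one i hi.ne'] at h1
    exact (neg_eq_of_add_eq_zero_right h1.symm).symm
  refine ⟨fun i hi hik => ?_, key k hk le_rfl⟩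
  rw [key i hi hik.le, hg i hi hik, neg_zero]

theorem mu_comm {X : Type} (a b : ℕ) (ha : 0 < a) (hb : 0 < b) (x y : FreeGroup X)
    (hx : MuDeep a x) (hy : MuDeep b y) :
    MuDeep (a + b) ⁅x, y⁆ ∧ mu (a + b) ⁅x, y⁆ = mu a x * mu b y - mu b y * mu a x := by
  have hc : ⁅x, y⁆ * (y * x) = x * y := by
    rw [commutatorElement_def]
    group
  have hlow : ∀ i, 0 < i → i < a + b → mu i (x * y) = mu i x + mu i y := by
    intro i hi hiab
    apply mu_mul_mid hi
    intro p hp hpi
    by_cases h1 : p < a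
    · rw [hx p hp h1, zero_mul]
    · rw [hy (i - p) (by omega) (by omega), mul_zero]
  have hlow' : ∀ i, 0 < i → i < a + b → mu i (y * x) = mu i y + mu i x := by
    intro i hi hiab
    apply mu_mul_mid hi
    intro p hp hpi
    by_cases h1 : p < b
    · rw [hy p hp h1, zero_mul]
    · rw [hx (i - p) (by omega) (by omega), mul_zero]
  have hd : MuDeep (a + b) ⁅x, y⁆ := by
    intro i
    induction i using Nat.strong_induction_on with
    | _ i ih =>
      intro hi hiab
      have h1 := mu_mul_mid hi (g := ⁅x, y⁆) (h := y * x) fun j hj hji => by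
        rw [ih j hji hj (hji.trans hiab), zero_mul]
      rw [hc, hlow i hi hiab, hlow' i hi hiab, add_comm (mu i y)] at h1
      exact (add_eq_right.1 h1.symm)
  refine ⟨hd, ?_⟩
  have h1 := mu_mul_mid (k := a + b) (by omega) (g := ⁅x, y⁆) (h := y * x) fun j hj hji => by
    rw [hd j hj hji, zero_mul]
  have h2 := mu_mul_mid' (k := a + b) ha (by omega) (g := x) (h := y) (by
    intro p hp hpi hne
    by_cases h1 : p < a
    · rw [hx p hp h1, zero_mul]
    · rw [hy (a + b - p) (by omega) (by omega), mul_zero])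
  have h3 := mu_mul_mid' (k := a + b) hb (by omega) (g := y) (h := x) (by
    intro p hp hpi hne
    by_cases h1 : p < b
    · rw [hy p hp h1, zero_mul]
    · rw [hx (a + b - p) (by omega) (by omega), mul_zero])
  rw [Nat.add_sub_cancel_left] at h2
  rw [Nat.add_sub_cancel] at h3
  rw [hc, h2, h3] at h1
  have h4 : mu (a + b) ⁅x, y⁆ = mu (a + b) x + mu a x * mu b y + mu (a + b) y -
      (mu (a + b) y + mu b y * mu a x + mu (a + b) x) := by
    rw [h1]; abel
  rw [h4]
  abel

end PFC
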