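import Pool.Agent.PFC.Defs

/-!
# PFC-MLcs: the lower central series is an `N`-series, and the smallest one

`gam_comm`: induction and the three subgroups lemma modulo a normal subgroup.
-/

set_option autoImplicit false

open CategoryTheory
open scoped commutatorElement

namespace PFC

private theorem mlcs_three {G : Type} [Group G] (N : Subgroup G) [N.Normal] (A B C : Subgroup G)
    (h1 : ⁅⁅B, C⁆, A⁆ ≤ N) (h2 : ⁅⁅C, A⁆, B⁆ ≤ N) : ⁅⁅A, B⁆, C⁆ ≤ N := by
  have e : ∀ H : Subgroup G, H ≤ N ↔ H.map (QuotientGroup.mk' N) = ⊥ := by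
    intro H
    rw [Subgroup.map_eq_bot_iff, QuotientGroup.ker_mk']
  rw [e, Subgroup.map_commutator, Subgroup.map_commutator] at h1 h2 ⊢
  exact Subgroup.commutator_commutator_eq_bot_of_rotate h1 h2

theorem gam_comm (G : Type) [Group G] (i j : ℕ) :
    ⁅PF.gam G i, PF.gam G j⁆ ≤ PF.gam G (i + j + 1) := by
  induction j generalizing i with
  | zero => exact le_refl _
  | succ j ih =>
    rw [Subgroup.commutator_comm]
    refine mlcs_three (PF.gam G (i + (j + 1) + 1)) (PF.gam G j) ⊤ (PF.gam G i) ?_ ?_
    · have h1 := ih (i + 1)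
      have h2 : i + 1 + j + 1 = i + (j + 1) + 1 := by omega
      rw [h2] at h1
      rw [Subgroup.commutator_comm ⊤ (PF.gam G i)]
      exact h1
    · exact Subgroup.commutator_mono (ih i) le_rfl

theorem nser_gam (G : Type) [Group G] : NSer (fun k => PF.gam G (k - 1)) := by
  refine ⟨fun i j hij => Subgroup.lowerCentralSeries_antitone _ (by omega), fun i j => ?_⟩
  show ⁅PF.gam G (i - 1), PF.gam G (j - 1)⁆ ≤ PF.gam G (i + j - 1)
  rcases i with _ | i
  · rw [Nat.zero_add]
    exact Subgroup.commutator_le_right _ _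
  · rcases j with _ | j
    · exact Subgroup.commutator_le_left _ _
    · have h1 := gam_comm G i j
      have h2 : i + 1 + (j + 1) - 1 = i + j + 1 := by omega
      rw [h2]
      exact h1

theorem gam_le_of_nser {H : Type} [Group H] (N : ℕ → Subgroup H) (hN : NSer N) (h1 : N 1 = ⊤)
    (k : ℕ) : PF.gam H k ≤ N (k + 1) := by
  induction k with
  | zero => rw [Nat.zero_add, h1]; exact le_top
  | succ k ih =>
    have h2 := hN.comm (k + 1) 1
    rw [h1] at h2
    exact (Subgroup.commutator_mono ih le_rfl).trans h2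

end PFC
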