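import Pool.Agent.PFC.MCom
import Pool.Agent.PFC.MLcs

/-!
# PFC-MDeep
The elements of `gam F k` (= the usual γ_{k+1}(F)) have no Magnus coefficients in degrees `1..k`.
-/

set_option autoImplicit false

open CategoryTheory
open scoped commutatorElement

namespace PFC

/-- the subgroup of the elements without Magnus coefficients in the degrees below `k` -/
private def mdN (X : Type) (k : ℕ) : Subgroup (FreeGroup X) where
  carrier := {g | MuDeep k g}
  mul_mem' := fun {a b} ha hb => muDeep_mul k a b ha hb
  one_mem' := by
    intro i hi _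
    exact mu_one i hi.ne'
  inv_mem' := by
    intro g hg
    rcases Nat.eq_zero_or_pos k with rfl | hk
    · intro i _ h
      exact absurd h (Nat.not_lt_zero i)
    · exact (mu_inv_deep k hk g hg).1

private theorem mem_mdN {X : Type} {k : ℕ} {g : FreeGroup X} : g ∈ mdN X k ↔ MuDeep k g := Iff.rfl

private theorem md_anti {X : Type} {i j : ℕ} (h : i ≤ j) {g : FreeGroup X} (hg : MuDeep j g) : MuDeep i g :=
  fun l h1 h2 => hg l h1 (h2.trans_le h)

private theorem md_one {X : Type} (g : FreeGroup X) : MuDeep 1 g := by
  intro i h1 h2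
  omega

private theorem md_nser (X : Type) : NSer (mdN X) := by
  refine ⟨fun i j hij g hg => md_anti hij hg, fun i j => ?_⟩
  rw [Subgroup.commutator_le]
  intro x hx y hy
  rw [mem_mdN] at hx hy ⊢
  rcases Nat.eq_zero_or_pos i with rfl | hi
  · rcases Nat.eq_zero_or_pos j with rfl | hj
    · intro l _ h
      omega
    · exact md_anti (by omega) (mu_comm 1 j one_pos hj x y (md_one x) hy).1
  · rcases Nat.eq_zero_or_pos j with rfl | hj
    · exact md_anti (by omega) (mu_comm i 1 hi one_pos x y hx (md_one y)).1
    · exact (mu_comm i j hi hj x y hx hy).1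

theorem muDeep_of_gam {X : Type} (k : ℕ) (g : FreeGroup X) (hg : g ∈ PF.gam (FreeGroup X) k) :
    MuDeep (k + 1) g :=
  gam_le_of_nser (mdN X) (md_nser X) (by
    rw [eq_top_iff]
    exact fun x _ => md_one x) k hg

end PFC
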