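import Pool.Agent.PFC.MCom
import Pool.Agent.PFC.MLcs
import Pool.Agent.PFC.MDeep

/-!
# PFC-MStA (0.7h)
PLAN. Write `z = (b, j)`, induction on `j` (`Function.iterate_succ_apply'`), `F = FreeGroup X`.
`newF_gam`: `newF f a0 (b, j+1) = ⁅f a0, newF f a0 (b, j)⁆ ∈ ⁅gam F (wt a0 - 1), gam F (newW (b,j) - 1)⁆ ≤ gam F (wt a0 - 1 + newW (b,j) - 1 + 1)`
(`gam_comm`), all weights are at least 1. `mu_newF`: `MuDeep (wt a0) (f a0)` and `MuDeep (newW (b,j)) (newF (b,j))` by `muDeep_of_gam`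
(`gam F (w-1)` gives `MuDeep w`, w ≥ 1), then `mu_comm`: `mu (wt a0 + newW (b,j)) ⁅..⁆ = mu _ (f a0) * mu _ (newF (b,j)) - ...`, and
`lift` is an algebra homomorphism with `lift (ι a) = mu (wt a) (f a)`, `adIt a0 (b, j+1) = ι a0 * adIt a0 (b, j) - adIt a0 (b,j) * ι a0`.
-/

set_option autoImplicit false

open CategoryTheory
open scoped commutatorElement

namespace PFC

private theorem newF_succ {H A : Type} [Group H] (f : A → H) (a0 : A) (b : {b : A // b ≠ a0})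
    (j : ℕ) : newF f a0 (b, j + 1) = ⁅f a0, newF f a0 (b, j)⁆ := by
  show (fun y => ⁅f a0, y⁆)^[j + 1] (f b.1) = _
  rw [Function.iterate_succ_apply']
  rfl

private theorem newF_zero {H A : Type} [Group H] (f : A → H) (a0 : A) (b : {b : A // b ≠ a0}) :
    newF f a0 (b, 0) = f b.1 := rfl

private theorem newW_zero {A : Type} (wt : A → ℕ) (a0 : A) (b : {b : A // b ≠ a0}) :
    newW wt a0 (b, 0) = wt b.1 := by
  show wt b.1 + 0 * wt a0 = wt b.1
  rw [zero_mul, add_zero]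

private theorem newW_succ {A : Type} (wt : A → ℕ) (a0 : A) (b : {b : A // b ≠ a0}) (j : ℕ) :
    newW wt a0 (b, j + 1) = wt a0 + newW wt a0 (b, j) := by
  show wt b.1 + (j + 1) * wt a0 = wt a0 + (wt b.1 + j * wt a0)
  ring

private theorem newW_pos {A : Type} (wt : A → ℕ) (hwt : ∀ a, 1 ≤ wt a) (a0 : A)
    (z : {b : A // b ≠ a0} × ℕ) : 1 ≤ newW wt a0 z :=
  (hwt z.1.1).trans (Nat.le_add_right _ _)

private theorem adIt_succ {A : Type} (a0 : A) (b : {b : A // b ≠ a0}) (j : ℕ) :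
    adIt a0 (b, j + 1) =
      FreeAlgebra.ι ℤ a0 * adIt a0 (b, j) - adIt a0 (b, j) * FreeAlgebra.ι ℤ a0 := by
  show (fun y => FreeAlgebra.ι ℤ a0 * y - y * FreeAlgebra.ι ℤ a0)^[j + 1]
    (FreeAlgebra.ι ℤ b.1) = _
  rw [Function.iterate_succ_apply']
  rfl

private theorem adIt_zero {A : Type} (a0 : A) (b : {b : A // b ≠ a0}) :
    adIt a0 (b, 0) = FreeAlgebra.ι ℤ b.1 := rfl

theorem newF_gam {X A : Type} (wt : A → ℕ) (f : A → FreeGroup X) (hwt : ∀ a, 1 ≤ wt a)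
    (hf : ∀ a, f a ∈ PF.gam (FreeGroup X) (wt a - 1)) (a0 : A) (z : {b : A // b ≠ a0} × ℕ) :
    newF f a0 z ∈ PF.gam (FreeGroup X) (newW wt a0 z - 1) := by
  obtain ⟨b, j⟩ := z
  induction j with
  | zero =>
    rw [newF_zero, newW_zero]
    exact hf b.1
  | succ j ih =>
    rw [newF_succ, newW_succ]
    have h1 := gam_comm (FreeGroup X) (wt a0 - 1) (newW wt a0 (b, j) - 1)
    have h2 := h1 (Subgroup.commutator_mem_commutator (hf a0) ih)
    have h3 : 1 ≤ newW wt a0 (b, j) := newW_pos wt hwt a0 _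
    have h4 := hwt a0
    have h5 : wt a0 - 1 + (newW wt a0 (b, j) - 1) + 1 = wt a0 + newW wt a0 (b, j) - 1 := by
      omega
    rw [h5] at h2
    exact h2

theorem mu_newF {X A : Type} (wt : A → ℕ) (f : A → FreeGroup X) (hwt : ∀ a, 1 ≤ wt a)
    (hf : ∀ a, f a ∈ PF.gam (FreeGroup X) (wt a - 1)) (a0 : A) (z : {b : A // b ≠ a0} × ℕ) :
    mu (newW wt a0 z) (newF f a0 z) =
      FreeAlgebra.lift ℤ (fun a => mu (wt a) (f a)) (adIt a0 z) := by
  obtain ⟨b, j⟩ := z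
  induction j with
  | zero =>
    rw [newF_zero, newW_zero, adIt_zero, FreeAlgebra.lift_ι_apply]
  | succ j ih =>
    have h3 : 1 ≤ newW wt a0 (b, j) := newW_pos wt hwt a0 _
    have h4 := hwt a0
    have h1 : MuDeep (wt a0) (f a0) := by
      have h := muDeep_of_gam (wt a0 - 1) (f a0) (hf a0)
      rwa [Nat.sub_add_cancel h4] at h
    have h2 : MuDeep (newW wt a0 (b, j)) (newF f a0 (b, j)) := by
      have h := muDeep_of_gam (newW wt a0 (b, j) - 1) (newF f a0 (b, j))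
        (newF_gam wt f hwt hf a0 (b, j))
      rwa [Nat.sub_add_cancel h3] at h
    rw [newF_succ, newW_succ, adIt_succ, map_sub, map_mul, map_mul, ← ih,
      FreeAlgebra.lift_ι_apply, (mu_comm _ _ h4 h3 _ _ h1 h2).2]

end PFC
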