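import Pool.Agent.PFC.Defs

/-!
# PFC-NJoin: N-series, adjoining one element that acts with weight `m`
-/

set_option autoImplicit false

open CategoryTheory
open scoped commutatorElement

namespace PFC

private theorem comm_closure {H : Type} [Group H] (P B : Subgroup H)
    (hP : ∀ p ∈ P, ∀ b ∈ B, p * b * p⁻¹ ∈ B) (S T : Set H) (hS : S ⊆ P) (hT : T ⊆ P)
    (h : ∀ s ∈ S, ∀ t ∈ T, ⁅s, t⁆ ∈ B) :
    ∀ x ∈ Subgroup.closure S, ∀ y ∈ Subgroup.closure T, ⁅x, y⁆ ∈ B := by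
  have hSP : Subgroup.closure S ≤ P := (Subgroup.closure_le P).2 hS
  have hTP : Subgroup.closure T ≤ P := (Subgroup.closure_le P).2 hT
  have h1 : ∀ s ∈ S, ∀ y ∈ Subgroup.closure T, ⁅s, y⁆ ∈ B := by
    intro s hs y hy
    induction hy using Subgroup.closure_induction with
    | mem y hy => exact h s hs y hy
    | one =>
      rw [commutatorElement_one_right]
      exact B.one_mem
    | mul y z hy hz ihy ihz =>
      have e : ⁅s, y * z⁆ = ⁅s, y⁆ * (y * ⁅s, z⁆ * y⁻¹) := by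
        simp only [commutatorElement_def]
        group
      rw [e]
      exact B.mul_mem ihy (hP y (hTP hy) _ ihz)
    | inv y hy ihy =>
      have e : ⁅s, y⁻¹⁆ = y⁻¹ * ⁅s, y⁆⁻¹ * y⁻¹⁻¹ := by
        simp only [commutatorElement_def]
        group
      rw [e]
      exact hP _ (P.inv_mem (hTP hy)) _ (B.inv_mem ihy)
  intro x hx y hy
  induction hx using Subgroup.closure_induction with
  | mem x hx => exact h1 x hx y hy
  | one =>
    rw [commutatorElement_one_left]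
    exact B.one_mem
  | mul x z hx hz ihx ihz =>
    have e : ⁅x * z, y⁆ = (x * ⁅z, y⁆ * x⁻¹) * ⁅x, y⁆ := by
      simp only [commutatorElement_def]
      group
    rw [e]
    exact B.mul_mem (hP x (hSP hx) _ ihz) ihx
  | inv x hx ihx =>
    have e : ⁅x⁻¹, y⁆ = x⁻¹ * ⁅x, y⁆⁻¹ * x⁻¹⁻¹ := by
      simp only [commutatorElement_def]
      group
    rw [e]
    exact hP _ (P.inv_mem (hSP hx)) _ (B.inv_mem ihx)

theorem nser_join {H : Type} [Group H] (W : ℕ → Subgroup H) (hW : NSer W) (g : H) (m : ℕ)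
    (h1 : ∀ k, ∀ x ∈ W k, ⁅g, x⁆ ∈ W (k + m)) (h2 : ∀ k, ∀ x ∈ W k, ⁅g⁻¹, x⁆ ∈ W (k + m)) :
    ∃ Z : ℕ → Subgroup H, NSer Z ∧ g ∈ Z m ∧ (∀ k, W k ≤ Z k) ∧ ∀ k, m < k → Z k = W k := by
  obtain ⟨S, hS⟩ : ∃ S : ℕ → Set H, S = fun k => {x | x ∈ W k ∨ (k ≤ m ∧ x = g)} := ⟨_, rfl⟩
  have hmem : ∀ k x, x ∈ S k ↔ x ∈ W k ∨ (k ≤ m ∧ x = g) := by
    intro k x
    rw [hS]
    exact Iff.rfl
  have hg1 : ∀ k, ∀ x ∈ W k, g * x * g⁻¹ ∈ W k := by
    intro k x hx
    have e : g * x * g⁻¹ = ⁅g, x⁆ * x := by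
      simp only [commutatorElement_def]
      group
    rw [e]
    exact (W k).mul_mem (hW.anti k (k + m) (Nat.le_add_right k m) (h1 k x hx)) hx
  have hg2 : ∀ k, ∀ x ∈ W k, g⁻¹ * x * g⁻¹⁻¹ ∈ W k := by
    intro k x hx
    have e : g⁻¹ * x * g⁻¹⁻¹ = ⁅g⁻¹, x⁆ * x := by
      simp only [commutatorElement_def]
      group
    rw [e]
    exact (W k).mul_mem (hW.anti k (k + m) (Nat.le_add_right k m) (h2 k x hx)) hx
  have hw : ∀ k, ∀ w ∈ W 0, ∀ x ∈ W k, w * x * w⁻¹ ∈ W k := by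
    intro k w hw x hx
    have e : w * x * w⁻¹ = ⁅w, x⁆ * x := by
      simp only [commutatorElement_def]
      group
    rw [e]
    refine (W k).mul_mem ?_ hx
    have h3 := hW.comm 0 k (Subgroup.commutator_mem_commutator hw hx)
    rwa [Nat.zero_add] at h3
  obtain ⟨P, hPd⟩ : ∃ P : Subgroup H, P = Subgroup.closure ((W 0 : Set H) ∪ {g}) := ⟨_, rfl⟩
  have hP : ∀ k, ∀ p ∈ P, (∀ x ∈ W k, p * x * p⁻¹ ∈ W k) ∧ ∀ x ∈ W k, p⁻¹ * x * p⁻¹⁻¹ ∈ W k := by
    intro k p hp
    rw [hPd] at hp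
    induction hp using Subgroup.closure_induction with
    | mem p hp =>
      rcases hp with hp | hp
      · exact ⟨hw k p hp, hw k p⁻¹ ((W 0).inv_mem hp)⟩
      · rw [Set.mem_singleton_iff.1 hp]
        exact ⟨hg1 k, hg2 k⟩
    | one =>
      refine ⟨fun x hx => ?_, fun x hx => ?_⟩
      · have e : (1 : H) * x * 1⁻¹ = x := by group
        rw [e]
        exact hx
      · have e : (1 : H)⁻¹ * x * 1⁻¹⁻¹ = x := by group
        rw [e]
        exact hx
    | mul p q _ _ ihp ihq =>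
      refine ⟨fun x hx => ?_, fun x hx => ?_⟩
      · have e : p * q * x * (p * q)⁻¹ = p * (q * x * q⁻¹) * p⁻¹ := by group
        rw [e]
        exact ihp.1 _ (ihq.1 _ hx)
      · have e : (p * q)⁻¹ * x * (p * q)⁻¹⁻¹ = q⁻¹ * (p⁻¹ * x * p⁻¹⁻¹) * q⁻¹⁻¹ := by group
        rw [e]
        exact ihq.2 _ (ihp.2 _ hx)
    | inv p _ ihp =>
      refine ⟨ihp.2, fun x hx => ?_⟩
      have e : p⁻¹⁻¹ * x * p⁻¹⁻¹⁻¹ = p * x * p⁻¹ := by group
      rw [e]
      exact ihp.1 x hx
  have hSP : ∀ k, S k ⊆ P := by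
    intro k x hx
    rw [hPd]
    refine Subgroup.subset_closure ?_
    rcases (hmem k x).1 hx with h | h
    · exact Or.inl (hW.anti 0 k (Nat.zero_le k) h)
    · exact Or.inr h.2
  refine ⟨fun k => Subgroup.closure (S k), ⟨fun i j hij => ?_, fun i j => ?_⟩, ?_, fun k => ?_,
    fun k hk => ?_⟩
  · refine Subgroup.closure_mono fun x hx => ?_
    rw [hmem] at hx ⊢
    rcases hx with h | h
    · exact Or.inl (hW.anti i j hij h)
    · exact Or.inr ⟨hij.trans h.1, h.2⟩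
  · rw [Subgroup.commutator_le]
    intro x hx y hy
    refine Subgroup.subset_closure ((hmem _ _).2 (Or.inl ?_))
    refine comm_closure P (W (i + j)) (fun p hp => (hP _ p hp).1) (S i) (S j) (hSP i) (hSP j) ?_
      x hx y hy
    intro s hs t ht
    rcases (hmem _ _).1 hs with h | ⟨h, rfl⟩
    · rcases (hmem _ _).1 ht with h' | ⟨h', rfl⟩
      · exact hW.comm i j (Subgroup.commutator_mem_commutator h h')
      · rw [← commutatorElement_inv]
        exact (W (i + j)).inv_mem (hW.anti (i + j) (i + m) (by omega) (h1 i s h))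
    · rcases (hmem _ _).1 ht with h' | ⟨h', rfl⟩
      · exact hW.anti (i + j) (j + m) (by omega) (h1 j t h')
      · rw [commutatorElement_self]
        exact (W (i + j)).one_mem
  · exact Subgroup.subset_closure ((hmem _ _).2 (Or.inr ⟨le_rfl, rfl⟩))
  · exact fun x hx => Subgroup.subset_closure ((hmem _ _).2 (Or.inl hx))
  · have e : S k = (W k : Set H) := by
      ext x
      rw [hmem]
      constructor
      · rintro (h | h)
        · exact h
        · exact absurd h.1 (not_le.2 hk)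
      · exact Or.inl
    show Subgroup.closure (S k) = W k
    rw [e, Subgroup.closure_eq]

end PFC
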