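import Pool.Agent.PFC.NEl
import Pool.Agent.PFC.NJoin

/-!
# PFC-NElim
Lazard elimination for groups: a letter `a0` may be replaced by the iterated commutators of `f a0` with the
other letters, in the terms of the series of weight larger than the weight of `a0`.
-/

set_option autoImplicit false

open CategoryTheory
open scoped commutatorElement

namespace PFC

private theorem nelim_succ {H A : Type} [Group H] (f : A → H) (a0 : A) (b : {b : A // b ≠ a0})
    (j : ℕ) : newF f a0 (b, j + 1) = ⁅f a0, newF f a0 (b, j)⁆ := by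
  unfold newF
  exact Function.iterate_succ_apply' _ _ _

private theorem nelim_wsucc {A : Type} (wt : A → ℕ) (a0 : A) (b : {b : A // b ≠ a0})
    (j : ℕ) : newW wt a0 (b, j + 1) = newW wt a0 (b, j) + wt a0 := by
  unfold newW
  show wt b.1 + (j + 1) * wt a0 = wt b.1 + j * wt a0 + wt a0
  ring

private theorem nelim_id {H : Type} [Group H] (g y : H) :
    ⁅g⁻¹, y⁆ = (⁅g⁻¹, ⁅g, y⁆⁆ * ⁅g, y⁆)⁻¹ := by
  simp only [commutatorElement_def]
  group

private theorem nelim_one {H A : Type} [Group H] (f : A → H) (a0 : A) (b : {b : A // b ≠ a0})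
    {J : ℕ} (hJ : newF f a0 (b, J) = 1) (r : ℕ) : newF f a0 (b, J + r) = 1 := by
  induction r with
  | zero => exact hJ
  | succ r ih =>
    rw [← add_assoc, nelim_succ, ih, commutatorElement_one_right]

private theorem nelim_inv {H A : Type} [Group H] (wt : A → ℕ) (f : A → H) (a0 : A)
    (b : {b : A // b ≠ a0}) (d : ℕ) : ∀ j, newF f a0 (b, j + d) = 1 →
      ⁅(f a0)⁻¹, newF f a0 (b, j)⁆ ∈
        WSer (newW wt a0) (newF f a0) (newW wt a0 (b, j) + wt a0) := by
  induction d with
  | zero =>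
    intro j hj
    rw [add_zero] at hj
    rw [hj, commutatorElement_one_right]
    exact Subgroup.one_mem _
  | succ d ih =>
    intro j hj
    have h1 := ih (j + 1) (by rw [show j + 1 + d = j + (d + 1) by omega]; exact hj)
    have h2 := WSer_mem (newW wt a0) (newF f a0) (b, j + 1)
    rw [nelim_wsucc] at h1 h2
    have h3 := (WSer_nser (newW wt a0) (newF f a0)).anti _ _
      (Nat.le_add_right (newW wt a0 (b, j) + wt a0) (wt a0)) h1
    rw [nelim_id, ← nelim_succ]
    exact Subgroup.inv_mem _ (Subgroup.mul_mem _ h3 h2)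

theorem elim {H A : Type} [Group H] (wt : A → ℕ) (f : A → H) (a0 : A)
    (hfin : ∀ b : {b : A // b ≠ a0}, ∃ j, newF f a0 (b, j) = 1) (k : ℕ) (hk : wt a0 < k) :
    WSer wt f k ≤ WSer (newW wt a0) (newF f a0) k := by
  have hW := WSer_nser (newW wt a0) (newF f a0)
  have hmem := WSer_mem (newW wt a0) (newF f a0)
  have h1 : ∀ k, ∀ x ∈ WSer (newW wt a0) (newF f a0) k,
      ⁅f a0, x⁆ ∈ WSer (newW wt a0) (newF f a0) (k + wt a0) := by
    obtain ⟨Y, hY, hYm⟩ := nser_el _ hW (f a0) (wt a0)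
    intro k x hx
    refine ((hYm k x).1 (WSer_le (newW wt a0) (newF f a0) Y hY (fun z => ?_) k hx)).2
    obtain ⟨b, j⟩ := z
    refine (hYm _ _).2 ⟨hmem (b, j), ?_⟩
    rw [← nelim_succ, ← nelim_wsucc]
    exact hmem (b, j + 1)
  have h2 : ∀ k, ∀ x ∈ WSer (newW wt a0) (newF f a0) k,
      ⁅(f a0)⁻¹, x⁆ ∈ WSer (newW wt a0) (newF f a0) (k + wt a0) := by
    obtain ⟨Y, hY, hYm⟩ := nser_el _ hW (f a0)⁻¹ (wt a0)
    intro k x hx
    refine ((hYm k x).1 (WSer_le (newW wt a0) (newF f a0) Y hY (fun z => ?_) k hx)).2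
    obtain ⟨b, j⟩ := z
    refine (hYm _ _).2 ⟨hmem (b, j), ?_⟩
    obtain ⟨J, hJ⟩ := hfin b
    rcases le_total j J with hle | hle
    · exact nelim_inv wt f a0 b (J - j) j (by rw [show j + (J - j) = J by omega]; exact hJ)
    · refine nelim_inv wt f a0 b 0 j ?_
      have h3 := nelim_one f a0 b hJ (j - J)
      rwa [show J + (j - J) = j + 0 by omega] at h3
  obtain ⟨Z, hZ, hg, hle, hZk⟩ := nser_join _ hW (f a0) (wt a0) h1 h2
  rw [← hZk k hk]
  refine WSer_le wt f Z hZ (fun a => ?_) k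
  by_cases ha : a = a0
  · rw [ha]
    exact hg
  · have h4 := hle _ (hmem (⟨a, ha⟩, 0))
    have h5 : newW wt a0 (⟨a, ha⟩, 0) = wt a := by
      unfold newW
      simp
    rw [h5] at h4
    exact h4

end PFC
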