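import Pool.Agent.PFC.MStA
import Pool.Agent.PFC.NElim
import Pool.Agent.PFC.FAd

/-!
# PFC-MStB
One elimination step: the new letters `newF f a0` with the weights `newW wt a0` are again `Good`, and
there are fewer letters of weight `m`.
-/

set_option autoImplicit false

open CategoryTheory
open scoped commutatorElement

namespace PFC

private theorem msb_newF {G H A : Type} [Group G] [Group H] (φ : G →* H) (f : A → G) (a0 : A)
    (z : {b : A // b ≠ a0} × ℕ) : newF (fun a => φ (f a)) a0 z = φ (newF f a0 z) := by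
  obtain ⟨b, j⟩ := z
  show (fun y => ⁅φ (f a0), y⁆)^[j] (φ (f b.1)) = φ ((fun y => ⁅f a0, y⁆)^[j] (f b.1))
  induction j with
  | zero => rfl
  | succ j ih =>
    rw [Function.iterate_succ_apply', Function.iterate_succ_apply', ih, map_commutatorElement]

private theorem msb_fin {A : Type} (wt : A → ℕ) (m : ℕ) (hm : 0 < m)
    (hfin : ∀ k, {a | wt a = k}.Finite) (a0 : A) (ha0 : wt a0 = m) (k : ℕ) :
    {z | newW wt a0 z = k}.Finite := by
  have h1 : {a | wt a ≤ k}.Finite := by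
    have h2 : {a | wt a ≤ k} ⊆ ⋃ i ∈ Set.Iic k, {a | wt a = i} := by
      intro a ha
      exact Set.mem_biUnion (x := wt a) ha rfl
    exact (Set.Finite.biUnion (Set.finite_Iic k) fun i _ => hfin i).subset h2
  have h3 : ({a | wt a ≤ k} ×ˢ Set.Iic k : Set (A × ℕ)).Finite := h1.prod (Set.finite_Iic k)
  have h4 : Function.Injective (fun z : {b : A // b ≠ a0} × ℕ => (z.1.1, z.2)) := by
    rintro ⟨b, j⟩ ⟨b', j'⟩ h
    simp only [Prod.mk.injEq] at h
    exact Prod.ext (Subtype.ext h.1) h.2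
  refine (h3.preimage (h4.injOn (s := _))).subset ?_
  rintro ⟨b, j⟩ hz
  have hz' : wt b.1 + j * wt a0 = k := hz
  rw [ha0] at hz'
  have h5 : j * 1 ≤ j * m := Nat.mul_le_mul_left j hm
  refine Set.mk_mem_prod ?_ ?_
  · show wt b.1 ≤ k
    omega
  · show j ≤ k
    omega

private theorem msb_card {A : Type} (wt : A → ℕ) (m : ℕ) (hm : 0 < m) (hge : ∀ a, m ≤ wt a)
    (hfin : ∀ k, {a | wt a = k}.Finite) (a0 : A) (ha0 : wt a0 = m) :
    {z | newW wt a0 z = m}.ncard < {a | wt a = m}.ncard := by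
  have hz0 : ∀ z : {b : A // b ≠ a0} × ℕ, newW wt a0 z = m → wt z.1.1 = m ∧ z.2 = 0 := by
    rintro ⟨b, j⟩ hz
    have hz' : wt b.1 + j * wt a0 = m := hz
    rw [ha0] at hz'
    have h5 : j * 1 ≤ j * m := Nat.mul_le_mul_left j hm
    have h6 := hge b.1
    refine ⟨?_, ?_⟩
    · show wt b.1 = m
      omega
    · show j = 0
      omega
  have hmem : a0 ∈ {a | wt a = m} := ha0
  refine lt_of_le_of_lt ?_ (Set.ncard_sdiff_singleton_lt_of_mem hmem (hfin m))
  refine Set.ncard_le_ncard_of_injOn (fun z : {b : A // b ≠ a0} × ℕ => z.1.1) ?_ ?_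
    ((hfin m).subset Set.sdiff_subset)
  · intro z hz
    exact ⟨(hz0 z hz).1, fun h => z.1.2 h⟩
  · rintro z hz z' hz' h
    refine Prod.ext (Subtype.ext h) ?_
    rw [(hz0 z hz).2, (hz0 z' hz').2]

theorem good_step (X : Type) (n m : ℕ) (hm : 0 < m) (hmn : m < n) (A : Type) (wt : A → ℕ)
    (f : A → FreeGroup X) (h : Good X n m A wt f) (a0 : A) (ha0 : wt a0 = m) :
    Good X n m ({b : A // b ≠ a0} × ℕ) (newW wt a0) (newF f a0) ∧
      {z | newW wt a0 z = m}.ncard < {a | wt a = m}.ncard := by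
  obtain ⟨h1, h2, h3, h4, h5⟩ := h
  have hwt : ∀ a, 1 ≤ wt a := fun a => le_trans hm (h1 a)
  refine ⟨⟨?_, msb_fin wt m hm h2 a0 ha0, newF_gam wt f hwt h3 a0, ?_, ?_⟩,
    msb_card wt m hm h1 h2 a0 ha0⟩
  · rintro ⟨b, j⟩
    exact (h1 b.1).trans (Nat.le_add_right _ _)
  · have e1 : (FreeAlgebra.lift ℤ (fun z => mu (newW wt a0 z) (newF f a0 z)) :
        FreeAlgebra ℤ ({b : A // b ≠ a0} × ℕ) →ₐ[ℤ] FreeAlgebra ℤ X) =
        (FreeAlgebra.lift ℤ (fun a => mu (wt a) (f a))).comp (FreeAlgebra.lift ℤ (adIt a0)) := by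
      apply FreeAlgebra.hom_ext
      funext z
      simp only [Function.comp_apply, FreeAlgebra.lift_ι_apply, AlgHom.coe_comp]
      exact mu_newF wt f hwt h3 a0 z
    rw [e1, AlgHom.coe_comp]
    exact h4.comp (lift_adIt_injective a0)
  · intro w hw
    have e1 : (fun z => ((newF f a0 z : FreeGroup X) : FreeGroup X ⧸ PF.gam (FreeGroup X) n)) =
        newF (fun a => ((f a : FreeGroup X) : FreeGroup X ⧸ PF.gam (FreeGroup X) n)) a0 := by
      funext z
      exact (msb_newF (QuotientGroup.mk' (PF.gam (FreeGroup X) n)) f a0 z).symm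
    rw [e1]
    refine elim wt (fun a => ((f a : FreeGroup X) : FreeGroup X ⧸ PF.gam (FreeGroup X) n)) a0 ?_ n
      (by rw [ha0]; exact hmn) (h5 w hw)
    intro b
    refine ⟨n, ?_⟩
    rw [← congrFun e1 (b, n)]
    rw [QuotientGroup.eq_one_iff]
    have e2 := newF_gam wt f hwt h3 a0 (b, n)
    have e3 : n ≤ newW wt a0 (b, n) - 1 := by
      have e4 : newW wt a0 (b, n) = wt b.1 + n * wt a0 := rfl
      have e5 : n * 1 ≤ n * wt a0 := Nat.mul_le_mul_left n (hwt a0)
      have e6 := hwt b.1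
      omega
    exact Subgroup.lowerCentralSeries_antitone _ e3 e2

end PFC
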