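import Pool.Agent.PFC.MLcs
import Pool.Agent.PFC.MStB

/-!
# PFC-MStC (0.8h)
PLAN. `good_one`: `1 ≤ 1`; `Set.toFinite`; `gam F 0 = ⊤`; `mu 1 (of x) = ι x` (`mu_of`) so the lift is the identity
(`FreeAlgebra.lift_ι_comp`..., `FreeAlgebra.hom_ext`); last clause: `mem_WSer`: for an NSer `N` of `H = F ⧸ gam F n` with all `mk (of x) ∈ N 1`:
`N 1 = ⊤` (`FreeGroup.closure_range_of` mapped by the surjection), and `mk w ∈ gam H (n-1)` (`Subgroup.map_lowerCentralSeries`), so
`gam_le_of_nser` gives `mk w ∈ N (n-1+1) = N n`. `good_exists`: induction on `m` from `good_one`; step `m → m+1 ≤ n`: among all Good systems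
for `m` (as `A` ranges over types, quantify the induction over the number `c = {a | wt a = m}.ncard`): strong induction on `c`: if the set
is empty then all weights are ≥ m+1 and the system is Good for `m+1`; otherwise take `a0` in it and apply `good_step`.
-/

set_option autoImplicit false

open CategoryTheory
open scoped commutatorElement

namespace PFC

theorem good_one (X : Type) [Finite X] (n : ℕ) (hn : 0 < n) :
    Good X n 1 X (fun _ => 1) FreeGroup.of := by
  refine ⟨fun _ => le_refl _, fun k => Set.toFinite _, fun a => ?_, ?_, ?_⟩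
  · show FreeGroup.of a ∈ PF.gam (FreeGroup X) 0
    exact Subgroup.mem_top _
  · show Function.Injective (FreeAlgebra.lift ℤ (fun a : X => mu 1 (FreeGroup.of a)))
    have e : (fun a : X => mu 1 (FreeGroup.of a)) = FreeAlgebra.ι ℤ := funext fun a => mu_of a
    have e2 : FreeAlgebra.lift ℤ (fun a : X => mu 1 (FreeGroup.of a)) =
        AlgHom.id ℤ (FreeAlgebra ℤ X) := by
      rw [e]
      apply FreeAlgebra.hom_ext
      funext a
      simp
    rw [e2]
    exact Function.injective_id
  · intro w hw
    rw [mem_WSer]
    intro N hN hf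
    have hN1 : N 1 = ⊤ := by
      rw [eq_top_iff]
      have h1 : (⊤ : Subgroup (FreeGroup X)).map (QuotientGroup.mk' (PF.gam (FreeGroup X) n)) =
          ⊤ := Subgroup.map_top_of_surjective _ (QuotientGroup.mk'_surjective _)
      have h2 : (⊤ : Subgroup (FreeGroup X)).map (QuotientGroup.mk' (PF.gam (FreeGroup X) n)) ≤
          N 1 := by
        rw [Subgroup.map_le_iff_le_comap]
        have h3 : Subgroup.closure (Set.range (FreeGroup.of : X → FreeGroup X)) ≤
            (N 1).comap (QuotientGroup.mk' (PF.gam (FreeGroup X) n)) := by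
          rw [Subgroup.closure_le]
          rintro _ ⟨a, rfl⟩
          exact hf a
        rw [FreeGroup.closure_range_of] at h3
        exact h3
      rw [h1] at h2
      exact h2
    have hw2 : (w : FreeGroup X ⧸ PF.gam (FreeGroup X) n) ∈
        PF.gam (FreeGroup X ⧸ PF.gam (FreeGroup X) n) (n - 1) := by
      have h2 : (PF.gam (FreeGroup X) (n - 1)).map
          (QuotientGroup.mk' (PF.gam (FreeGroup X) n)) =
          PF.gam (FreeGroup X ⧸ PF.gam (FreeGroup X) n) (n - 1) := by
        have h4 := Subgroup.map_lowerCentralSeries (S := (⊤ : Subgroup (FreeGroup X)))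
          (QuotientGroup.mk' (PF.gam (FreeGroup X) n)) (n - 1)
        rw [Subgroup.map_top_of_surjective _ (QuotientGroup.mk'_surjective _)] at h4
        exact h4
      rw [← h2]
      exact Subgroup.mem_map_of_mem _ hw
    have h3 := gam_le_of_nser N hN hN1 (n - 1) hw2
    rwa [Nat.sub_add_cancel hn] at h3

theorem good_exists (X : Type) [Finite X] (n m : ℕ) (hm : 0 < m) (hmn : m ≤ n) :
    ∃ (A : Type) (wt : A → ℕ) (f : A → FreeGroup X), Good X n m A wt f := by
  induction m, hm using Nat.le_induction with
  | base => exact ⟨X, fun _ => 1, FreeGroup.of, good_one X n hmn⟩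
  | succ m hm ih =>
    have key : ∀ (c : ℕ) (A : Type) (wt : A → ℕ) (f : A → FreeGroup X), Good X n m A wt f →
        {a | wt a = m}.ncard = c →
        ∃ (A : Type) (wt : A → ℕ) (f : A → FreeGroup X), Good X n (m + 1) A wt f := by
      intro c
      induction c using Nat.strong_induction_on with
      | _ c ihc =>
        intro A wt f h hc
        by_cases he : ∃ a0, wt a0 = m
        · obtain ⟨a0, ha0⟩ := he
          obtain ⟨h1, h2⟩ := good_step X n m hm hmn A wt f h a0 ha0
          rw [hc] at h2
          exact ihc _ h2 _ _ _ h1 rfl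
        · push Not at he
          obtain ⟨h1, h2⟩ := h
          refine ⟨A, wt, f, fun a => ?_, h2⟩
          have h3 := h1 a
          have h4 := he a
          omega
    obtain ⟨A, wt, f, h⟩ := ih (Nat.le_of_succ_le hmn)
    exact key _ A wt f h rfl

end PFC
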