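import Pool.Agent.PFC.Defs

/-!
# PFC-NEl
Hall's commutator calculus: for an `N`-series `W` and an element `h` the elements `x ∈ W k` with
`⁅h, x⁆ ∈ W (k + m)` form an `N`-series.
-/

set_option autoImplicit false

open CategoryTheory
open scoped commutatorElement

namespace PFC

private theorem NEl_key {H : Type} [Group H] (h x y : H) :
    ⁅h, ⁅x, y⁆⁆ = (⁅h, x⁆ * ⁅x, ⁅h, y⁆⁆ * ⁅h, x⁆⁻¹) * (⁅h, x⁆ * ⁅⁅h, y⁆, ⁅x, y⁆⁆ * ⁅h, x⁆⁻¹) *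
      ⁅⁅h, x⁆, ⁅x, y⁆⁆ * (⁅x, y⁆ * ⁅⁅h, x⁆, ⁅h, y⁆ * y⁆ * ⁅x, y⁆⁻¹) := by
  simp only [commutatorElement_def]
  group

theorem nser_el {H : Type} [Group H] (W : ℕ → Subgroup H) (hW : NSer W) (h : H) (m : ℕ) :
    ∃ Y : ℕ → Subgroup H, NSer Y ∧ ∀ k x, x ∈ Y k ↔ x ∈ W k ∧ ⁅h, x⁆ ∈ W (k + m) := by
  have h0 : ∀ {k : ℕ} {x : H}, x ∈ W k → x ∈ W 0 := fun {k x} hx => hW.anti 0 k (Nat.zero_le k) hx
  have hle : ∀ {i j : ℕ} {x : H}, i ≤ j → x ∈ W j → x ∈ W i := fun {i j x} hij hx =>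
    hW.anti i j hij hx
  have hc : ∀ {i j : ℕ} {x y : H}, x ∈ W i → y ∈ W j → ⁅x, y⁆ ∈ W (i + j) :=
    fun {i j x y} hx hy => hW.comm i j (Subgroup.commutator_mem_commutator hx hy)
  have hconj : ∀ {k : ℕ} {g p : H}, g ∈ W 0 → p ∈ W k → g * p * g⁻¹ ∈ W k := by
    intro k g p hg hp
    have h1 : ⁅g, p⁆ ∈ W k := by
      have h2 := hc hg hp
      rwa [zero_add] at h2
    have h3 : g * p * g⁻¹ = ⁅g, p⁆ * p := by
      rw [commutatorElement_def]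
      group
    rw [h3]
    exact (W k).mul_mem h1 hp
  refine ⟨fun k =>
    { carrier := {x | x ∈ W k ∧ ⁅h, x⁆ ∈ W (k + m)}
      mul_mem' := ?_
      one_mem' := ?_
      inv_mem' := ?_ }, ⟨?_, ?_⟩, ?_⟩
  · rintro x y ⟨hx, hx'⟩ ⟨hy, hy'⟩
    refine ⟨(W k).mul_mem hx hy, ?_⟩
    have h3 : ⁅h, x * y⁆ = ⁅h, x⁆ * (x * ⁅h, y⁆ * x⁻¹) := by
      simp only [commutatorElement_def]
      group
    rw [h3]
    exact (W (k + m)).mul_mem hx' (hconj (h0 hx) hy')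
  · refine ⟨(W k).one_mem, ?_⟩
    rw [commutatorElement_one_right]
    exact (W (k + m)).one_mem
  · rintro x ⟨hx, hx'⟩
    refine ⟨(W k).inv_mem hx, ?_⟩
    have h3 : ⁅h, x⁻¹⁆ = x⁻¹ * ⁅h, x⁆⁻¹ * x⁻¹⁻¹ := by
      simp only [commutatorElement_def]
      group
    rw [h3]
    exact hconj ((W 0).inv_mem (h0 hx)) ((W (k + m)).inv_mem hx')
  · rintro i j hij x ⟨hx, hx'⟩
    exact ⟨hle hij hx, hle (by omega) hx'⟩
  · intro i j
    rw [Subgroup.commutator_le]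
    rintro x ⟨hx, hx'⟩ y ⟨hy, hy'⟩
    refine ⟨hc hx hy, ?_⟩
    have hxy := hc hx hy
    have hP : ∀ {k : ℕ} {z : H}, i + j + m ≤ k → z ∈ W k → z ∈ W (i + j + m) := fun hk hz =>
      hle hk hz
    rw [NEl_key]
    refine (W (i + j + m)).mul_mem ((W (i + j + m)).mul_mem ((W (i + j + m)).mul_mem ?_ ?_) ?_) ?_
    · exact hconj (h0 hx') (hP (by omega) (hc hx hy'))
    · exact hconj (h0 hx') (hP (by omega) (hc hy' hxy))
    · exact hP (by omega) (hc hx' hxy)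
    · exact hconj (h0 hxy) (hP (by omega) (hc hx'
        ((W j).mul_mem (hle (by omega) hy' : ⁅h, y⁆ ∈ W j) hy)))
  · intro k x
    exact Iff.rfl

end PFC
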