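import Pool.Agent.PFC.RSep
import Pool.Agent.PFC.MWitt
import Pool.Agent.PFC.MDeep

/-!
# PFC-RFree
The integral group ring of `F / gam F n`, `F` free of finite rank: the powers of the augmentation ideal intersect in
zero. The coordinates of the coefficients of the Magnus expansion are polynomial functions which separate the points.
-/

set_option autoImplicit false

open CategoryTheory
open scoped commutatorElement

namespace PFC

/-- a coordinate of the Magnus coefficient of degree `k` as a function on `F / gam F n` -/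
private noncomputable def ph {X : Type} (n k : ℕ) (θ : FreeAlgebra ℤ X →+ ℤ)
    (q : FreeGroup X ⧸ PF.gam (FreeGroup X) n) : ℤ := θ (mu k (Quotient.out q))

private theorem ph_mk {X : Type} (n k : ℕ) (hk : k ≤ n) (θ : FreeAlgebra ℤ X →+ ℤ)
    (w : FreeGroup X) : ph n k θ (w : FreeGroup X ⧸ PF.gam (FreeGroup X) n) = θ (mu k w) := by
  obtain ⟨z, hz⟩ := QuotientGroup.mk_out_eq_mul (PF.gam (FreeGroup X) n) w
  rw [ph, hz, mu_mul_right (n + 1) k (Nat.lt_succ_of_le hk) w z.1 (muDeep_of_gam n z.1 z.2)]

private theorem polyF_sum {N ι : Type} [Group N] {d : ℕ} (s : Finset ι) (f : ι → N → ℤ)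
    (h : ∀ i ∈ s, PolyF d (f i)) : PolyF d (fun x => ∑ i ∈ s, f i x) := by
  classical
  induction s using Finset.induction_on with
  | empty =>
    simp only [Finset.sum_empty]
    exact polyF_const d 0
  | insert a s ha ih =>
    simp only [Finset.sum_insert ha]
    exact polyF_add (h a (Finset.mem_insert_self a s))
      (ih fun i hi => h i (Finset.mem_insert_of_mem hi))

private theorem poly_ph {X : Type} (n : ℕ) (k : ℕ) : k ≤ n → ∀ θ : FreeAlgebra ℤ X →+ ℤ,
    PolyF k (ph (X := X) n k θ) := by
  induction k using Nat.strong_induction_on with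
  | _ k ih =>
    intro hk θ
    cases k with
    | zero =>
      intro q x
      rw [ph, ph, mu_zero, mu_zero]
    | succ k =>
      intro q
      obtain ⟨p, rfl⟩ := QuotientGroup.mk_surjective q
      have h : (fun x : FreeGroup X ⧸ PF.gam (FreeGroup X) n =>
          ph n (k + 1) θ ((p : FreeGroup X ⧸ PF.gam (FreeGroup X) n) * x) - ph n (k + 1) θ x) =
          fun x => ∑ i ∈ Finset.range (k + 1),
            ph n (k - i) (θ.comp (AddMonoidHom.mulLeft (mu (i + 1) p))) x := by
        funext x
        obtain ⟨w, rfl⟩ := QuotientGroup.mk_surjective x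
        rw [← QuotientGroup.mk_mul, ph_mk n (k + 1) hk, ph_mk n (k + 1) hk, mu_mul,
          Finset.sum_range_succ', map_add, map_sum, mu_zero, one_mul, Nat.sub_zero,
          add_sub_cancel_right]
        refine Finset.sum_congr rfl fun i hi => ?_
        rw [ph_mk n (k - i) (by omega), Nat.add_sub_add_right]
        rfl
      show PolyF k _
      rw [h]
      refine polyF_sum _ _ fun i hi => ?_
      exact polyF_mono (Nat.sub_le k i) (ih (k - i) (by omega) (by omega) _)

theorem sep_free (X : Type) [Finite X] (n : ℕ) :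
    Sep (FreeGroup X ⧸ PF.gam (FreeGroup X) n) := by
  refine sep_of_poly _ fun x y hxy => ?_
  obtain ⟨w, rfl⟩ := QuotientGroup.mk_surjective x
  obtain ⟨w', rfl⟩ := QuotientGroup.mk_surjective y
  classical
  have hz : w⁻¹ * w' ∉ PF.gam (FreeGroup X) n := fun h => hxy (QuotientGroup.eq.2 h)
  have hd : ∃ i, 0 < i ∧ i < n + 1 ∧ mu i (w⁻¹ * w') ≠ 0 := by
    by_contra hc
    apply hz
    apply magnus_witt
    intro i h0 h1
    by_contra h2
    exact hc ⟨i, h0, h1, h2⟩
  obtain ⟨h0, h1, h2⟩ := Nat.find_spec hd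
  set i := Nat.find hd with hi
  have hdeep : ∀ j, 0 < j → j < i → mu j (w⁻¹ * w') = 0 := by
    intro j hj hji
    by_contra hne
    exact Nat.find_min hd hji ⟨hj, by omega, hne⟩
  have hmu : mu i w' = mu i w + mu i (w⁻¹ * w') := by
    have e : w' = w * (w⁻¹ * w') := by group
    conv_lhs => rw [e]
    rw [mu_mul, Finset.sum_range_succ, Nat.sub_self, mu_zero, mul_one]
    obtain ⟨j, hj⟩ : ∃ j, i = j + 1 := ⟨i - 1, by omega⟩
    rw [add_comm]
    congr 1
    rw [hj, Finset.sum_range_succ', mu_zero, one_mul, Nat.sub_zero, Finset.sum_eq_zero, zero_add]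
    intro l hl
    rw [Finset.mem_range] at hl
    rw [hdeep (j + 1 - (l + 1)) (by omega) (by omega), mul_zero]
  let b := FreeAlgebra.basisFreeMonoid ℤ X
  have hb : ∃ m, b.repr (mu i (w⁻¹ * w')) m ≠ 0 := by
    by_contra hc
    apply h2
    have : b.repr (mu i (w⁻¹ * w')) = 0 := by
      ext m
      by_contra hm
      exact hc ⟨m, hm⟩
    exact b.repr.map_eq_zero_iff.1 this
  obtain ⟨m, hm⟩ := hb
  let θ : FreeAlgebra ℤ X →+ ℤ := (b.coord m).toAddMonoidHom
  refine ⟨i, ph n i θ, poly_ph n i (by omega) θ, ?_⟩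
  rw [ph_mk n i (by omega), ph_mk n i (by omega), hmu, map_add]
  intro he
  apply hm
  have h3 : θ (mu i (w⁻¹ * w')) = 0 := by linarith
  exact h3

end PFC
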