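import Pool.Agent.PFC.Defs

/-!
# PFC-RPol: polynomial functions on a group

Constants, sums, translates and products of polynomial functions.
-/

set_option autoImplicit false

open CategoryTheory
open scoped commutatorElement

namespace PFC

theorem polyF_const {N : Type} [Group N] (d : ℕ) (c : ℤ) : PolyF d (fun _ : N => c) := by
  induction d generalizing c with
  | zero => exact fun _ _ => rfl
  | succ d ih => exact fun _ => ih (c - c)

private theorem rpol_succ {N : Type} [Group N] (d : ℕ) {f : N → ℤ} (hf : PolyF d f) :
    PolyF (d + 1) f := by
  induction d generalizing f with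
  | zero =>
    intro q p x
    show f (q * (p * x)) - f (p * x) = f (q * x) - f x
    have h : ∀ q x : N, f (q * x) = f x := hf
    rw [h q (p * x), h p x, h q x]
  | succ d ih => exact fun q => ih (hf q)

theorem polyF_mono {N : Type} [Group N] {d e : ℕ} (h : d ≤ e) {f : N → ℤ} (hf : PolyF d f) :
    PolyF e f := by
  induction e, h using Nat.le_induction with
  | base => exact hf
  | succ e _ ih => exact rpol_succ e ih

theorem polyF_add {N : Type} [Group N] {d : ℕ} {f g : N → ℤ} (hf : PolyF d f) (hg : PolyF d g) :
    PolyF d (fun x => f x + g x) := by
  induction d generalizing f g with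
  | zero =>
    intro q x
    have h1 : ∀ q x : N, f (q * x) = f x := hf
    have h2 : ∀ q x : N, g (q * x) = g x := hg
    show f (q * x) + g (q * x) = f x + g x
    rw [h1, h2]
  | succ d ih =>
    intro q
    have h1 := ih (hf q) (hg q)
    have e : (fun x => (f (q * x) - f x) + (g (q * x) - g x)) =
        fun x => (f (q * x) + g (q * x)) - (f x + g x) := by
      funext x
      ring
    rw [e] at h1
    exact h1

theorem polyF_trans {N : Type} [Group N] {d : ℕ} {f : N → ℤ} (hf : PolyF d f) (q : N) :
    PolyF d (fun x => f (q * x)) := by
  induction d generalizing f with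
  | zero =>
    intro p x
    have h : ∀ q x : N, f (q * x) = f x := hf
    show f (q * (p * x)) = f (q * x)
    rw [h q (p * x), h p x, h q x]
  | succ d ih =>
    intro p
    have h1 := ih (hf (q * p * q⁻¹))
    have e : (fun x => f (q * p * q⁻¹ * (q * x)) - f (q * x)) =
        fun x => f (q * (p * x)) - f (q * x) := by
      funext x
      have : q * p * q⁻¹ * (q * x) = q * (p * x) := by group
      rw [this]
    rw [e] at h1
    exact h1

private theorem rpol_smul {N : Type} [Group N] {d : ℕ} {f : N → ℤ} (c : ℤ) (hf : PolyF d f) :
    PolyF d (fun x => c * f x) := by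
  induction d generalizing f with
  | zero =>
    intro q x
    have h : ∀ q x : N, f (q * x) = f x := hf
    show c * f (q * x) = c * f x
    rw [h]
  | succ d ih =>
    intro q
    have h1 := ih (hf q)
    have e : (fun x => c * (f (q * x) - f x)) = fun x => c * f (q * x) - c * f x := by
      funext x
      ring
    rw [e] at h1
    exact h1

private theorem rpol_zero {N : Type} [Group N] {f : N → ℤ} (hf : PolyF 0 f) (x : N) : f x = f 1 := by
  have h : ∀ q x : N, f (q * x) = f x := hf
  have h1 := h x 1
  rwa [mul_one] at h1

private theorem rpol_mul {N : Type} [Group N] (n : ℕ) : ∀ (a b : ℕ), a + b = n →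
    ∀ {f g : N → ℤ}, PolyF a f → PolyF b g → PolyF (a + b) (fun x => f x * g x) := by
  induction n with
  | zero =>
    intro a b hab f g hf hg
    obtain ⟨rfl, rfl⟩ : a = 0 ∧ b = 0 := by omega
    have e : (fun x => f x * g x) = fun x => f 1 * g x := by
      funext x
      rw [rpol_zero hf x]
    rw [e]
    exact rpol_smul (f 1) hg
  | succ n ih =>
    intro a b hab f g hf hg
    rcases a with _ | a
    · have e : (fun x => f x * g x) = fun x => f 1 * g x := by
        funext x
        rw [rpol_zero hf x]
      rw [e, Nat.zero_add]
      exact rpol_smul (f 1) hg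
    · rcases b with _ | b
      · have e : (fun x => f x * g x) = fun x => g 1 * f x := by
          funext x
          rw [rpol_zero hg x, mul_comm]
        rw [e]
        exact rpol_smul (g 1) hf
      · have hn : a + 1 + (b + 1) = (a + b + 1) + 1 := by omega
        rw [hn]
        intro q
        have h1 : PolyF (a + (b + 1)) (fun x => (f (q * x) - f x) * g x) :=
          ih a (b + 1) (by omega) (hf q) hg
        have h2 : PolyF (a + 1 + b) (fun x => f x * (g (q * x) - g x)) :=
          ih (a + 1) b (by omega) hf (hg q)
        have h3 : PolyF (a + (b + 1)) (fun x => (f (q * x) - f x) * (g (q * x) - g x)) :=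
          ih a (b + 1) (by omega) (hf q) (polyF_mono (Nat.le_succ b) (hg q))
        have h4 := polyF_add (polyF_add (polyF_mono (e := a + b + 1) (by omega) h1)
          (polyF_mono (e := a + b + 1) (by omega) h2)) (polyF_mono (e := a + b + 1) (by omega) h3)
        have e : (fun x => (f (q * x) - f x) * g x + f x * (g (q * x) - g x) +
            (f (q * x) - f x) * (g (q * x) - g x)) =
            fun x => f (q * x) * g (q * x) - f x * g x := by
          funext x
          ring
        rw [e] at h4
        exact h4

theorem polyF_mul {N : Type} [Group N] {a b : ℕ} {f g : N → ℤ} (hf : PolyF a f)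
    (hg : PolyF b g) : PolyF (a + b) (fun x => f x * g x) :=
  rpol_mul (a + b) a b rfl hf hg

end PFC
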