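import Pool.Agent.PFC.RPol

/-!
# PFC-RSep
Polynomial functions of degree `d` on a group kill the power `d + 1` of the augmentation ideal; if the polynomial
functions separate the points of the group, then the intersection of these powers is zero.
-/

set_option autoImplicit false

open CategoryTheory
open scoped commutatorElement

namespace PFC

private theorem rsep_single {N : Type} [Group N] (f : N → ℤ) (g : N) (n : ℤ) (x : GR N) :
    lin f (MonoidAlgebra.single g n * x) = n * lin (fun y => f (g * y)) x := by
  have h : (lin f).comp (AddMonoidHom.mulLeft (MonoidAlgebra.single g n : GR N)) =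
      (AddMonoidHom.mulLeft n).comp (lin fun y => f (g * y)) := by
    apply MonoidAlgebra.addMonoidHom_ext
    intro a m
    simp only [AddMonoidHom.comp_apply, AddMonoidHom.coe_mulLeft]
    rw [MonoidAlgebra.single_mul_single, lin_single, lin_single]
    ring
  exact DFunLike.congr_fun h x

private theorem rsep_el {N : Type} [Group N] (f : N → ℤ) (g : N) (x : GR N) :
    lin f (el g * x) = lin (fun y => f (g * y)) x := by
  have h : (el g : GR N) = MonoidAlgebra.single g 1 := rfl
  rw [h, rsep_single, one_mul]

private theorem rsep_sub {N : Type} [Group N] (f g : N → ℤ) (x : GR N) :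
    lin (fun y => f y - g y) x = lin f x - lin g x := by
  have h : lin (fun y => f y - g y) = lin f - lin g := by
    apply MonoidAlgebra.addMonoidHom_ext
    intro a m
    rw [AddMonoidHom.sub_apply, lin_single, lin_single, lin_single]
    ring
  rw [h, AddMonoidHom.sub_apply]

private theorem rsep_zero {N : Type} [Group N] (x : GR N) : lin (fun _ => 0) x = 0 := by
  have h : lin (fun _ : N => (0 : ℤ)) = 0 := by
    apply MonoidAlgebra.addMonoidHom_ext
    intro a m
    rw [lin_single, mul_zero]
    rfl
  rw [h]
  rfl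

/-- the elements killed by all polynomial functions of degree `d` -/
private noncomputable def rsepV (N : Type) [Group N] (d : ℕ) : Submodule (GR N) (GR N) where
  carrier := {x | ∀ f : N → ℤ, PolyF d f → lin f x = 0}
  add_mem' := by
    intro a b ha hb f hf
    rw [map_add, ha f hf, hb f hf, add_zero]
  zero_mem' := fun f _ => map_zero _
  smul_mem' := by
    intro c x hx f hf
    show lin f (c * x) = 0
    induction c using MonoidAlgebra.induction_linear with
    | zero => rw [zero_mul, map_zero]
    | add a b ha hb => rw [add_mul, map_add, ha, hb, add_zero]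
    | single g n =>
      rw [rsep_single, hx _ (polyF_trans hf g), mul_zero]

private theorem rsep_le {N : Type} [Group N] (d : ℕ) :
    (PF.aug (Q := N) (M := GR N))^[d + 1] ⊤ ≤ rsepV N d := by
  induction d with
  | zero =>
    rw [Function.iterate_one, PF.aug, Submodule.span_le]
    rintro x ⟨q, m, -, rfl⟩ f hf
    have h1 : lin f (el q * m - m) = lin (fun y => f (q * y) - f y) m := by
      rw [map_sub, rsep_el, rsep_sub]
    have h2 : (fun y => f (q * y) - f y) = fun _ => 0 := by
      funext y
      rw [hf q y, sub_self]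
    show lin f (el q * m - m) = 0
    rw [h1, h2, rsep_zero]
  | succ d ih =>
    rw [Function.iterate_succ_apply', PF.aug, Submodule.span_le]
    rintro x ⟨q, m, hm, rfl⟩ f hf
    have h1 : lin f (el q * m - m) = lin (fun y => f (q * y) - f y) m := by
      rw [map_sub, rsep_el, rsep_sub]
    show lin f (el q * m - m) = 0
    rw [h1]
    exact ih hm _ (hf q)

theorem polyF_kill {N : Type} [Group N] (d : ℕ) (f : N → ℤ) (hf : PolyF d f) (x : GR N)
    (hx : x ∈ (PF.aug (Q := N) (M := GR N))^[d + 1] ⊤) : lin f x = 0 :=
  rsep_le d hx f hf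

private theorem rsep_sum {N : Type} [Group N] (f : N → ℤ) (x : GR N) :
    lin f x = ∑ g ∈ x.coeff.support, x.coeff g * f g := by
  have h1 : lin f x = (Finsupp.liftAddHom (fun g => zmultiplesHom ℤ (f g))) x.coeff := rfl
  rw [h1, Finsupp.liftAddHom_apply, Finsupp.sum]
  refine Finset.sum_congr rfl fun g _ => ?_
  rw [zmultiplesHom_apply, smul_eq_mul]

private theorem rsep_prod {N : Type} [Group N] (T : Finset N) (F : N → N → ℤ)
    (hF : ∀ g ∈ T, ∃ d, PolyF d (F g)) : ∃ d, PolyF d (fun y => ∏ g ∈ T, F g y) := by
  classical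
  induction T using Finset.induction_on with
  | empty =>
    refine ⟨0, ?_⟩
    simp only [Finset.prod_empty]
    exact polyF_const 0 1
  | insert g T hg ih =>
    obtain ⟨d, hd⟩ := hF g (Finset.mem_insert_self g T)
    obtain ⟨e, he⟩ := ih fun g' hg' => hF g' (Finset.mem_insert_of_mem hg')
    refine ⟨d + e, ?_⟩
    simp only [Finset.prod_insert hg]
    exact polyF_mul hd he

theorem sep_of_poly (N : Type) [Group N]
    (h : ∀ x y : N, x ≠ y → ∃ (d : ℕ) (f : N → ℤ), PolyF d f ∧ f x ≠ f y) : Sep N := by
  classical
  intro x hx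
  by_contra hx0
  have h0 : x.coeff ≠ 0 := by
    intro h0
    apply hx0
    ext g
    rw [h0]
    rfl
  obtain ⟨g1, hg1⟩ := Finsupp.support_nonempty_iff.2 h0
  have hf : ∀ g : N, ∃ f : N → ℤ, (∃ d, PolyF d f) ∧ (g ≠ g1 → f g ≠ f g1) := by
    intro g
    by_cases hg : g = g1
    · exact ⟨fun _ => 0, ⟨0, polyF_const 0 0⟩, fun h' => absurd hg h'⟩
    · obtain ⟨d, f, h1, h2⟩ := h g g1 hg
      exact ⟨f, ⟨d, h1⟩, fun _ => h2⟩
  choose f hf1 hf2 using hf
  obtain ⟨d, hd⟩ := rsep_prod (x.coeff.support.erase g1) (fun g y => f g y + (-(f g g))) (by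
    intro g _
    obtain ⟨d, hd⟩ := hf1 g
    exact ⟨d, polyF_add hd (polyF_const d _)⟩)
  have h1 := polyF_kill d _ hd x (hx (d + 1))
  rw [rsep_sum, Finset.sum_eq_single g1] at h1
  · rcases mul_eq_zero.1 h1 with h2 | h2
    · exact Finsupp.mem_support_iff.1 hg1 h2
    · rw [Finset.prod_eq_zero_iff] at h2
      obtain ⟨g, hg, h3⟩ := h2
      have h4 := hf2 g (Finset.ne_of_mem_erase hg)
      apply h4
      linarith
  · intro g hg hne
    rw [Finset.prod_eq_zero (Finset.mem_erase.2 ⟨hne, hg⟩) (by ring), mul_zero]
  · intro h'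
    exact absurd hg1 h'

end PFC
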